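import Pool.Agent.Helper166_HN.Ker

set_option autoImplicit false
set_option linter.unusedSectionVars false

namespace Pool.Agent.Helper166_HN

open Module
open scoped TensorProduct

variable (K : Type) [Field K] (G : Type) [Group G]

/-- the augmentation ideal, as a submodule of `K[G]^1` -/
noncomputable def augM : Submodule (MonoidAlgebra K G) (Fin 1 → MonoidAlgebra K G) where
  carrier := {a | MonoidAlgebra.lift K K G (1 : G →* K) (a 0) = 0}
  zero_mem' := map_zero _
  add_mem' {a b} ha hb := by
    change MonoidAlgebra.lift K K G (1 : G →* K) (a 0 + b 0) = 0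
    rw [map_add, ha, hb, add_zero]
  smul_mem' r a ha := by
    change MonoidAlgebra.lift K K G (1 : G →* K) (r * a 0) = 0
    rw [map_mul, ha, mul_zero]

variable {K G}

theorem aug_mem {a : Fin 1 → MonoidAlgebra K G} :
    a ∈ augM K G ↔ MonoidAlgebra.lift K K G (1 : G →* K) (a 0) = 0 := Iff.rfl

/-- the augmentation of a monomial -/
theorem aug_single (g : G) (r : K) :
    MonoidAlgebra.lift K K G (1 : G →* K) (MonoidAlgebra.single g r) = r := by
  rw [MonoidAlgebra.lift_single]
  simp

/-- a subgroup containing the basis is everything -/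
theorem aug_closure {ι : Type} (b : FreeGroupBasis ι G) (S : Subgroup G) (hS : ∀ i, b i ∈ S)
    (h : G) : h ∈ S := by
  let f : G →* G := S.subtype.comp (b.lift fun i => ⟨b i, hS i⟩)
  have hf : f = MonoidHom.id G := by
    apply b.ext_hom
    intro i
    simp [f, FreeGroupBasis.lift]
  have : f h = h := by rw [hf]; rfl
  rw [← this]
  exact Subtype.property _

open Classical in
/-- the permutation attached to a basis element -/
noncomputable def aug_perm (K : Type) [Field K] {ι : Type} (b : FreeGroupBasis ι G) (i : ι) :
    Equiv.Perm ((ι → MonoidAlgebra K G) × G) where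
  toFun p := (p.1 + Pi.single i (MonoidAlgebra.single p.2 1), p.2 * b i)
  invFun p := (p.1 - Pi.single i (MonoidAlgebra.single (p.2 * (b i)⁻¹) 1), p.2 * (b i)⁻¹)
  left_inv p := by
    ext : 1 <;> simp
  right_inv p := by
    ext : 1 <;> simp

/-- the homomorphism of the Fox calculus -/
noncomputable def aug_hom (K : Type) [Field K] {ι : Type} (b : FreeGroupBasis ι G) :
    G →* (Equiv.Perm ((ι → MonoidAlgebra K G) × G))ᵐᵒᵖ :=
  b.lift fun i => MulOpposite.op (aug_perm K b i)

theorem aug_hom_basis {ι : Type} (b : FreeGroupBasis ι G) (i : ι) :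
    aug_hom K b (b i) = MulOpposite.op (aug_perm K b i) := by
  simp [aug_hom, FreeGroupBasis.lift]

theorem aug_hom_snd {ι : Type} (b : FreeGroupBasis ι G) (h : G) :
    ∀ p : (ι → MonoidAlgebra K G) × G, ((aug_hom K b h).unop p).2 = p.2 * h := by
  let S : Subgroup G :=
    { carrier := {h | ∀ p : (ι → MonoidAlgebra K G) × G, ((aug_hom K b h).unop p).2 = p.2 * h}
      mul_mem' := by
        intro g g' hg hg' p
        rw [map_mul, MulOpposite.unop_mul, Equiv.Perm.mul_apply, hg', hg, mul_assoc]
      one_mem' := by
        intro p
        simp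
      inv_mem' := by
        intro g hg p
        have := hg ((aug_hom K b g⁻¹).unop p)
        rw [← Equiv.Perm.mul_apply, ← MulOpposite.unop_mul, ← map_mul, inv_mul_cancel, map_one,
          MulOpposite.unop_one, Equiv.Perm.one_apply] at this
        rw [this]
        simp }
  have hS : ∀ i, b i ∈ S := by
    intro i p
    rw [aug_hom_basis]
    rfl
  exact aug_closure b S hS h

/-- the Fox derivatives of a group element -/
noncomputable def aug_D (K : Type) [Field K] {ι : Type} (b : FreeGroupBasis ι G) (f : G) :
    ι → MonoidAlgebra K G :=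
  ((aug_hom K b f).unop (0, 1)).1

open Classical in
theorem aug_D_mul {ι : Type} (b : FreeGroupBasis ι G) (i : ι) (f : G) :
    aug_D K b (f * b i) = aug_D K b f + Pi.single i (MonoidAlgebra.single f 1) := by
  unfold aug_D
  rw [map_mul, MulOpposite.unop_mul, Equiv.Perm.mul_apply, aug_hom_basis]
  have h2 := aug_hom_snd (K := K) b f (0, 1)
  rw [one_mul] at h2
  conv_lhs => unfold aug_perm
  simp only [MulOpposite.unop_op, Equiv.coe_fn_mk]
  rw [h2]

/-- its linear extension -/
noncomputable def aug_L {ι : Type} (b : FreeGroupBasis ι G) :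
    MonoidAlgebra K G →ₗ[K] (ι → MonoidAlgebra K G) :=
  (Finsupp.linearCombination K (aug_D K b)) ∘ₗ (MonoidAlgebra.coeffLinearEquiv K).toLinearMap

theorem aug_L_single {ι : Type} (b : FreeGroupBasis ι G) (f : G) (r : K) :
    aug_L b (MonoidAlgebra.single f r) = r • aug_D K b f := by
  change Finsupp.linearCombination K (aug_D K b) (MonoidAlgebra.single f r).coeff = _
  rw [MonoidAlgebra.coeff_single, Finsupp.linearCombination_single]

open Classical in
theorem aug_L_mul {ι : Type} (b : FreeGroupBasis ι G) (i : ι) (a : MonoidAlgebra K G) :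
    aug_L b (a * (MonoidAlgebra.single (b i) (1 : K) - 1)) = Pi.single i a := by
  induction a using MonoidAlgebra.induction_linear with
  | zero => rw [zero_mul, map_zero, Pi.single_zero]
  | add x y hx hy => rw [add_mul, map_add, hx, hy, Pi.single_add]
  | single m r =>
    rw [mul_sub, mul_one, MonoidAlgebra.single_mul_single, mul_one, map_sub, aug_L_single,
      aug_L_single, aug_D_mul, smul_add, add_sub_cancel_left, ← Pi.single_smul,
      MonoidAlgebra.smul_single, smul_eq_mul, mul_one]

theorem aug_li {ι : Type} (b : FreeGroupBasis ι G) :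
    LinearIndependent (MonoidAlgebra K G)
      (fun (i : ι) (_ : Fin 1) => (MonoidAlgebra.single (b i) (1 : K) - 1 : MonoidAlgebra K G)) := by
  classical
  rw [linearIndependent_iff']
  intro s g hg i hi
  have h0 := congrFun hg 0
  rw [Finset.sum_apply] at h0
  have h1 := congrArg (aug_L b) h0
  rw [map_sum] at h1
  have h3 : ∀ x : ι, aug_L b ((g x • (fun _ : Fin 1 =>
      (MonoidAlgebra.single (b x) (1 : K) - 1 : MonoidAlgebra K G))) 0) = Pi.single x (g x) :=
    fun x => aug_L_mul b x (g x)
  rw [Finset.sum_congr rfl (fun x _ => h3 x), Pi.zero_apply, map_zero] at h1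
  have h2 := congrFun h1 i
  rw [Finset.sum_apply, Finset.sum_eq_single i] at h2
  · rwa [Pi.single_eq_same] at h2
  · intro j _ hj
    rw [Pi.single_eq_of_ne hj.symm]
  · intro h3; exact absurd hi h3

theorem aug_span {ι : Type} (b : FreeGroupBasis ι G) :
    Submodule.span (MonoidAlgebra K G) (Set.range (fun (i : ι) (_ : Fin 1) =>
      (MonoidAlgebra.single (b i) (1 : K) - 1 : MonoidAlgebra K G))) = augM K G := by
  set I := Submodule.span (MonoidAlgebra K G) (Set.range (fun (i : ι) (_ : Fin 1) =>
      (MonoidAlgebra.single (b i) (1 : K) - 1 : MonoidAlgebra K G))) with hI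
  apply le_antisymm
  · rw [hI, Submodule.span_le]
    rintro _ ⟨i, rfl⟩
    change MonoidAlgebra.lift K K G (1 : G →* K) (MonoidAlgebra.single (b i) (1 : K) - 1) = 0
    rw [map_sub, aug_single, map_one, sub_self]
  · have h1 : ∀ g : G, (fun _ : Fin 1 =>
        (MonoidAlgebra.single g (1 : K) - 1 : MonoidAlgebra K G)) ∈ I := by
      intro g
      let S : Subgroup G :=
        { carrier := {g | (fun _ : Fin 1 =>
            (MonoidAlgebra.single g (1 : K) - 1 : MonoidAlgebra K G)) ∈ I}
          mul_mem' := by
            intro g g' hg hg'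
            simp only [Set.mem_ofPred_eq] at hg hg' ⊢
            have e : (fun _ : Fin 1 =>
                (MonoidAlgebra.single (g * g') (1 : K) - 1 : MonoidAlgebra K G)) =
                (MonoidAlgebra.single g (1 : K)) • (fun _ : Fin 1 =>
                (MonoidAlgebra.single g' (1 : K) - 1 : MonoidAlgebra K G)) +
                (fun _ : Fin 1 => (MonoidAlgebra.single g (1 : K) - 1 : MonoidAlgebra K G)) := by
              funext k
              rw [Pi.add_apply, Pi.smul_apply, smul_eq_mul, mul_sub, mul_one,
                MonoidAlgebra.single_mul_single, one_mul]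
              abel
            rw [e]
            exact I.add_mem (I.smul_mem _ hg') hg
          one_mem' := by
            simp only [Set.mem_ofPred_eq]
            rw [← MonoidAlgebra.one_def, sub_self]
            exact I.zero_mem
          inv_mem' := by
            intro g hg
            simp only [Set.mem_ofPred_eq] at hg ⊢
            have e : (fun _ : Fin 1 =>
                (MonoidAlgebra.single g⁻¹ (1 : K) - 1 : MonoidAlgebra K G)) =
                -((MonoidAlgebra.single g⁻¹ (1 : K)) • (fun _ : Fin 1 =>
                (MonoidAlgebra.single g (1 : K) - 1 : MonoidAlgebra K G))) := by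
              funext k
              rw [Pi.neg_apply, Pi.smul_apply, smul_eq_mul, mul_sub, mul_one,
                MonoidAlgebra.single_mul_single, one_mul, inv_mul_cancel, ← MonoidAlgebra.one_def]
              abel
            rw [e]
            exact I.neg_mem (I.smul_mem _ hg) }
      exact aug_closure b S (fun i => Submodule.subset_span ⟨i, rfl⟩) g
    have h2 : ∀ c : MonoidAlgebra K G, (fun _ : Fin 1 =>
        (c - MonoidAlgebra.single 1 (MonoidAlgebra.lift K K G (1 : G →* K) c) :
          MonoidAlgebra K G)) ∈ I := by
      intro c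
      induction c using MonoidAlgebra.induction_linear with
      | zero =>
        rw [map_zero, MonoidAlgebra.single_zero, sub_zero]
        exact I.zero_mem
      | add x y hx hy =>
        have e : (fun _ : Fin 1 => (x + y - MonoidAlgebra.single 1
            (MonoidAlgebra.lift K K G (1 : G →* K) (x + y)) : MonoidAlgebra K G)) =
            (fun _ : Fin 1 => (x - MonoidAlgebra.single 1
            (MonoidAlgebra.lift K K G (1 : G →* K) x) : MonoidAlgebra K G)) +
            (fun _ : Fin 1 => (y - MonoidAlgebra.single 1
            (MonoidAlgebra.lift K K G (1 : G →* K) y) : MonoidAlgebra K G)) := by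
          funext k
          rw [Pi.add_apply, map_add, MonoidAlgebra.single_add]
          abel
        rw [e]
        exact I.add_mem hx hy
      | single m r =>
        have e : (fun _ : Fin 1 => (MonoidAlgebra.single m r - MonoidAlgebra.single 1
            (MonoidAlgebra.lift K K G (1 : G →* K) (MonoidAlgebra.single m r)) :
            MonoidAlgebra K G)) = (MonoidAlgebra.single (1 : G) r) • (fun _ : Fin 1 =>
            (MonoidAlgebra.single m (1 : K) - 1 : MonoidAlgebra K G)) := by
          funext k
          rw [Pi.smul_apply, smul_eq_mul, mul_sub, mul_one, aug_single,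
            MonoidAlgebra.single_mul_single, mul_one, one_mul]
        rw [e]
        exact I.smul_mem _ (h1 m)
    intro a ha
    have h3 := h2 (a 0)
    rw [aug_mem.1 ha, MonoidAlgebra.single_zero, sub_zero] at h3
    have h4 : a = fun _ => a 0 := by
      funext k
      rw [Subsingleton.elim k 0]
    rw [h4]
    exact h3

/-- a free basis of the group gives a basis of the augmentation ideal -/
theorem augM_basis {ι : Type} (b : FreeGroupBasis ι G) :
    Nonempty (Basis ι (MonoidAlgebra K G) (augM K G)) :=
  ⟨(Basis.span (aug_li (K := K) b)).map (LinearEquiv.ofEq _ _ (aug_span b))⟩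

/-- the augmentation of the image of an element of `K[H]` -/
theorem aug_map (H : Subgroup G) (c : MonoidAlgebra K H) :
    MonoidAlgebra.lift K K G (1 : G →* K) (MonoidAlgebra.mapDomainRingHom K H.subtype c) =
      MonoidAlgebra.lift K K H (1 : H →* K) c := by
  induction c using MonoidAlgebra.induction_linear with
  | zero => rw [map_zero, map_zero, map_zero]
  | add x y hx hy => rw [map_add, map_add, map_add, hx, hy]
  | single m r =>
    rw [aug_single, MonoidAlgebra.mapDomainRingHom_apply, MonoidAlgebra.mapDomain_single,
      aug_single]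

/-- the intersection of the augmentation ideal with `K[H]` -/
theorem inter_augM (H : Subgroup G) : inter (augM K G) H = augM K H := by
  ext v
  rw [mem_inter, aug_mem, aug_mem]
  change MonoidAlgebra.lift K K G (1 : G →* K)
    (MonoidAlgebra.mapDomainRingHom K H.subtype (v 0)) = 0 ↔ _
  rw [aug_map]

/-- the projection of `K[G]^1` to `K[G/H]` -/
noncomputable def proj (K : Type) [Field K] {G : Type} [Group G] (H : Subgroup G) :
    (Fin 1 → MonoidAlgebra K G) →ₗ[K] (G ⧸ H →₀ K) :=
  (Finsupp.lmapDomain K K (fun g : G => (QuotientGroup.mk g : G ⧸ H))) ∘ₗ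
    (MonoidAlgebra.coeffLinearEquiv K).toLinearMap ∘ₗ LinearMap.proj 0

theorem aug_proj (H : Subgroup G) (a : Fin 1 → MonoidAlgebra K G) :
    proj K H a = Finsupp.mapDomain (fun g : G => (QuotientGroup.mk g : G ⧸ H)) (a 0).coeff := rfl

theorem aug_part (H : Subgroup G) (s : G ⧸ H) (c : MonoidAlgebra K G) :
    Finsupp.mapDomain (fun g : G => (QuotientGroup.mk g : G ⧸ H)) c.coeff s =
      MonoidAlgebra.lift K K G (1 : G →* K) (part K H s (fun _ : Fin 1 => c) 0) := by
  classical
  unfold part
  simp only
  induction c using MonoidAlgebra.induction_linear with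
  | zero =>
    rw [MonoidAlgebra.coeff_zero, Finsupp.mapDomain_zero, Finsupp.filter_zero,
      MonoidAlgebra.ofCoeff_zero, map_zero, Finsupp.zero_apply]
  | add x y hx hy =>
    rw [MonoidAlgebra.coeff_add, Finsupp.mapDomain_add, Finsupp.filter_add,
      MonoidAlgebra.ofCoeff_add, map_add, Finsupp.add_apply, hx, hy]
  | single m r =>
    rw [MonoidAlgebra.coeff_single, Finsupp.mapDomain_single, Finsupp.single_apply]
    by_cases h : (QuotientGroup.mk m : G ⧸ H) = s
    · rw [if_pos h, Finsupp.filter_single_of_pos
        (fun g : G => (QuotientGroup.mk g : G ⧸ H) = s) h]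
      exact (aug_single m r).symm
    · rw [if_neg h, Finsupp.filter_single_of_neg
        (fun g : G => (QuotientGroup.mk g : G ⧸ H) = s) h, MonoidAlgebra.ofCoeff_zero, map_zero]

theorem proj_eq_zero_iff (H : Subgroup G) (a : Fin 1 → MonoidAlgebra K G) :
    proj K H a = 0 ↔ a ∈ cosetwise (augM K G) H := by
  have h4 : a = fun _ => a 0 := by
    funext k
    rw [Subsingleton.elim k 0]
  rw [mem_cosetwise, Finsupp.ext_iff]
  refine forall_congr' fun s => ?_
  rw [aug_mem, aug_proj, aug_part, ← h4, Finsupp.zero_apply]

theorem proj_surjective (H : Subgroup G) : Function.Surjective (proj K H) := by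
  intro f
  induction f using Finsupp.induction_linear with
  | zero => exact ⟨0, map_zero _⟩
  | add x y hx hy =>
    obtain ⟨a, ha⟩ := hx
    obtain ⟨b, hb⟩ := hy
    exact ⟨a + b, by rw [map_add, ha, hb]⟩
  | single s r =>
    refine ⟨fun _ => MonoidAlgebra.single (Quotient.out s) r, ?_⟩
    rw [aug_proj, MonoidAlgebra.coeff_single, Finsupp.mapDomain_single, QuotientGroup.out_eq']

theorem proj_equivariant (H : Subgroup G) (g : G) (a : Fin 1 → MonoidAlgebra K G) :
    proj K H (MonoidAlgebra.single g (1 : K) • a) =
      cosRep K H g (proj K H a) := by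
  rw [aug_proj, aug_proj, Pi.smul_apply, smul_eq_mul]
  generalize a 0 = c
  induction c using MonoidAlgebra.induction_linear with
  | zero =>
    rw [mul_zero, MonoidAlgebra.coeff_zero, Finsupp.mapDomain_zero, map_zero]
  | add x y hx hy =>
    rw [mul_add, MonoidAlgebra.coeff_add, Finsupp.mapDomain_add, hx, hy,
      MonoidAlgebra.coeff_add, Finsupp.mapDomain_add, map_add]
  | single m r =>
    rw [MonoidAlgebra.single_mul_single, one_mul, MonoidAlgebra.coeff_single,
      MonoidAlgebra.coeff_single, Finsupp.mapDomain_single, Finsupp.mapDomain_single,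
      cosRep_single]
    rfl

end Pool.Agent.Helper166_HN
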