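import Mathlib

set_option autoImplicit false
set_option linter.unusedSectionVars false

namespace Pool.Agent.Helper166_HN

open Module

section words
open Classical

theorem cl_dich {X : Type} (z : X × Bool) (g : FreeGroup X) :
    (FreeGroup.mk [z] * g).toWord = z :: g.toWord ∨
      g.toWord = (z.1, !z.2) :: (FreeGroup.mk [z] * g).toWord := by
  have h1 : (FreeGroup.mk [z] * g).toWord = FreeGroup.reduce (z :: g.toWord) := by
    conv_lhs => rw [← FreeGroup.mk_toWord (x := g)]
    rw [FreeGroup.mul_mk, FreeGroup.toWord_mk]; rfl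
  rw [h1, FreeGroup.reduce.cons, FreeGroup.reduce_toWord]
  cases hw : g.toWord with
  | nil => left; rfl
  | cons a t =>
    by_cases hc : z.1 = a.1 ∧ z.2 = !a.2
    · right
      simp only [if_pos hc]
      congr 1
      ext
      · exact hc.1.symm
      · simp [hc.2]
    · left
      simp only [if_neg hc]

theorem cl_word {X : Type} (z : X × Bool) (h g : FreeGroup X) (e : h.toWord = z :: g.toWord) :
    h = FreeGroup.mk [z] * g := by
  rw [← FreeGroup.mk_toWord (x := h), e, ← FreeGroup.mk_toWord (x := g), FreeGroup.mul_mk]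
  simp

/-- suffix-closed sets. -/
def cl_SC {X : Type} {d : ℕ} (B : Set (Fin d × FreeGroup X)) : Prop :=
  ∀ (k : Fin d) (h g : FreeGroup X) (z : X × Bool), h.toWord = z :: g.toWord → (k, h) ∈ B → (k, g) ∈ B

end words

noncomputable def cl_e (K : Type) [Field K] {X : Type} {d : ℕ} (b : Fin d × FreeGroup X) :
    Fin d → MonoidAlgebra K (FreeGroup X) :=
  MonoidAlgebra.of K (FreeGroup X) b.2 • Pi.single b.1 1

noncomputable def cl_cls {K : Type} [Field K] {X : Type} {d : ℕ}
    (L : Submodule (MonoidAlgebra K (FreeGroup X)) (Fin d → MonoidAlgebra K (FreeGroup X)))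
    (b : Fin d × FreeGroup X) : (Fin d → MonoidAlgebra K (FreeGroup X)) ⧸ L :=
  L.mkQ (cl_e K b)

theorem cl_of_smul_cls {K : Type} [Field K] {X : Type} {d : ℕ}
    (L : Submodule (MonoidAlgebra K (FreeGroup X)) (Fin d → MonoidAlgebra K (FreeGroup X)))
    (g : FreeGroup X) (b : Fin d × FreeGroup X) :
    MonoidAlgebra.of K (FreeGroup X) g • cl_cls L b = cl_cls L (b.1, g * b.2) := by
  unfold cl_cls cl_e
  rw [← map_smul, smul_smul, ← map_mul]

theorem cl_of_smul_e (K : Type) [Field K] {X : Type} {d : ℕ}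
    (g : FreeGroup X) (b : Fin d × FreeGroup X) :
    MonoidAlgebra.of K (FreeGroup X) g • cl_e K b = cl_e K (b.1, g * b.2) := by
  unfold cl_e
  rw [smul_smul, ← map_mul]

theorem cl_exists_max {K : Type} [Field K] {X : Type} {d : ℕ}
    (L : Submodule (MonoidAlgebra K (FreeGroup X)) (Fin d → MonoidAlgebra K (FreeGroup X))) :
    ∃ B : Set (Fin d × FreeGroup X), Maximal (fun B => cl_SC B ∧ LinearIndepOn K (cl_cls L) B) B := by
  have := zorn_subset {B : Set (Fin d × FreeGroup X) | cl_SC B ∧ LinearIndepOn K (cl_cls L) B} (by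
    intro c hc hch
    refine ⟨⋃₀ c, ⟨?_, ?_⟩, fun s hs => Set.subset_sUnion_of_mem hs⟩
    · intro k h g z e hh
      obtain ⟨s, hs, hhs⟩ := hh
      exact ⟨s, hs, (hc hs).1 k h g z e hhs⟩
    · exact linearIndepOn_sUnion_of_directed hch.directedOn fun x xc => (hc xc).2)
  obtain ⟨m, hm⟩ := this
  exact ⟨m, hm⟩

theorem cl_span {K : Type} [Field K] {X : Type} {d : ℕ}
    (L : Submodule (MonoidAlgebra K (FreeGroup X)) (Fin d → MonoidAlgebra K (FreeGroup X)))
    (B : Set (Fin d × FreeGroup X)) (hB : Maximal (fun B => cl_SC B ∧ LinearIndepOn K (cl_cls L) B) B) :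
    Submodule.span K (cl_cls L '' B) = ⊤ := by
  classical
  set V := Submodule.span K (cl_cls L '' B) with hV
  have key : ∀ b, cl_cls L b ∉ V → cl_SC (insert b B) → False := by
    intro b hb hsc
    have h1 : LinearIndepOn K (cl_cls L) (insert b B) := hB.prop.2.insert hb
    have h2 := hB.le_of_ge (y := insert b B) ⟨hsc, h1⟩ (Set.subset_insert _ _)
    exact hb (Submodule.subset_span ⟨b, h2 (Set.mem_insert _ _), rfl⟩)
  have hone : ∀ k, cl_cls L (k, 1) ∈ V := by
    intro k
    by_contra hk
    refine key _ hk ?_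
    intro k' h g z e hh
    rcases hh with hh | hh
    · simp only [Prod.mk.injEq] at hh
      rw [hh.2, FreeGroup.toWord_one] at e
      exact absurd e (by simp)
    · exact Or.inr (hB.prop.1 k' h g z e hh)
  have hlet : ∀ (z : X × Bool) (v), v ∈ V → MonoidAlgebra.of K (FreeGroup X) (FreeGroup.mk [z]) • v ∈ V := by
    intro z v hv
    induction hv using Submodule.span_induction with
    | mem x hx =>
      obtain ⟨⟨k, g⟩, hb, rfl⟩ := hx
      rw [cl_of_smul_cls]
      rcases cl_dich z g with h | h
      · by_contra hn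
        refine key _ hn ?_
        intro k' h' g' z' e hh
        rcases hh with hh | hh
        · simp only [Prod.mk.injEq] at hh
          rw [hh.2, h] at e
          have : g = g' := FreeGroup.toWord_injective (List.cons.inj e).2
          rw [← this, hh.1]
          exact Or.inr hb
        · exact Or.inr (hB.prop.1 k' h' g' z' e hh)
      · exact Submodule.subset_span ⟨_, hB.prop.1 k g _ _ h hb, rfl⟩
    | zero => rw [smul_zero]; exact V.zero_mem
    | add x y _ _ hx hy => rw [smul_add]; exact V.add_mem hx hy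
    | smul c x _ hx => rw [smul_comm]; exact V.smul_mem _ hx
  have hF : ∀ (g : FreeGroup X) (v), v ∈ V → MonoidAlgebra.of K (FreeGroup X) g • v ∈ V := by
    intro g
    induction g using FreeGroup.induction_on with
    | C1 => intro v hv; rw [map_one, one_smul]; exact hv
    | of x => intro v hv; exact hlet (x, true) v hv
    | inv_of x _ => intro v hv; exact hlet (x, false) v hv
    | mul x y hx hy => intro v hv; rw [map_mul, mul_smul]; exact hx _ (hy _ hv)
  have hA : ∀ (a : MonoidAlgebra K (FreeGroup X)) (v), v ∈ V → a • v ∈ V := by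
    intro a
    induction a using MonoidAlgebra.induction_on with
    | of g => exact hF g
    | add a b ha hb => intro v hv; rw [add_smul]; exact V.add_mem (ha v hv) (hb v hv)
    | smul c a ha => intro v hv; rw [smul_assoc]; exact V.smul_mem _ (ha v hv)
  rw [eq_top_iff]
  intro n _
  obtain ⟨p, rfl⟩ := L.mkQ_surjective n
  have hp : p = ∑ k, p k • (Pi.single k 1 : Fin d → MonoidAlgebra K (FreeGroup X)) := by
    ext1 j
    simp [Finset.sum_apply, Pi.single_apply]
  rw [hp, map_sum]
  refine V.sum_mem fun k _ => ?_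
  rw [map_smul]
  refine hA _ _ ?_
  have := hone k
  unfold cl_cls cl_e at this
  rwa [map_one, one_smul] at this

/-- the triangular automorphism. -/
def cl_T {K A M N : Type} [Field K] [Ring A] [Algebra K A] [AddCommGroup M] [Module K M] [Module A M]
    [IsScalarTower K A M] [AddCommGroup N] [Module K N] [Module A N] [IsScalarTower K A N]
    (u v : A) (huv : u * v = 1) (hvu : v * u = 1) (τ : N →ₗ[K] M) : (M × N) ≃ₗ[K] (M × N) where
  toFun e := (u • e.1 + τ e.2, u • e.2)
  invFun e := (v • (e.1 - τ (v • e.2)), v • e.2)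
  map_add' := by
    rintro ⟨e, e'⟩ ⟨f, f'⟩
    ext1
    · simp only [Prod.mk_add_mk, smul_add, map_add]; abel
    · simp only [Prod.mk_add_mk, smul_add]
  map_smul' := by
    rintro c ⟨e, e'⟩
    ext1
    · simp only [Prod.smul_mk, map_smul, RingHom.id_apply, smul_add]
      rw [smul_comm]
    · simp only [Prod.smul_mk, RingHom.id_apply]
      rw [smul_comm]
  left_inv := by
    rintro ⟨e, e'⟩
    simp only [smul_smul v u e', hvu, one_smul, add_sub_cancel_right, smul_smul]
  right_inv := by
    rintro ⟨e, e'⟩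
    simp only [smul_smul u v, huv, one_smul, sub_add_cancel]

/-- the group algebra. -/
abbrev cl_A (K X : Type) [Field K] := MonoidAlgebra K (FreeGroup X)

/-- group elements. -/
noncomputable abbrev cl_u (K : Type) {X : Type} [Field K] (g : FreeGroup X) : cl_A K X :=
  MonoidAlgebra.of K (FreeGroup X) g

theorem cl_u_one (K X : Type) [Field K] : cl_u K (1 : FreeGroup X) = 1 := map_one _

theorem cl_u_mul (K : Type) {X : Type} [Field K] (g h : FreeGroup X) :
    cl_u K (g * h) = cl_u K g * cl_u K h := map_mul _ g h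

theorem cl_core {K : Type} [Field K] {X : Type} {d : ℕ} {J N : Type}
    [AddCommGroup N] [Module K N] [Module (cl_A K X) N] [IsScalarTower K (cl_A K X) N]
    (π : (Fin d → cl_A K X) →ₗ[cl_A K X] N)
    (r : J → (Fin d → cl_A K X))
    (hr : ∀ j, π (r j) = 0)
    (σ : N →ₗ[K] (Fin d → cl_A K X))
    (hσ : ∀ n, π (σ n) = n)
    (τ : X → N →ₗ[K] (J →₀ cl_A K X))
    (hτ : ∀ y n, Finsupp.linearCombination (cl_A K X) r (τ y n) +
          σ (cl_u K (FreeGroup.of y) • n) = cl_u K (FreeGroup.of y) • σ n)
    (a : Fin d → (J →₀ cl_A K X))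
    (ha : ∀ k, Finsupp.linearCombination (cl_A K X) r (a k) +
          σ (π (Pi.single k 1)) = Pi.single k 1)
    (hgen : ∀ R : Submodule K ((J →₀ cl_A K X) × N),
        (∀ k, (a k, π (Pi.single k 1)) ∈ R) →
        (∀ y b n, (b, n) ∈ R ↔
          (cl_u K (FreeGroup.of y) • b + τ y n, cl_u K (FreeGroup.of y) • n) ∈ R) →
        (∀ n, ((0 : J →₀ cl_A K X), n) ∈ R) ∧
          ∀ j, (Finsupp.single j (1 : cl_A K X), (0 : N)) ∈ R) :
    LinearIndependent (cl_A K X) r ∧
      LinearMap.ker π ≤ Submodule.span (cl_A K X) (Set.range r) := by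
  classical
  let lc : (J →₀ cl_A K X) →ₗ[cl_A K X] (Fin d → cl_A K X) := Finsupp.linearCombination (cl_A K X) r
  -- the maps T_y
  let T : X → (((J →₀ cl_A K X) × N) ≃ₗ[K] ((J →₀ cl_A K X) × N)) := fun y =>
    cl_T (cl_u K (FreeGroup.of y)) (cl_u K (FreeGroup.of y)⁻¹)
      (by rw [← cl_u_mul, mul_inv_cancel, cl_u_one])
      (by rw [← cl_u_mul, inv_mul_cancel, cl_u_one]) (τ y)
  have hT : ∀ y b n, T y (b, n) = (cl_u K (FreeGroup.of y) • b + τ y n, cl_u K (FreeGroup.of y) • n) :=
    fun y b n => rfl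
  let ρ : FreeGroup X →* (((J →₀ cl_A K X) × N) ≃ₗ[K] ((J →₀ cl_A K X) × N)) := FreeGroup.lift T
  let ρ' : FreeGroup X →* (Module.End K ((J →₀ cl_A K X) × N)) :=
    (LinearEquiv.automorphismGroup.toLinearMapMonoidHom).comp ρ
  have hρ' : ∀ g e, ρ' g e = ρ g e := fun g e => rfl
  have hρof : ∀ y e, ρ (FreeGroup.of y) e = T y e := by
    intro y e
    show (FreeGroup.lift T (FreeGroup.of y)) e = _
    rw [FreeGroup.lift_apply_of]
  let Φ : cl_A K X →ₐ[K] Module.End K ((J →₀ cl_A K X) × N) := MonoidAlgebra.lift K _ _ ρ'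
  have hΦ : ∀ g, Φ (cl_u K g) = ρ' g := fun g => MonoidAlgebra.lift_of _ _
  -- the map psi
  let ψ : ((J →₀ cl_A K X) × N) →ₗ[K] (Fin d → cl_A K X) := (lc.restrictScalars K).coprod σ
  have hψ : ∀ b n, ψ (b, n) = lc b + σ n := fun b n => rfl
  have hψT : ∀ y e, ψ (T y e) = cl_u K (FreeGroup.of y) • ψ e := by
    rintro y ⟨b, n⟩
    rw [hT, hψ, hψ, map_add, map_smul, smul_add, add_assoc, hτ y n]
  have hψρ : ∀ g e, ψ (ρ g e) = cl_u K g • ψ e := by
    intro g
    induction g using FreeGroup.induction_on with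
    | C1 => intro e; rw [map_one, cl_u_one, one_smul]; rfl
    | of x => intro e; rw [hρof, hψT]
    | inv_of x _ =>
      intro e
      have h1 := hψT x (ρ (FreeGroup.of x)⁻¹ e)
      rw [← hρof, ← LinearEquiv.mul_apply, ← map_mul, mul_inv_cancel, map_one] at h1
      rw [LinearEquiv.coe_one, id] at h1
      rw [h1, smul_smul, ← cl_u_mul, inv_mul_cancel, cl_u_one, one_smul]
    | mul x y hx hy => intro e; rw [map_mul, LinearEquiv.mul_apply, hx, hy, cl_u_mul, mul_smul]
  have hψΦ : ∀ c e, ψ (Φ c e) = c • ψ e := by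
    intro c
    induction c using MonoidAlgebra.induction_on with
    | of g => intro e; rw [show (MonoidAlgebra.of K (FreeGroup X)) g = cl_u K g from rfl, hΦ, hρ', hψρ]
    | add b c hb hc => intro e; rw [map_add, LinearMap.add_apply, map_add, hb, hc, add_smul]
    | smul c b hb => intro e; rw [map_smul, LinearMap.smul_apply, map_smul, hb, smul_assoc]
  -- the map theta
  let ε : Fin d → ((J →₀ cl_A K X) × N) := fun k => (a k, π (Pi.single k 1))
  have hψε : ∀ k, ψ (ε k) = Pi.single k 1 := fun k => ha k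
  let θ : (Fin d → cl_A K X) →ₗ[K] ((J →₀ cl_A K X) × N) :=
    ∑ k, (LinearMap.applyₗ (ε k)).comp (Φ.toLinearMap.comp (LinearMap.proj k))
  have hθ : ∀ p, θ p = ∑ k, Φ (p k) (ε k) := by
    intro p
    simp only [θ, LinearMap.sum_apply]
    rfl
  have hψθ : ∀ p, ψ (θ p) = p := by
    intro p
    rw [hθ, map_sum]
    simp only [hψΦ, hψε]
    ext1 j
    simp [Finset.sum_apply, Pi.single_apply]
  have hθsmul : ∀ (c : cl_A K X) p, θ (c • p) = Φ c (θ p) := by
    intro c p
    rw [hθ, hθ, map_sum]
    refine Finset.sum_congr rfl fun k _ => ?_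
    rw [Pi.smul_apply, smul_eq_mul, map_mul]; rfl
  -- the range of theta
  have hR := hgen (LinearMap.range θ) (by
    intro k
    refine ⟨Pi.single k 1, ?_⟩
    rw [hθ, Finset.sum_eq_single k]
    · rw [Pi.single_eq_same, map_one]; rfl
    · intro j _ hj
      rw [Pi.single_eq_of_ne hj, map_zero]; rfl
    · intro h; exact absurd (Finset.mem_univ _) h) (by
    intro y b n
    rw [← hT]
    constructor
    · rintro ⟨p, hp⟩
      refine ⟨cl_u K (FreeGroup.of y) • p, ?_⟩
      rw [hθsmul, hΦ, hρ', hρof, hp]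
    · rintro ⟨p, hp⟩
      refine ⟨cl_u K (FreeGroup.of y)⁻¹ • p, ?_⟩
      rw [hθsmul, hΦ, hρ', hp, ← hρof, ← LinearEquiv.mul_apply, ← map_mul, inv_mul_cancel, map_one]
      rfl)
  have hρ0 : ∀ g (b : J →₀ cl_A K X), ρ g (b, 0) = (cl_u K g • b, 0) := by
    intro g
    induction g using FreeGroup.induction_on with
    | C1 => intro b; rw [map_one, cl_u_one, one_smul]; rfl
    | of x => intro b; rw [hρof, hT, map_zero, add_zero, smul_zero]
    | inv_of x hx =>
      intro b
      have h1 := hx (cl_u K (FreeGroup.of x)⁻¹ • b)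
      rw [smul_smul, ← cl_u_mul, mul_inv_cancel, cl_u_one, one_smul] at h1
      rw [← h1, ← LinearEquiv.mul_apply, ← map_mul, inv_mul_cancel, map_one]
      rfl
    | mul x y hx hy => intro e; rw [map_mul, LinearEquiv.mul_apply, hy, hx, cl_u_mul, mul_smul]
  have hΦ0 : ∀ c (b : J →₀ cl_A K X), Φ c (b, 0) = (c • b, 0) := by
    intro c
    induction c using MonoidAlgebra.induction_on with
    | of g => intro b; rw [show (MonoidAlgebra.of K (FreeGroup X)) g = cl_u K g from rfl, hΦ, hρ', hρ0]
    | add b c hb hc => 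
      intro e; rw [map_add, LinearMap.add_apply, hb, hc, add_smul, Prod.mk_add_mk, add_zero]
    | smul c b hb => intro e; rw [map_smul, LinearMap.smul_apply, hb, smul_assoc, Prod.smul_mk, smul_zero]
  have hRA : ∀ c e, e ∈ LinearMap.range θ → Φ c e ∈ LinearMap.range θ := by
    rintro c e ⟨p, rfl⟩
    exact ⟨c • p, hθsmul c p⟩
  have hR0 : ∀ b : J →₀ cl_A K X, (b, (0 : N)) ∈ LinearMap.range θ := by
    intro b
    induction b using Finsupp.induction_linear with
    | zero => exact Submodule.zero_mem _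
    | add f g hf hg =>
      have := Submodule.add_mem _ hf hg
      rwa [Prod.mk_add_mk, add_zero] at this
    | single j c =>
      have := hRA c _ (hR.2 j)
      rwa [hΦ0, Finsupp.smul_single, smul_eq_mul, mul_one] at this
  have hsurj : ∀ e, e ∈ LinearMap.range θ := by
    rintro ⟨b, n⟩
    have := Submodule.add_mem _ (hR0 b) (hR.1 n)
    rwa [Prod.mk_add_mk, add_zero, zero_add] at this
  have hinj : ∀ e, ψ e = 0 → e = 0 := by
    intro e he
    obtain ⟨p, rfl⟩ := hsurj e
    rw [hψθ] at he
    rw [he, map_zero]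
  constructor
  · rw [LinearIndependent, ← LinearMap.ker_eq_bot, LinearMap.ker_eq_bot']
    intro b hb
    have := hinj (b, 0) (by rw [hψ, map_zero, add_zero]; exact hb)
    exact (Prod.mk.inj this).1
  · intro p hp
    rw [← Finsupp.range_linearCombination]
    rcases h : θ p with ⟨b, n⟩
    have h1 : ψ (b, n) = p := by rw [← h, hψθ]
    rw [hψ] at h1
    have h2 : π (lc b) = 0 := by
      simp only [lc, Finsupp.linearCombination_apply, Finsupp.sum, map_sum, map_smul, hr, smul_zero,
        Finset.sum_const_zero]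
    have h3 : n = 0 := by
      have := congrArg π h1
      rw [map_add, h2, hσ, zero_add, LinearMap.mem_ker.1 hp] at this
      exact this
    refine ⟨b, ?_⟩
    rw [← h1, h3, map_zero, add_zero]

theorem cl_tail {X : Type} [DecidableEq X] (g : FreeGroup X) (z : X × Bool) (w : List (X × Bool))
    (h : g.toWord = z :: w) : ∃ g' : FreeGroup X, g'.toWord = w := by
  refine ⟨FreeGroup.mk w, ?_⟩
  rw [FreeGroup.toWord_mk]
  apply FreeGroup.IsReduced.reduce_eq
  have h1 : FreeGroup.IsReduced g.toWord := FreeGroup.isReduced_toWord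
  rw [h] at h1
  exact List.IsChain.tail (l := z :: w) h1

theorem cl_main {K : Type} [Field K] {X : Type} {d : ℕ}
    (L : Submodule (cl_A K X) (Fin d → cl_A K X)) :
    ∃ (J : Type) (r : J → (Fin d → cl_A K X)), LinearIndependent (cl_A K X) r ∧
      Submodule.span (cl_A K X) (Set.range r) = L := by
  classical
  obtain ⟨B, hB⟩ := cl_exists_max L
  have hspan := cl_span L B hB
  have hSC := hB.prop.1
  have hli := hB.prop.2
  have hrange : Set.range (fun b : B => cl_cls L b) = cl_cls L '' B := (Set.image_eq_range _ _).symm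
  let β : Basis B K ((Fin d → cl_A K X) ⧸ L) := Basis.mk (v := fun b : B => cl_cls L b) hli (by
     rw [hrange]; exact hspan.ge)
  have hβ : ∀ b : B, β b = cl_cls L b := fun b => Basis.mk_apply hli _ b
  have hind : ∀ (p : ((Fin d → cl_A K X) ⧸ L) → Prop), (∀ b ∈ B, p (cl_cls L b)) → p 0 →
      (∀ x y, p x → p y → p (x + y)) → (∀ (c : K) x, p x → p (c • x)) → ∀ n, p n := by
    intro p h1 h2 h3 h4 n
    have hn : n ∈ Submodule.span K (cl_cls L '' B) := by rw [hspan]; trivial
    induction hn using Submodule.span_induction with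
    | mem x hx => obtain ⟨b, hb, rfl⟩ := hx; exact h1 b hb
    | zero => exact h2
    | add x y _ _ hx hy => exact h3 x y hx hy
    | smul c x _ hx => exact h4 c x hx
  let σ : ((Fin d → cl_A K X) ⧸ L) →ₗ[K] (Fin d → cl_A K X) :=
    β.constr K (fun b : B => cl_e K (b : Fin d × FreeGroup X))
  have hσb : ∀ b ∈ B, σ (cl_cls L b) = cl_e K b := by
    intro b hb
    rw [← hβ ⟨b, hb⟩]
    exact β.constr_basis K _ _
  have hσ : ∀ n, L.mkQ (σ n) = n := by
    refine hind _ ?_ ?_ ?_ ?_
    · intro b hb; rw [hσb b hb]; rfl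
    · rw [map_zero, map_zero]
    · intro x y hx hy; rw [map_add, map_add, hx, hy]
    · intro c x hx
      rw [map_smul]
      exact (((L.mkQ).restrictScalars K).map_smul c (σ x)).trans (congrArg _ hx)
  let J := {p : X × B // (p.2.1.1, FreeGroup.of p.1 * p.2.1.2) ∉ B} ⊕
    {k : Fin d // (k, (1 : FreeGroup X)) ∉ B}
  let r : J → (Fin d → cl_A K X) := Sum.elim
    (fun p => cl_u K (FreeGroup.of p.1.1) • cl_e K (p.1.2 : Fin d × FreeGroup X) -
      σ (cl_u K (FreeGroup.of p.1.1) • cl_cls L p.1.2))
    (fun k => cl_e K (k.1, 1) - σ (cl_cls L (k.1, 1)))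
  let τ : X → ((Fin d → cl_A K X) ⧸ L) →ₗ[K] (J →₀ cl_A K X) := fun y =>
    β.constr K (fun b => if h : (b.1.1, FreeGroup.of y * b.1.2) ∉ B then
      Finsupp.single (Sum.inl ⟨(y, b), h⟩) 1 else 0)
  have hτb0 : ∀ y b (hb : b ∈ B), (b.1, FreeGroup.of y * b.2) ∈ B → τ y (cl_cls L b) = 0 := by
    intro y b hb h
    have h1 : τ y (β ⟨b, hb⟩) = _ := β.constr_basis K _ _
    rw [hβ] at h1
    rw [h1, dif_neg (not_not.2 h)]
  have hτb1 : ∀ y b (hb : b ∈ B) (h : (b.1, FreeGroup.of y * b.2) ∉ B),
      τ y (cl_cls L b) = Finsupp.single (Sum.inl ⟨(y, ⟨b, hb⟩), h⟩) 1 := by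
    intro y b hb h
    have h1 : τ y (β ⟨b, hb⟩) = _ := β.constr_basis K _ _
    rw [hβ] at h1
    rw [h1, dif_pos h]
  let a : Fin d → (J →₀ cl_A K X) := fun k =>
    if h : (k, (1 : FreeGroup X)) ∉ B then Finsupp.single (Sum.inr ⟨k, h⟩) 1 else 0
  have he1 : ∀ k : Fin d, cl_e K (k, (1 : FreeGroup X)) = Pi.single k 1 := by
    intro k; unfold cl_e; rw [map_one, one_smul]
  have hcls1 : ∀ k : Fin d, cl_cls L (k, (1 : FreeGroup X)) = L.mkQ (Pi.single k 1) := by
    intro k; unfold cl_cls; rw [he1]
  have hπe : ∀ b, L.mkQ (cl_e K b) = cl_cls L b := fun b => rfl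
  have hcore := cl_core (N := (Fin d → cl_A K X) ⧸ L) L.mkQ r ?_ σ hσ τ ?_ a ?_ ?_
  · refine ⟨J, r, hcore.1, le_antisymm ?_ ?_⟩
    · rw [Submodule.span_le]
      rintro _ ⟨j, rfl⟩
      have : L.mkQ (r j) = 0 := by
        rcases j with p | k
        · simp only [r, Sum.elim_inl, map_sub, map_smul, hσ, hπe, sub_self]
        · simp only [r, Sum.elim_inr, map_sub, hσ, hπe, sub_self]
      have h2 : r j ∈ LinearMap.ker L.mkQ := this
      rwa [Submodule.ker_mkQ] at h2
    · have := hcore.2
      rwa [Submodule.ker_mkQ] at this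
  · intro j
    rcases j with p | k
    · simp only [r, Sum.elim_inl, map_sub, map_smul, hσ, hπe, sub_self]
    · simp only [r, Sum.elim_inr, map_sub, hσ, hπe, sub_self]
  · intro y
    refine hind _ ?_ ?_ ?_ ?_
    · intro b hb
      by_cases h : (b.1, FreeGroup.of y * b.2) ∈ B
      · rw [hτb0 y b hb h, map_zero, zero_add, cl_of_smul_cls, hσb _ h, hσb _ hb, cl_of_smul_e]
      · rw [hτb1 y b hb h, Finsupp.linearCombination_single, one_smul, hσb _ hb]
        simp only [r, Sum.elim_inl, sub_add_cancel]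
    · simp only [map_zero, smul_zero, add_zero]
    · intro x x' hx hx'
      rw [map_add, map_add, smul_add, map_add, map_add, smul_add, ← hx, ← hx']
      abel
    · intro c x hx
      have e1 : Finsupp.linearCombination (cl_A K X) r (c • τ y x) =
          c • Finsupp.linearCombination (cl_A K X) r (τ y x) :=
        ((Finsupp.linearCombination (cl_A K X) r).restrictScalars K).map_smul c (τ y x)
      rw [(τ y).map_smul c x, e1, smul_comm (cl_u K (FreeGroup.of y)) c x,
        σ.map_smul c (cl_u K (FreeGroup.of y) • x), σ.map_smul c x,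
        smul_comm (cl_u K (FreeGroup.of y)) c (σ x), ← hx, smul_add]
  · intro k
    by_cases h : (k, (1 : FreeGroup X)) ∈ B
    · simp only [a]
      rw [dif_neg (not_not.2 h), map_zero, zero_add, ← hcls1, hσb _ h, he1]
    · simp only [a]
      rw [dif_pos h, Finsupp.linearCombination_single, one_smul]
      simp only [r, Sum.elim_inr]
      rw [hcls1, sub_add_cancel, he1]
  · intro R h1 h2
    have hw : ∀ (w : List (X × Bool)) (k : Fin d) (g : FreeGroup X), g.toWord = w → (k, g) ∈ B →
        ((0 : J →₀ cl_A K X), cl_cls L (k, g)) ∈ R := by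
      intro w
      induction w with
      | nil =>
        intro k g hg hb
        rw [FreeGroup.toWord_eq_nil_iff] at hg
        subst hg
        have := h1 k
        simp only [a] at this
        rw [dif_neg (not_not.2 hb)] at this
        rwa [hcls1]
      | cons z w ih =>
        intro k g hg hb
        obtain ⟨g', hg'⟩ := cl_tail g z w hg
        have hgg : g = FreeGroup.mk [z] * g' := cl_word z g g' (by
          convert hg using 2)
        have hb' : (k, g') ∈ B := hSC k g g' z (by convert hg using 2) hb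
        have ih' := ih k g' hg' hb'
        rcases z with ⟨x, t⟩
        cases t with
        | true =>
          have hgg' : g = FreeGroup.of x * g' := hgg
          have h3 := (h2 x 0 (cl_cls L (k, g'))).1 ih'
          rw [hτb0 x (k, g') hb' (by rw [← hgg']; exact hb), smul_zero, add_zero,
            cl_of_smul_cls] at h3
          rw [hgg']; exact h3
        | false =>
          have hgg' : g = (FreeGroup.of x)⁻¹ * g' := hgg
          have hgg2 : FreeGroup.of x * g = g' := by rw [hgg', mul_inv_cancel_left]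
          refine (h2 x 0 (cl_cls L (k, g))).2 ?_
          rw [hτb0 x (k, g) hb (by rw [hgg2]; exact hb'), smul_zero, add_zero, cl_of_smul_cls, hgg2]
          exact ih'
    have hN : ∀ n, ((0 : J →₀ cl_A K X), n) ∈ R := by
      refine hind _ ?_ ?_ ?_ ?_
      · intro b hb; exact hw _ b.1 b.2 rfl hb
      · exact R.zero_mem
      · intro x y hx hy
        have := R.add_mem hx hy
        rwa [Prod.mk_add_mk, add_zero] at this
      · intro c x hx
        have := R.smul_mem c hx
        rwa [Prod.smul_mk, smul_zero] at this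
    refine ⟨hN, ?_⟩
    intro j
    rcases j with ⟨⟨y, b⟩, h⟩ | ⟨k, h⟩
    · have h3 := (h2 y 0 (cl_cls L b)).1 (hN _)
      rw [hτb1 y b b.2 h, smul_zero, zero_add] at h3
      have h4 := R.sub_mem h3 (hN (cl_u K (FreeGroup.of y) • cl_cls L b))
      rwa [Prod.mk_sub_mk, sub_zero, sub_self] at h4
    · have h3 := h1 k
      simp only [a] at h3
      rw [dif_pos h] at h3
      have h4 := R.sub_mem h3 (hN (L.mkQ (Pi.single k 1)))
      rwa [Prod.mk_sub_mk, sub_zero, sub_self] at h4

/-- Theorem of Cohn and Lewin: submodules of free modules of finite rank over the group algebra of a free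
group are free. -/
theorem cohn_lewin {K : Type} [Field K] {X : Type} {d : ℕ}
    (L : Submodule (MonoidAlgebra K (FreeGroup X)) (Fin d → MonoidAlgebra K (FreeGroup X))) :
    ∃ J : Type, Nonempty (Basis J (MonoidAlgebra K (FreeGroup X)) L) := by
  obtain ⟨J, r, h1, h2⟩ := cl_main L
  exact ⟨J, ⟨(Basis.span h1).map (LinearEquiv.ofEq _ _ h2)⟩⟩

/-- The same for groups with a free basis. -/
theorem cohn_lewin_of_basis {K : Type} [Field K] {G X : Type} [Group G] (b : FreeGroupBasis X G)
    {d : ℕ} (L : Submodule (MonoidAlgebra K G) (Fin d → MonoidAlgebra K G)) :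
    ∃ J : Type, Nonempty (Basis J (MonoidAlgebra K G) L) := by
  let φ : MonoidAlgebra K (FreeGroup X) ≃ₐ[K] MonoidAlgebra K G := MonoidAlgebra.domCongr K K b.repr.symm
  let q : (Fin d → MonoidAlgebra K (FreeGroup X)) →+ (Fin d → MonoidAlgebra K G) :=
    { toFun := fun p k => φ (p k)
      map_zero' := by ext1 k; exact map_zero φ
      map_add' := by intro p p'; ext1 k; exact map_add φ _ _ }
  have hq : ∀ p k, q p k = φ (p k) := fun p k => rfl
  have hqs : ∀ (c : MonoidAlgebra K (FreeGroup X)) p, q (c • p) = φ c • q p := by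
    intro c p
    ext1 k
    rw [hq, Pi.smul_apply, Pi.smul_apply, smul_eq_mul, map_mul]; rfl
  let L' : Submodule (cl_A K X) (Fin d → cl_A K X) :=
    { carrier := {p | q p ∈ L}
      zero_mem' := by
        show q 0 ∈ L
        rw [map_zero]; exact L.zero_mem
      add_mem' := by
        intro p p' h h'
        show q (p + p') ∈ L
        rw [map_add]; exact L.add_mem h h'
      smul_mem' := by
        intro c p h
        show q (c • p) ∈ L
        rw [hqs]
        exact L.smul_mem _ h }
  have hL' : ∀ p, p ∈ L' ↔ q p ∈ L := fun p => Iff.rfl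
  obtain ⟨J, r, h1, h2⟩ := cl_main L'
  have hli : LinearIndependent (MonoidAlgebra K G) (q ∘ r) := by
    refine h1.map_of_injective_injectiveₛ (i := φ.symm) q φ.symm.injective ?_ ?_
    · intro p p' h
      ext1 k
      exact φ.injective (congrFun h k)
    · intro c m
      rw [hqs, AlgEquiv.apply_symm_apply]
  have hsp : Submodule.span (MonoidAlgebra K G) (Set.range (q ∘ r)) = L := by
    refine le_antisymm ?_ ?_
    · rw [Submodule.span_le]
      rintro _ ⟨j, rfl⟩
      have : r j ∈ L' := by rw [← h2]; exact Submodule.subset_span ⟨j, rfl⟩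
      exact this
    · intro l hl
      have h3 : ∀ p ∈ Submodule.span (cl_A K X) (Set.range r),
          q p ∈ Submodule.span (MonoidAlgebra K G) (Set.range (q ∘ r)) := by
        intro p hp
        induction hp using Submodule.span_induction with
        | mem x hx => obtain ⟨j, rfl⟩ := hx; exact Submodule.subset_span ⟨j, rfl⟩
        | zero => rw [map_zero]; exact Submodule.zero_mem _
        | add x y _ _ hx hy => rw [map_add]; exact Submodule.add_mem _ hx hy
        | smul c x _ hx => rw [hqs]; exact Submodule.smul_mem _ _ hx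
      have h4 : q (fun k => φ.symm (l k)) = l := by
        ext1 k
        rw [hq, AlgEquiv.apply_symm_apply]
      rw [← h4]
      apply h3
      rw [h2, hL', h4]
      exact hl
  exact ⟨J, ⟨(Basis.span hli).map (LinearEquiv.ofEq _ _ hsp)⟩⟩

end Pool.Agent.Helper166_HN
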