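import Pool.Agent.Helper166_HN.RDefs
import Pool.Agent.Helper166_PQ.Hopf
import Pool.Agent.Y433.SC.Ord

set_option autoImplicit false
set_option linter.unusedSectionVars false

namespace Pool.Agent.Helper166_HN

open Module

/-- the group algebra of a free group has no zero divisors -/
theorem cex_noZeroDivisors (K : Type) [Field K] :
    NoZeroDivisors (MonoidAlgebra K (FreeGroup (Fin 3))) := by
  obtain ⟨o, ho1, ho2⟩ := Pool.Agent.Y433.SC.t_ord (Fin 3)
  let _ := o
  have : MulLeftStrictMono (FreeGroup (Fin 3)) := ⟨fun c a b h => ho1 a b c h⟩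
  have : MulRightStrictMono (FreeGroup (Fin 3)) := ⟨fun c a b h => ho2 a b c h⟩
  infer_instance

/-- a submodule generated by one vector without torsion has rank one -/
theorem cex_rank {K : Type} [Field K] {G : Type} [Group G] {d : ℕ}
    (v : Fin d → MonoidAlgebra K G)
    (h : ∀ a : MonoidAlgebra K G, (∀ k, v k * a = 0) → a = 0) :
    HasRank (Submodule.span (MonoidAlgebra K G)ᵐᵒᵖ {v} : RSub K G d) 1 := by
  have hinj : Function.Injective (LinearMap.toSpanSingleton (MonoidAlgebra K G)ᵐᵒᵖ _ v) := by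
    rw [← LinearMap.ker_eq_bot, LinearMap.ker_eq_bot']
    intro a ha
    have h1 : a.unop = 0 := h a.unop fun k => congrFun ha k
    rw [← MulOpposite.op_unop a, h1, MulOpposite.op_zero]
  have hrange : LinearMap.range (LinearMap.toSpanSingleton (MonoidAlgebra K G)ᵐᵒᵖ _ v) =
      Submodule.span (MonoidAlgebra K G)ᵐᵒᵖ {v} := LinearMap.range_toSpanSingleton v
  have e := (LinearEquiv.ofInjective _ hinj).trans (LinearEquiv.ofEq _ _ hrange)
  exact ⟨Basis.ofEquivFun (e.symm.trans
    (LinearEquiv.funUnique (Fin 1) (MonoidAlgebra K G)ᵐᵒᵖ (MonoidAlgebra K G)ᵐᵒᵖ).symm)⟩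

/-- the target of the Fox derivatives -/
abbrev CexT (K : Type) [Field K] : Type := TrivSqZeroExt K (Fin 2 → K)

/-- the units `1 + w` -/
noncomputable def cexU {K : Type} [Field K] (w : Fin 2 → K) : (CexT K)ˣ where
  val := 1 + TrivSqZeroExt.inr w
  inv := 1 - TrivSqZeroExt.inr w
  val_inv := by
    have : (TrivSqZeroExt.inr w : CexT K) * TrivSqZeroExt.inr w = 0 :=
      TrivSqZeroExt.inr_mul_inr K w w
    rw [add_mul, mul_sub, mul_sub, this]
    simp
  inv_val := by
    have : (TrivSqZeroExt.inr w : CexT K) * TrivSqZeroExt.inr w = 0 :=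
      TrivSqZeroExt.inr_mul_inr K w w
    rw [sub_mul, mul_add, mul_add, this]
    simp

/-- the weights of the generators -/
def cexW {K : Type} [Field K] (j : Fin 3) : Fin 2 → K :=
  fun i => if (i : ℕ) = (j : ℕ) then 1 else 0

/-- the augmentation together with the Fox derivatives -/
noncomputable def cexPhi (K : Type) [Field K] :
    MonoidAlgebra K (FreeGroup (Fin 3)) →ₐ[K] CexT K :=
  MonoidAlgebra.lift K (CexT K) (FreeGroup (Fin 3))
    ((Units.coeHom (CexT K)).comp (FreeGroup.lift fun j => cexU (cexW j)))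

/-- the element `1 - x_j` -/
noncomputable def cexV {K : Type} [Field K] (i : Fin 2) : MonoidAlgebra K (FreeGroup (Fin 3)) :=
  1 - MonoidAlgebra.single (FreeGroup.of (Fin.castLE (by omega) i)) 1

theorem cex_phi_v {K : Type} [Field K] (i : Fin 2) :
    cexPhi K (cexV i) = - TrivSqZeroExt.inr (Pi.single i (1 : K)) := by
  have hw : (cexW (Fin.castLE (by omega) i) : Fin 2 → K) = Pi.single i 1 := by
    funext j
    unfold cexW
    by_cases h : j = i
    · subst h; simp
    · rw [Pi.single_eq_of_ne h, if_neg]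
      intro h'
      exact h (Fin.ext (by simpa using h'))
  unfold cexV cexPhi
  rw [map_sub, map_one, MonoidAlgebra.lift_single, one_smul]
  simp only [MonoidHom.comp_apply, FreeGroup.lift_apply_of, Units.coeHom_apply]
  rw [← hw]
  show (1 : CexT K) - (1 + TrivSqZeroExt.inr (cexW _)) = _
  abel

/-- the augmentation -/
noncomputable def cexEps (K : Type) [Field K] :
    MonoidAlgebra K (FreeGroup (Fin 3)) →ₐ[K] K :=
  (TrivSqZeroExt.fstHom K K (Fin 2 → K)).comp (cexPhi K)

theorem cex_eps_v {K : Type} [Field K] (i : Fin 2) : cexEps K (cexV i) = 0 := by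
  unfold cexEps
  rw [AlgHom.comp_apply, cex_phi_v]
  simp

theorem cex_matrix {K : Type} [Field K] {I : Type} [Fintype I] [DecidableEq I]
    (A : Matrix (Fin 2) I (MonoidAlgebra K (FreeGroup (Fin 3))))
    (B : Matrix I (Fin 2) (MonoidAlgebra K (FreeGroup (Fin 3)))) (hBA : B * A = 1)
    (hv : ∀ i, ∑ k, A i k * (∑ j, B k j * cexV j) = cexV i) : A * B = 1 := by
  classical
  -- at most two
  have h1 : Fintype.card I ≤ 2 := by
    have h2 : (cexEps K).toRingHom.mapMatrix
        (1 : Matrix I I (MonoidAlgebra K (FreeGroup (Fin 3)))) = 1 := map_one _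
    rw [← hBA] at h2
    have h3 : B.map (cexEps K) * A.map (cexEps K) = 1 := by
      rw [← h2]
      ext i j
      simp [Matrix.mul_apply]
    calc Fintype.card I = (1 : Matrix I I K).rank := Matrix.rank_one.symm
      _ = (B.map (cexEps K) * A.map (cexEps K)).rank := by rw [h3]
      _ ≤ (B.map (cexEps K)).rank := Matrix.rank_mul_le_left _ _
      _ ≤ Fintype.card (Fin 2) := Matrix.rank_le_card_width _
      _ = 2 := by simp
  -- at least two
  set c : I → MonoidAlgebra K (FreeGroup (Fin 3)) := fun k => ∑ j, B k j * cexV j with hc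
  have hc0 : ∀ k, (cexPhi K (c k)).fst = 0 := by
    intro k
    have : cexEps K (c k) = 0 := by
      rw [hc]
      simp only [map_sum, map_mul, cex_eps_v, mul_zero, Finset.sum_const_zero]
    exact this
  have hs : A.map (cexEps K) * (Matrix.of fun k j => -(cexPhi K (c k)).snd j) = 1 := by
    ext i j
    have h4 : cexPhi K (cexV i) = ∑ k, cexPhi K (A i k) * cexPhi K (c k) := by
      rw [← hv i, map_sum]
      exact Finset.sum_congr rfl fun k _ => map_mul _ _ _
    have h5 : (cexPhi K (cexV i)).snd j = ∑ k, (cexPhi K (A i k)).fst * (cexPhi K (c k)).snd j := by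
      rw [h4, TrivSqZeroExt.snd_sum, Finset.sum_apply]
      refine Finset.sum_congr rfl fun k _ => ?_
      rw [TrivSqZeroExt.snd_mul, hc0 k]
      simp
    rw [cex_phi_v] at h5
    simp only [TrivSqZeroExt.snd_neg, TrivSqZeroExt.snd_inr, Pi.neg_apply] at h5
    rw [Matrix.mul_apply]
    have h6 : ∑ k, (A.map (cexEps K)) i k * (Matrix.of fun k j => -(cexPhi K (c k)).snd j) k j =
        -∑ k, (cexPhi K (A i k)).fst * (cexPhi K (c k)).snd j := by
      rw [← Finset.sum_neg_distrib]
      refine Finset.sum_congr rfl fun k _ => ?_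
      show cexEps K (A i k) * -(cexPhi K (c k)).snd j = _
      rw [mul_neg]
      rfl
    rw [h6, ← h5, neg_neg, Pi.single_apply, Matrix.one_apply]
    by_cases h : i = j
    · subst h; simp
    · rw [if_neg h, if_neg (fun h' => h h'.symm)]
  have h7 : 2 ≤ Fintype.card I := by
    calc 2 = Fintype.card (Fin 2) := by simp
      _ = (1 : Matrix (Fin 2) (Fin 2) K).rank := Matrix.rank_one.symm
      _ = (A.map (cexEps K) * (Matrix.of fun k j => -(cexPhi K (c k)).snd j)).rank := by rw [hs]
      _ ≤ (A.map (cexEps K)).rank := Matrix.rank_mul_le_left _ _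
      _ ≤ Fintype.card I := Matrix.rank_le_card_width _
  have h8 : Fintype.card (Fin 2) = Fintype.card I := by simp; omega
  let e : Fin 2 ≃ I := Fintype.equivOfCardEq h8
  have := Pool.Agent.Helper166_PQ.aux45_free (K := K) (X := Fin 3)
  have h9 : (B.submatrix e id) * (A.submatrix id e) = 1 := by
    have h10 := Matrix.submatrix_mul B A e (id : Fin 2 → Fin 2) e Function.bijective_id
    rw [← h10, hBA, Matrix.submatrix_one_equiv]
  have h11 : (A.submatrix id e) * (B.submatrix e id) = 1 := mul_eq_one_symm h9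
  rw [Matrix.submatrix_mul_equiv] at h11
  simpa using h11

section

variable {K : Type} [Field K]

/-- vectors in terms of the standard basis -/
theorem cex_vec {G : Type} [Group G] {d : ℕ} (x : Fin d → MonoidAlgebra K G) :
    x = ∑ j, MulOpposite.op (x j) • (Pi.single j (1 : MonoidAlgebra K G) :
      Fin d → MonoidAlgebra K G) := by
  funext i
  rw [Finset.sum_apply, Finset.sum_eq_single i]
  · simp
  · intro j _ hj
    simp [Pi.single_eq_of_ne (Ne.symm hj)]
  · intro h; exact absurd (Finset.mem_univ _) h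

theorem cex_algebraic : Algebraic (Submodule.span (MonoidAlgebra K (FreeGroup (Fin 3)))ᵐᵒᵖ
    {(cexV : Fin 2 → MonoidAlgebra K (FreeGroup (Fin 3)))} : RSub K (FreeGroup (Fin 3)) 2) := by
  classical
  intro P Q hPQ hfree hM
  set pr := P.projectionOnto Q hPQ with hpr
  have hfin0 : Module.Finite (MonoidAlgebra K (FreeGroup (Fin 3)))ᵐᵒᵖ
      (MonoidAlgebra K (FreeGroup (Fin 3))) := by
    refine Module.Finite.of_surjective (LinearMap.toSpanSingleton
      (MonoidAlgebra K (FreeGroup (Fin 3)))ᵐᵒᵖ (MonoidAlgebra K (FreeGroup (Fin 3))) 1) ?_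
    intro a
    exact ⟨MulOpposite.op a, one_mul a⟩
  have hfin : Module.Finite (MonoidAlgebra K (FreeGroup (Fin 3)))ᵐᵒᵖ P :=
    Module.Finite.of_surjective pr (Submodule.projectionOnto_surjective hPQ)
  let b := Module.Free.chooseBasis (MonoidAlgebra K (FreeGroup (Fin 3)))ᵐᵒᵖ P
  let A : Matrix (Fin 2) (Module.Free.ChooseBasisIndex (MonoidAlgebra K (FreeGroup (Fin 3)))ᵐᵒᵖ P)
    (MonoidAlgebra K (FreeGroup (Fin 3))) := fun i k => (b k : Fin 2 → _) i
  let B : Matrix (Module.Free.ChooseBasisIndex (MonoidAlgebra K (FreeGroup (Fin 3)))ᵐᵒᵖ P) (Fin 2)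
    (MonoidAlgebra K (FreeGroup (Fin 3))) := fun k j => (b.repr (pr (Pi.single j 1)) k).unop
  have hco : ∀ (x : Fin 2 → MonoidAlgebra K (FreeGroup (Fin 3))) k,
      (b.repr (pr x) k).unop = ∑ j, B k j * x j := by
    intro x k
    conv_lhs => rw [cex_vec x]
    simp only [map_sum, map_smul, Finsupp.coe_finsetSum, Finset.sum_apply, Finsupp.smul_apply,
      smul_eq_mul]
    rw [Finset.unop_sum]
    rfl
  have hex : ∀ (y : P) i, (y : Fin 2 → _) i = ∑ k, A i k * (b.repr y k).unop := by
    intro y i
    have h1 := congrArg (fun z : P => (z : Fin 2 → MonoidAlgebra K (FreeGroup (Fin 3))) i)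
      (b.sum_repr y)
    simp only [Submodule.coe_sum, Submodule.coe_smul, Finset.sum_apply, Pi.smul_apply] at h1
    rw [← h1]
    rfl
  have hprP : ∀ y : P, pr (y : Fin 2 → _) = y := fun y => Submodule.projectionOnto_apply_left hPQ y
  have hBA : B * A = 1 := by
    ext1 k l
    rw [Matrix.mul_apply]
    have h1 := hco (b l : Fin 2 → _) k
    rw [hprP, b.repr_self] at h1
    show ∑ j, B k j * (b l : Fin 2 → _) j = _
    rw [← h1, Matrix.one_apply, Finsupp.single_apply]
    by_cases h : k = l
    · subst h; simp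
    · rw [if_neg h, if_neg (fun h' => h h'.symm), MulOpposite.unop_zero]
  have hvP : (cexV : Fin 2 → MonoidAlgebra K (FreeGroup (Fin 3))) ∈ P :=
    hM (Submodule.subset_span rfl)
  have hv : ∀ i, ∑ k, A i k * (∑ j, B k j * cexV j) = (cexV i : MonoidAlgebra K _) := by
    intro i
    have h1 := hex ⟨cexV, hvP⟩ i
    rw [← hprP ⟨cexV, hvP⟩] at h1
    simp only [hco] at h1
    exact (h1.symm.trans (congrFun (congrArg Subtype.val (hprP ⟨cexV, hvP⟩)) i))
  have hAB := cex_matrix A B hBA hv
  rw [eq_top_iff]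
  intro x _
  have hx : x = (pr x : Fin 2 → _) := by
    funext i
    rw [hex (pr x) i]
    simp only [hco]
    have h1 : ∑ j, (A * B) i j * x j = x i := by
      rw [hAB, Finset.sum_eq_single i]
      · simp
      · intro j _ hj
        rw [Matrix.one_apply_ne (Ne.symm hj), zero_mul]
      · intro h; exact absurd (Finset.mem_univ _) h
    rw [← h1]
    simp only [Matrix.mul_apply, Finset.mul_sum, Finset.sum_mul]
    rw [Finset.sum_comm]
    refine Finset.sum_congr rfl fun k _ => Finset.sum_congr rfl fun j _ => ?_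
    rw [mul_assoc]
  rw [hx]
  exact (pr x).2

end

theorem cex_v_ne {K : Type} [Field K] (i : Fin 2) :
    (cexV i : MonoidAlgebra K (FreeGroup (Fin 3))) ≠ 0 := by
  intro h
  have h1 := cex_phi_v (K := K) i
  rw [h, map_zero] at h1
  have h2 := congrFun (congrArg TrivSqZeroExt.snd h1) i
  simp at h2

/-- An algebraic submodule of rank one of `K[F]^2`, `F` free of rank three, for which the inequality
fails for `H = F`. -/
theorem cex (K : Type) [Field K] :
    ∃ M : RSub K (FreeGroup (Fin 3)) 2, Algebraic M ∧ HasRank M 1 ∧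
      HasRank (interR M (⊤ : Subgroup (FreeGroup (Fin 3)))) 1 := by
  have hnz := cex_noZeroDivisors K
  refine ⟨Submodule.span (MonoidAlgebra K (FreeGroup (Fin 3)))ᵐᵒᵖ
    {(cexV : Fin 2 → MonoidAlgebra K (FreeGroup (Fin 3)))}, cex_algebraic, ?_, ?_⟩
  · apply cex_rank
    intro a ha
    exact (mul_eq_zero.mp (ha 0)).resolve_left (cex_v_ne 0)
  · set f := MonoidAlgebra.mapDomainRingHom K (⊤ : Subgroup (FreeGroup (Fin 3))).subtype with hf
    have hfinj : Function.Injective f := MonoidAlgebra.mapDomain_injective Subtype.val_injective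
    have hfsurj : Function.Surjective f := by
      intro a
      induction a using MonoidAlgebra.induction_linear with
      | zero => exact ⟨0, map_zero f⟩
      | add a b ha hb =>
        obtain ⟨a', rfl⟩ := ha
        obtain ⟨b', rfl⟩ := hb
        exact ⟨a' + b', map_add f _ _⟩
      | single g r =>
        refine ⟨MonoidAlgebra.single ⟨g, Subgroup.mem_top g⟩ r, ?_⟩
        simp [hf]
    set v' : Fin 2 → MonoidAlgebra K (⊤ : Subgroup (FreeGroup (Fin 3))) := fun i =>
      1 - MonoidAlgebra.single ⟨FreeGroup.of (Fin.castLE (by omega) i), Subgroup.mem_top _⟩ 1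
      with hv'
    have hfv : ∀ i, f (v' i) = cexV i := by
      intro i
      rw [hv', map_sub, map_one]
      simp [hf, cexV]
    have hspan : interR (Submodule.span (MonoidAlgebra K (FreeGroup (Fin 3)))ᵐᵒᵖ
        {(cexV : Fin 2 → MonoidAlgebra K (FreeGroup (Fin 3)))})
        (⊤ : Subgroup (FreeGroup (Fin 3))) = Submodule.span _ {v'} := by
      apply le_antisymm
      · intro w hw
        have hw' : (fun k => f (w k)) ∈ Submodule.span (MonoidAlgebra K (FreeGroup (Fin 3)))ᵐᵒᵖ
          {(cexV : Fin 2 → MonoidAlgebra K (FreeGroup (Fin 3)))} := hw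
        obtain ⟨a, ha⟩ := Submodule.mem_span_singleton.mp hw'
        obtain ⟨a', ha'⟩ := hfsurj a.unop
        refine Submodule.mem_span_singleton.mpr ⟨MulOpposite.op a', ?_⟩
        funext k
        apply hfinj
        show f (v' k * a') = f (w k)
        rw [map_mul, hfv, ha']
        exact congrFun ha k
      · rw [Submodule.span_singleton_le_iff_mem]
        show (fun k => f (v' k)) ∈ Submodule.span (MonoidAlgebra K (FreeGroup (Fin 3)))ᵐᵒᵖ
          {(cexV : Fin 2 → MonoidAlgebra K (FreeGroup (Fin 3)))}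
        have : (fun k => f (v' k)) = (cexV : Fin 2 → MonoidAlgebra K (FreeGroup (Fin 3))) :=
          funext hfv
        rw [this]
        exact Submodule.mem_span_singleton_self _
    rw [hspan]
    apply cex_rank
    intro a ha
    apply hfinj
    rw [map_zero]
    have h1 : cexV 0 * f a = 0 := by
      rw [← hfv 0, ← map_mul, ha 0, map_zero]
    exact (mul_eq_zero.mp h1).resolve_left (cex_v_ne 0)

end Pool.Agent.Helper166_HN
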