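import Pool.Agent.Helper166_HN.Final

/-!
# An algebraic submodule of rank two of `K[F]^2` for which the inequality fails
-/

set_option autoImplicit false
set_option linter.unusedSectionVars false

namespace Pool.Agent.Helper166_HN

open Module

section group

/-- the free group of rank two -/
abbrev F2 : Type := FreeGroup (Fin 2)
/-- the free group of rank three -/
abbrev F3 : Type := FreeGroup (Fin 3)

/-- the embedding with image of index two -/
def c2phi : F3 →* F2 :=
  FreeGroup.lift ![FreeGroup.of 0 * FreeGroup.of 0, FreeGroup.of 1,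
    FreeGroup.of 0 * FreeGroup.of 1 * (FreeGroup.of 0)⁻¹]

/-- the permutation of `x` -/
def c2X : Equiv.Perm (F3 × Bool) where
  toFun p := if p.2 then (FreeGroup.of 0 * p.1, false) else (p.1, true)
  invFun p := if p.2 then (p.1, false) else ((FreeGroup.of 0)⁻¹ * p.1, true)
  left_inv p := by
    obtain ⟨w, s⟩ := p
    cases s <;> simp
  right_inv p := by
    obtain ⟨w, s⟩ := p
    cases s <;> simp

/-- the permutation of `y` -/
def c2Y : Equiv.Perm (F3 × Bool) where
  toFun p := if p.2 then ((FreeGroup.of 0)⁻¹ * FreeGroup.of 2 * FreeGroup.of 0 * p.1, true)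
    else (FreeGroup.of 1 * p.1, false)
  invFun p := if p.2 then ((FreeGroup.of 0)⁻¹ * (FreeGroup.of 2)⁻¹ * FreeGroup.of 0 * p.1, true)
    else ((FreeGroup.of 1)⁻¹ * p.1, false)
  left_inv p := by
    obtain ⟨w, s⟩ := p
    cases s
    · simp
    · simp [mul_assoc]
  right_inv p := by
    obtain ⟨w, s⟩ := p
    cases s
    · simp
    · simp [mul_assoc]

/-- the action -/
def c2act : F2 →* Equiv.Perm (F3 × Bool) := FreeGroup.lift ![c2X, c2Y]

theorem c2act_phi (g : F3) : ∀ w : F3, c2act (c2phi g) (w, false) = (g * w, false) := by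
  induction g using FreeGroup.induction_on with
  | C1 => intro w; simp
  | of i =>
    intro w
    fin_cases i
    · simp [c2act, c2phi, c2X]
    · simp [c2act, c2phi, c2Y]
    · have h1 : (c2X⁻¹ : Equiv.Perm (F3 × Bool)) (w, false) = ((FreeGroup.of 0)⁻¹ * w, true) := rfl
      clear h1
      simp only [c2act, c2phi, FreeGroup.lift_apply_of]
      simp [c2X, c2Y, mul_assoc]
  | inv_of i ih =>
    intro w
    rw [map_inv, map_inv]
    apply (c2act (c2phi (FreeGroup.of i))).injective
    rw [ih, ← Equiv.Perm.mul_apply, mul_inv_cancel, Equiv.Perm.one_apply, mul_inv_cancel_left]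
  | mul g h hg hh =>
    intro w
    rw [map_mul, map_mul, Equiv.Perm.mul_apply, hh, hg, mul_assoc]

theorem c2phi_injective : Function.Injective c2phi := by
  rw [injective_iff_map_eq_one]
  intro g hg
  have h := c2act_phi g 1
  rw [hg, map_one, Equiv.Perm.one_apply, mul_one] at h
  exact (Prod.mk.inj h).1.symm

end group

theorem noZeroDiv (K : Type) [Field K] (X : Type) : NoZeroDivisors (MonoidAlgebra K (FreeGroup X)) := by
  obtain ⟨o, ho1, ho2⟩ := exists_order X
  let _ := o
  have : MulLeftStrictMono (FreeGroup X) := ⟨fun c a b h => ho1 a b c h⟩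
  have : MulRightStrictMono (FreeGroup X) := ⟨fun c a b h => ho2 a b c h⟩
  infer_instance

section gen

variable {K : Type} [Field K] {G : Type} [Group G]

/-- multiplication by a vector -/
noncomputable def c2mu (v : Fin 2 → MonoidAlgebra K G) :
    (Fin 1 → MonoidAlgebra K G) →ₗ[MonoidAlgebra K G] (Fin 2 → MonoidAlgebra K G) :=
  (LinearMap.toSpanSingleton (MonoidAlgebra K G) (Fin 2 → MonoidAlgebra K G) v) ∘ₗ
    (LinearMap.proj 0)

theorem c2mu_apply (v : Fin 2 → MonoidAlgebra K G) (a : Fin 1 → MonoidAlgebra K G) :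
    c2mu v a = a 0 • v := rfl

theorem c2mu_injective [NoZeroDivisors (MonoidAlgebra K G)] {v : Fin 2 → MonoidAlgebra K G}
    (hv : v 0 ≠ 0) : Function.Injective (c2mu v) := by
  rw [injective_iff_map_eq_zero]
  intro a ha
  have h1 := congrFun ha 0
  rw [c2mu_apply, Pi.smul_apply, smul_eq_mul, Pi.zero_apply, mul_eq_zero] at h1
  funext k
  rw [Subsingleton.elim k 0]
  exact h1.resolve_right hv

/-- the left module -/
noncomputable def c2M (v : Fin 2 → MonoidAlgebra K G) :
    Submodule (MonoidAlgebra K G) (Fin 2 → MonoidAlgebra K G) := (augM K G).map (c2mu v)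

theorem c2M_basis [NoZeroDivisors (MonoidAlgebra K G)] {v : Fin 2 → MonoidAlgebra K G}
    (hv : v 0 ≠ 0) {ι : Type} (b : FreeGroupBasis ι G) :
    Nonempty (Basis ι (MonoidAlgebra K G) (c2M v)) := by
  obtain ⟨c⟩ := augM_basis (K := K) b
  exact ⟨c.map (Submodule.equivMapOfInjective (c2mu v) (c2mu_injective hv) (augM K G))⟩

theorem single_sub_ne {g : G} (hg : g ≠ 1) : (1 : MonoidAlgebra K G) - MonoidAlgebra.single g 1 ≠ 0 := by
  intro h
  rw [sub_eq_zero, MonoidAlgebra.one_def] at h
  have h2 := congrArg MonoidAlgebra.coeff h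
  rw [MonoidAlgebra.coeff_single, MonoidAlgebra.coeff_single] at h2
  exact hg (Finsupp.single_left_injective one_ne_zero h2).symm

theorem c2_inter [NoZeroDivisors (MonoidAlgebra K G)]
    (H : Subgroup G) (v : Fin 2 → MonoidAlgebra K H) (hv : v 0 ≠ 0)
    [NoZeroDivisors (MonoidAlgebra K H)] :
    inter (c2M (incl K H 2 v)) H = c2M v := by
  classical
  have hmu : ∀ a : Fin 1 → MonoidAlgebra K H,
      c2mu (incl K H 2 v) (incl K H 1 a) = incl K H 2 (c2mu v a) := by
    intro a
    rw [c2mu_apply, c2mu_apply, ker_incl_smul]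
    rfl
  have hincl : Function.Injective (incl K H 2) := by
    intro w w' h
    funext k
    have h1 := congrFun h k
    exact MonoidAlgebra.mapDomain_injective H.subtype_injective h1
  ext w
  rw [mem_inter]
  constructor
  · rintro ⟨a, ha, haw⟩
    -- `a 0 * ι (v 0) = ι (w 0)`
    have h0 : a 0 * MonoidAlgebra.mapDomainRingHom K H.subtype (v 0) =
        MonoidAlgebra.mapDomainRingHom K H.subtype (w 0) := congrFun haw 0
    have hdown : ∀ g, g ∉ H → ker_down H g (a 0) = 0 := by
      intro g hg
      have h1 := congrArg (ker_down H g) h0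
      rw [ker_down_mul] at h1
      have h2 : ker_down H g (MonoidAlgebra.mapDomainRingHom K H.subtype (w 0)) = 0 := by
        apply MonoidAlgebra.ext
        apply Finsupp.ext
        intro h
        rw [ker_down_coeff]
        have h3 := ker_incl_coeff_notMem H w 0 (g * (h : G)) (fun hmem => hg (by
          have := H.mul_mem hmem (H.inv_mem h.2)
          rwa [mul_inv_cancel_right] at this))
        exact h3
      rw [h2, mul_eq_zero] at h1
      exact h1.resolve_right hv
    have ha' : a = incl K H 1 (fun k => ker_down H 1 (a k)) := by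
      apply ker_ext
      intro k g
      rw [Subsingleton.elim k 0]
      by_cases hg : g ∈ H
      · have h1 := ker_incl_coeff_mem H (fun k => ker_down H 1 (a k)) 0 ⟨g, hg⟩
        rw [h1, ker_down_coeff, one_mul]
      · rw [ker_incl_coeff_notMem H _ 0 g hg]
        have h1 := congrArg (fun z : MonoidAlgebra K H => z.coeff 1) (hdown g hg)
        simp only [ker_down_coeff, Subgroup.coe_one, mul_one] at h1
        exact h1
    refine ⟨fun k => ker_down H 1 (a k), ?_, ?_⟩
    · rw [← inter_augM H]
      change incl K H 1 _ ∈ augM K G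
      rw [← ha']
      exact ha
    · apply hincl
      rw [← hmu, ← ha']
      exact haw
  · rintro ⟨a, ha, haw⟩
    refine ⟨incl K H 1 a, ?_, ?_⟩
    · have : a ∈ inter (augM K G) H := by rw [inter_augM]; exact ha
      exact this
    · rw [hmu, haw]

theorem star_star' {d : ℕ} (M : Submodule (MonoidAlgebra K G) (Fin d → MonoidAlgebra K G)) :
    rgt_star (rgt_star' M) = M := by
  ext v
  rw [rgt_mem_star, rgt_mem_star', rgt_SW_SW]

end gen

/-- free direct summands of `K[F]^d` -/
theorem summand_matrix {K : Type} [Field K] {X : Type} {d : ℕ} {P Q : RSub K (FreeGroup X) d}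
    (hPQ : IsCompl P Q) (hfree : Module.Free (MonoidAlgebra K (FreeGroup X))ᵐᵒᵖ P) :
    ∃ (s : ℕ) (A : Matrix (Fin d) (Fin s) (MonoidAlgebra K (FreeGroup X)))
      (B : Matrix (Fin s) (Fin d) (MonoidAlgebra K (FreeGroup X))), s ≤ d ∧
      (∀ x ∈ P, ∀ i, x i = ∑ k, A i k * (∑ j, B k j * x j)) ∧ (s = d → P = ⊤) := by
  classical
  set pr := P.projectionOnto Q hPQ with hpr
  have hfin0 : Module.Finite (MonoidAlgebra K (FreeGroup X))ᵐᵒᵖ
      (MonoidAlgebra K (FreeGroup X)) := by
    refine Module.Finite.of_surjective (LinearMap.toSpanSingleton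
      (MonoidAlgebra K (FreeGroup X))ᵐᵒᵖ (MonoidAlgebra K (FreeGroup X)) 1) ?_
    intro a
    exact ⟨MulOpposite.op a, one_mul a⟩
  have hfin : Module.Finite (MonoidAlgebra K (FreeGroup X))ᵐᵒᵖ P :=
    Module.Finite.of_surjective pr (Submodule.projectionOnto_surjective hPQ)
  let b₀ := Module.Free.chooseBasis (MonoidAlgebra K (FreeGroup X))ᵐᵒᵖ P
  let I := Module.Free.ChooseBasisIndex (MonoidAlgebra K (FreeGroup X))ᵐᵒᵖ P
  set s := Fintype.card I with hs
  let b : Basis (Fin s) (MonoidAlgebra K (FreeGroup X))ᵐᵒᵖ P := b₀.reindex (Fintype.equivFin I)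
  let A : Matrix (Fin d) (Fin s) (MonoidAlgebra K (FreeGroup X)) :=
    fun i k => (b k : Fin d → _) i
  let B : Matrix (Fin s) (Fin d) (MonoidAlgebra K (FreeGroup X)) :=
    fun k j => (b.repr (pr (Pi.single j 1)) k).unop
  have hco : ∀ (x : Fin d → MonoidAlgebra K (FreeGroup X)) k,
      (b.repr (pr x) k).unop = ∑ j, B k j * x j := by
    intro x k
    conv_lhs => rw [cex_vec x]
    simp only [map_sum, map_smul, Finsupp.coe_finsetSum, Finset.sum_apply, Finsupp.smul_apply,
      smul_eq_mul]
    rw [Finset.unop_sum]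
    rfl
  have hex : ∀ (y : P) i, (y : Fin d → _) i = ∑ k, A i k * (b.repr y k).unop := by
    intro y i
    have h1 := congrArg (fun z : P => (z : Fin d → MonoidAlgebra K (FreeGroup X)) i)
      (b.sum_repr y)
    simp only [Submodule.coe_sum, Submodule.coe_smul, Finset.sum_apply, Pi.smul_apply] at h1
    rw [← h1]
    rfl
  have hprP : ∀ y : P, pr (y : Fin d → _) = y := fun y => Submodule.projectionOnto_apply_left hPQ y
  have hBA : B * A = 1 := by
    ext1 k l
    rw [Matrix.mul_apply]
    have h1 := hco (b l : Fin d → _) k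
    rw [hprP, b.repr_self] at h1
    show ∑ j, B k j * (b l : Fin d → _) j = _
    rw [← h1, Matrix.one_apply, Finsupp.single_apply]
    by_cases h : k = l
    · subst h; simp
    · rw [if_neg h, if_neg (fun h' => h h'.symm), MulOpposite.unop_zero]
  -- `s ≤ d`
  have hsd : s ≤ d := by
    set ε : MonoidAlgebra K (FreeGroup X) →+* K :=
      (MonoidAlgebra.lift K K (FreeGroup X) 1 : MonoidAlgebra K (FreeGroup X) →ₐ[K] K).toRingHom
      with hε
    have h1 : B.map ε * A.map ε = 1 := by
      rw [← Matrix.map_mul, hBA]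
      exact Matrix.map_one ε (map_zero ε) (map_one ε)
    have h2 := Matrix.rank_mul_le_left (B.map ε) (A.map ε)
    rw [h1, Matrix.rank_one, Fintype.card_fin] at h2
    have h3 := Matrix.rank_le_card_width (B.map ε)
    rw [Fintype.card_fin] at h3
    omega
  refine ⟨s, A, B, hsd, ?_, ?_⟩
  · intro x hx i
    have h1 := hex ⟨x, hx⟩ i
    rw [← hprP ⟨x, hx⟩] at h1
    simp only [hco] at h1
    exact (congrFun (congrArg Subtype.val (hprP ⟨x, hx⟩)) i).symm.trans h1
  intro hds
  have hst := Pool.Agent.Helper166_PQ.aux45_free (K := K) (X := X)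
  have hAB : A * B = 1 := fin_comm hds A B hBA
  rw [eq_top_iff]
  intro x _
  have hx : x = (pr x : Fin d → _) := by
    funext i
    rw [hex (pr x) i]
    simp only [hco]
    have h1 : ∑ j, (A * B) i j * x j = x i := by
      rw [hAB, Finset.sum_eq_single i]
      · simp
      · intro j _ hj
        rw [Matrix.one_apply_ne (Ne.symm hj), zero_mul]
      · intro h; exact absurd (Finset.mem_univ _) h
    rw [← h1]
    simp only [Matrix.mul_apply, Finset.mul_sum, Finset.sum_mul]
    rw [Finset.sum_comm]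
    refine Finset.sum_congr rfl fun k _ => Finset.sum_congr rfl fun j _ => ?_
    rw [mul_assoc]
  rw [hx]
  exact (pr x).2

/-- left independence of `1 - y` and `1 - x²` -/
theorem c2_indep {K : Type} [Field K] (a b : MonoidAlgebra K F2)
    (h : a * (1 - MonoidAlgebra.single (FreeGroup.of 1) 1) +
      b * (1 - MonoidAlgebra.single (FreeGroup.of 0 * FreeGroup.of 0) 1) = 0) : a = 0 ∧ b = 0 := by
  classical
  have hnz := noZeroDiv K (Fin 2)
  let B := FreeGroupBasis.ofFreeGroup (Fin 2)
  have hB : ∀ i, B i = FreeGroup.of i := fun i => rfl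
  have e1 : b * (1 - MonoidAlgebra.single (FreeGroup.of 0 * FreeGroup.of 0) (1 : K)) =
      -((b * (MonoidAlgebra.single (FreeGroup.of 0) 1 + 1)) *
        (MonoidAlgebra.single (B 0) (1 : K) - 1)) := by
    have : MonoidAlgebra.single (FreeGroup.of 0 * FreeGroup.of 0 : F2) (1 : K) =
        MonoidAlgebra.single (FreeGroup.of 0) 1 * MonoidAlgebra.single (FreeGroup.of 0) 1 := by
      rw [MonoidAlgebra.single_mul_single, one_mul]
    rw [this, hB]
    noncomm_ring
  have e2 : a * (1 - MonoidAlgebra.single (FreeGroup.of 1 : F2) (1 : K)) =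
      -(a * (MonoidAlgebra.single (B 1) (1 : K) - 1)) := by
    rw [hB]
    noncomm_ring
  rw [e1, e2, ← neg_add, neg_eq_zero] at h
  have h1 := congrArg (aug_L B) h
  rw [map_add, aug_L_mul, aug_L_mul, map_zero] at h1
  have h2 := congrFun h1 1
  have h3 := congrFun h1 0
  simp only [Pi.add_apply, Pi.single_apply, Pi.zero_apply, if_true, one_ne_zero, zero_ne_one,
    if_false, add_zero, zero_add] at h2 h3
  rw [mul_eq_zero] at h3
  refine ⟨h2, h3.resolve_right ?_⟩
  intro h4
  have h5 := congrArg (fun z : MonoidAlgebra K F2 => z.coeff 1) h4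
  have hne : FreeGroup.of (0 : Fin 2) ≠ 1 := FreeGroup.of_ne_one 0
  simp only [MonoidAlgebra.coeff_add, MonoidAlgebra.one_def, MonoidAlgebra.coeff_single,
    Finsupp.add_apply, Finsupp.single_apply, MonoidAlgebra.coeff_zero, Finsupp.coe_zero,
    Pi.zero_apply, if_neg hne, if_true, zero_add] at h5
  exact one_ne_zero h5

/-- An algebraic submodule of rank two of `K[F]^2` for which the inequality fails. -/
theorem cex2 (K : Type) [Field K] :
    ∃ H : Subgroup F2, H ≠ ⊥ ∧ H.FG ∧ Nonempty (H ≃* F3) ∧
      ∃ M : RSub K F2 2, M.FG ∧ Algebraic M ∧ HasRank M 2 ∧ HasRank (interR M H) 3 := by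
  classical
  have hnz := noZeroDiv K (Fin 2)
  let e : F3 ≃* c2phi.range := MonoidHom.ofInjective c2phi_injective
  let bH : FreeGroupBasis (Fin 3) c2phi.range := FreeGroupBasis.ofRepr e.symm
  let h1 : c2phi.range := ⟨FreeGroup.of 1, ⟨FreeGroup.of 1, by simp [c2phi]⟩⟩
  let h2 : c2phi.range := ⟨FreeGroup.of 0 * FreeGroup.of 0, ⟨FreeGroup.of 0, by simp [c2phi]⟩⟩
  have hnzH : NoZeroDivisors (MonoidAlgebra K c2phi.range) := by
    refine Function.Injective.noZeroDivisors (MonoidAlgebra.mapDomainRingHom K c2phi.range.subtype)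
      (MonoidAlgebra.mapDomain_injective c2phi.range.subtype_injective) (map_zero _)
      (map_mul _)
  let v : Fin 2 → MonoidAlgebra K c2phi.range :=
    ![1 - MonoidAlgebra.single h1⁻¹ 1, 1 - MonoidAlgebra.single h2⁻¹ 1]
  let V : Fin 2 → MonoidAlgebra K F2 :=
    ![1 - MonoidAlgebra.single (FreeGroup.of 1)⁻¹ 1,
      1 - MonoidAlgebra.single (FreeGroup.of 0 * FreeGroup.of 0)⁻¹ 1]
  have hvV : incl K c2phi.range 2 v = V := by
    funext k
    change MonoidAlgebra.mapDomainRingHom K c2phi.range.subtype (v k) = V k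
    fin_cases k
    · change MonoidAlgebra.mapDomainRingHom K c2phi.range.subtype
        (1 - MonoidAlgebra.single h1⁻¹ 1) = _
      rw [map_sub, map_one, MonoidAlgebra.mapDomainRingHom_apply, MonoidAlgebra.mapDomain_single]
      rfl
    · change MonoidAlgebra.mapDomainRingHom K c2phi.range.subtype
        (1 - MonoidAlgebra.single h2⁻¹ 1) = _
      rw [map_sub, map_one, MonoidAlgebra.mapDomainRingHom_apply, MonoidAlgebra.mapDomain_single]
      rfl
  have hone : (FreeGroup.of 1 : F2) ≠ 1 := FreeGroup.of_ne_one 1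
  have hh1 : h1⁻¹ ≠ 1 := by
    intro h
    have := congrArg (fun z : c2phi.range => (z : F2)) h
    simp only [Subgroup.coe_inv, Subgroup.coe_one, inv_eq_one] at this
    exact hone this
  have hv0 : v 0 ≠ 0 := single_sub_ne hh1
  have hV0 : V 0 ≠ 0 := single_sub_ne (fun h => hone (inv_eq_one.1 h))
  let M : RSub K F2 2 := rgt_star' (c2M V)
  have hM : rgt_star M = c2M V := star_star' _
  obtain ⟨b⟩ := c2M_basis hV0 (FreeGroupBasis.ofFreeGroup (Fin 2))
  have hrank : HasRank M 2 := by
    rw [← hM] at b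
    exact ⟨rgt_right M b⟩
  obtain ⟨b'⟩ := c2M_basis hv0 bH
  have hinter : rgt_star (interR M c2phi.range) = c2M v := by
    rw [← rgt_inter, hM, ← hvV, c2_inter _ v hv0]
  have hrank' : HasRank (interR M c2phi.range) 3 := by
    rw [← hinter] at b'
    exact ⟨rgt_right _ b'⟩
  refine ⟨c2phi.range, ?_, ?_, ⟨e.symm⟩, M, ?_, ?_, hrank, hrank'⟩
  · intro h
    have h4 : (FreeGroup.of 1 : F2) ∈ (⊥ : Subgroup F2) := by
      rw [← h]; exact h1.2
    rw [Subgroup.mem_bot] at h4
    exact hone h4
  · rw [← Group.fg_iff_subgroup_fg]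
    have : Group.FG F3 := by
      rw [Group.fg_iff]
      exact ⟨Set.range FreeGroup.of, FreeGroup.closure_range_of _, Set.finite_range _⟩
    exact Group.fg_of_surjective (f := e.toMonoidHom) e.surjective
  · obtain ⟨b⟩ := hrank
    have : Module.Finite (MonoidAlgebra K F2)ᵐᵒᵖ M := Module.Finite.of_basis b
    exact Module.Finite.iff_fg.1 this
  · intro P Q hPQ hfree hMP
    obtain ⟨s, A, B, hs, hAB, htop⟩ := summand_matrix hPQ hfree
    -- a member
    let W : Fin 2 → MonoidAlgebra K F2 := ![1 - MonoidAlgebra.single (FreeGroup.of 1) 1,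
      1 - MonoidAlgebra.single (FreeGroup.of 0 * FreeGroup.of 0) 1]
    let a₀ : MonoidAlgebra K F2 := 1 - MonoidAlgebra.single (FreeGroup.of 0) 1
    let t : MonoidAlgebra K F2 := 1 - MonoidAlgebra.single (FreeGroup.of 0)⁻¹ 1
    have ht : t ≠ 0 := single_sub_ne (fun h => FreeGroup.of_ne_one 0 (inv_eq_one.1 h))
    have hsw1 : rgt_sw (1 : MonoidAlgebra K F2) = 1 := by
      rw [MonoidAlgebra.one_def, rgt_sw_single, inv_one]
    have hswsub : ∀ g : F2, rgt_sw (1 - MonoidAlgebra.single g (1 : K)) =
        1 - MonoidAlgebra.single g⁻¹ 1 := by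
      intro g
      have h3 := rgt_sw_add (1 - MonoidAlgebra.single g (1 : K)) (MonoidAlgebra.single g 1)
      rw [sub_add_cancel, hsw1, rgt_sw_single] at h3
      exact (eq_sub_of_add_eq h3.symm)
    have hSWV : rgt_SW V = W := by
      funext k
      change rgt_sw (V k) = W k
      fin_cases k
      · change rgt_sw (1 - MonoidAlgebra.single (FreeGroup.of 1)⁻¹ 1) = _
        rw [hswsub, inv_inv]
        rfl
      · change rgt_sw (1 - MonoidAlgebra.single (FreeGroup.of 0 * FreeGroup.of 0)⁻¹ 1) = _
        rw [hswsub, inv_inv]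
        rfl
    have hmem : (fun i => W i * t) ∈ P := by
      apply hMP
      rw [rgt_mem_star']
      refine ⟨fun _ => a₀, ?_, ?_⟩
      · rw [SetLike.mem_coe, aug_mem]
        change MonoidAlgebra.lift K K F2 (1 : F2 →* K) (1 - MonoidAlgebra.single (FreeGroup.of 0) 1) = 0
        rw [map_sub, map_one, aug_single, sub_self]
      · rw [c2mu_apply]
        have h3 : (fun i => W i * t) = rgt_SW (a₀ • V) := by
          rw [rgt_SW_smul, hSWV]
          funext i
          change W i * t = W i * rgt_sw a₀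
          rw [hswsub]
        rw [h3, rgt_SW_SW]
    have hx := hAB _ hmem
    have hW0 : W 0 * t ≠ 0 := mul_ne_zero (single_sub_ne hone) ht
    have hcases : s = 0 ∨ s = 1 ∨ s = 2 := by omega
    rcases hcases with rfl | rfl | rfl
    · exfalso
      apply hW0
      rw [hx 0]
      simp
    · exfalso
      have key : ∀ i, W i = A i 0 * (B 0 0 * W 0 + B 0 1 * W 1) := by
        intro i
        have h3 := hx i
        simp only [Fin.sum_univ_two, Fin.isValue, Finset.univ_unique, Fin.default_eq_zero,
          Finset.sum_singleton] at h3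
        have h4 : (W i - A i 0 * (B 0 0 * W 0 + B 0 1 * W 1)) * t = 0 := by
          rw [sub_mul, sub_eq_zero, h3]
          noncomm_ring
        exact sub_eq_zero.1 ((mul_eq_zero.1 h4).resolve_right ht)
      have k0 := key 0
      have k1 := key 1
      have i0 := c2_indep (A 0 0 * B 0 0 - 1) (A 0 0 * B 0 1) (by
        change (A 0 0 * B 0 0 - 1) * W 0 + (A 0 0 * B 0 1) * W 1 = 0
        have : (A 0 0 * B 0 0 - 1) * W 0 + (A 0 0 * B 0 1) * W 1 =
          A 0 0 * (B 0 0 * W 0 + B 0 1 * W 1) - W 0 := by noncomm_ring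
        rw [this, ← k0, sub_self])
      have i1 := c2_indep (A 1 0 * B 0 0) (A 1 0 * B 0 1 - 1) (by
        change (A 1 0 * B 0 0) * W 0 + (A 1 0 * B 0 1 - 1) * W 1 = 0
        have : (A 1 0 * B 0 0) * W 0 + (A 1 0 * B 0 1 - 1) * W 1 =
          A 1 0 * (B 0 0 * W 0 + B 0 1 * W 1) - W 1 := by noncomm_ring
        rw [this, ← k1, sub_self])
      have hA : A 0 0 ≠ 0 := by
        intro h
        have := i0.1
        rw [h, zero_mul, zero_sub, neg_eq_zero] at this
        exact one_ne_zero this
      have hB : B 0 1 = 0 := (mul_eq_zero.1 i0.2).resolve_left hA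
      have := i1.2
      rw [hB, mul_zero, zero_sub, neg_eq_zero] at this
      exact one_ne_zero this
    · exact htop rfl

end Pool.Agent.Helper166_HN
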