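import Pool.Agent.Helper166_HN.Ld

/-!
# Coefficients of chains
-/

set_option autoImplicit false
set_option linter.unusedSectionVars false

namespace Pool.Agent.Helper166_HN

open Pool.Agent.Y125.MN Pool.Agent.Y125.MN.Ser Module
open scoped TensorProduct

variable {K : Type} [Field K] {α : Type}
variable [LinearOrder (FreeGroup α)] [MulLeftStrictMono (FreeGroup α)]
  [MulRightStrictMono (FreeGroup α)]
variable {M N : Type} [AddCommGroup M] [Module K M] [AddCommGroup N] [Module K N]

/-- coordinates of the coefficients -/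
theorem cha_repr {ι : Type*} (b : Basis ι K N) (g : FreeGroup α) (t : DD K α ⊗[K] N) (i : ι) :
    b.repr (cf g t) i = c ((Algebra.TensorProduct.basis (DD K α) b).repr t i) g := by
  induction t using TensorProduct.induction_on with
  | zero => simp
  | add t t' h h' => simp only [map_add, Finsupp.add_apply, h, h', c_add, Pi.add_apply]
  | tmul δ n =>
    rw [cf_tmul, map_smul, Finsupp.smul_apply, Algebra.TensorProduct.basis_repr_tmul,
      Finsupp.smul_apply, Finsupp.mapRange_apply, algebraMap_eq, smul_eq_mul, smul_eq_mul,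
      c_mul_mono]
    simp

/-- leading coefficients of products of series -/
theorem cha_lead {δ δ' : DD K α} {g₀ g₁ : FreeGroup α} (hδ : ∀ h < g₀, c δ h = 0)
    (hδ' : ∀ h < g₁, c δ' h = 0) :
    (∀ g < g₀ * g₁, c (δ * δ') g = 0) ∧ c (δ * δ') (g₀ * g₁) = c δ g₀ * c δ' g₁ := by
  constructor
  · intro z hz
    by_contra h
    obtain ⟨x, hx, hy⟩ := exists_of_conv_ne h
    have h1 : g₀ ≤ x := by
      by_contra hc
      exact hx (hδ x (not_le.1 hc))
    have h2 : g₁ ≤ x⁻¹ * z := by
      by_contra hc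
      exact hy (hδ' _ (not_le.1 hc))
    have h3 : g₀ * g₁ ≤ x * g₁ := by
      rcases eq_or_lt_of_le h1 with h | h
      · rw [h]
      · exact (mul_lt_mul_left h _).le
    have h4 : x * g₁ ≤ x * (x⁻¹ * z) := by
      rcases eq_or_lt_of_le h2 with h | h
      · rw [← h]
      · exact (mul_lt_mul_right h _).le
    have h5 := h3.trans h4
    rw [mul_inv_cancel_left] at h5
    exact absurd hz (not_lt.2 h5)
  · rw [c_mul]
    unfold conv
    rw [finsum_eq_single _ g₀]
    · congr 2; group
    · intro x hx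
      by_cases h : x < g₀
      · rw [hδ x h, zero_mul]
      · have hlt : g₀ < x := lt_of_le_of_ne (not_lt.1 h) (Ne.symm hx)
        rw [hδ', mul_zero]
        have h1 : x⁻¹ < g₀⁻¹ := inv_lt_inv_iff.2 hlt
        have h2 := mul_lt_mul_left h1 (g₀ * g₁)
        simpa using h2

/-- an element of `DD ⊗ N` is determined by its coefficients -/
theorem cf_ext {t t' : DD K α ⊗[K] N} (h : ∀ g, cf g t = cf g t') : t = t' := by
  apply (Algebra.TensorProduct.basis (DD K α) (Basis.ofVectorSpace K N)).repr.injective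
  ext i
  apply ext
  funext g
  rw [← cha_repr, ← cha_repr, h]

/-- the support of an element of `DD ⊗ N` is partially well-ordered -/
theorem cf_pwo (t : DD K α ⊗[K] N) : {g | cf g t ≠ 0}.IsPWO := by
  induction t using TensorProduct.induction_on with
  | zero =>
    refine (Set.finite_empty (α := FreeGroup α)).isPWO.mono ?_
    intro g hg
    exact absurd (map_zero (cf g)) hg
  | add t t' h h' =>
    refine (h.union h').mono ?_
    intro g hg
    by_contra hcon
    rw [Set.mem_union, not_or] at hcon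
    have h1 : cf g t = 0 := not_not.1 hcon.1
    have h2 : cf g t' = 0 := not_not.1 hcon.2
    exact hg (by rw [map_add, h1, h2, add_zero])
  | tmul δ n =>
    refine (pwo δ).mono ?_
    intro g hg h0
    exact hg (by rw [cf_tmul, h0, zero_smul])

/-- the coefficients of an element of `DD ⊗ N` lie in a finite-dimensional space -/
theorem cf_fd (t : DD K α ⊗[K] N) : ∃ V : Submodule K N, FiniteDimensional K V ∧ ∀ g, cf g t ∈ V := by
  induction t using TensorProduct.induction_on with
  | zero => exact ⟨⊥, inferInstance, fun g => by simp⟩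
  | add t t' h h' =>
    obtain ⟨V, hV, hV'⟩ := h
    obtain ⟨W, hW, hW'⟩ := h'
    refine ⟨V ⊔ W, inferInstance, fun g => ?_⟩
    rw [map_add]
    exact Submodule.add_mem_sup (hV' g) (hW' g)
  | tmul δ n =>
    refine ⟨Submodule.span K {n}, inferInstance, fun g => ?_⟩
    rw [cf_tmul]
    exact Submodule.smul_mem _ _ (Submodule.mem_span_singleton_self n)

/-- functions with partially well-ordered support and values in a finite-dimensional space come from
elements of `DD ⊗ N` -/
theorem exists_cf (f : FreeGroup α → N) (h1 : {g | f g ≠ 0}.IsPWO)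
    (h2 : ∃ V : Submodule K N, FiniteDimensional K V ∧ ∀ g, f g ∈ V) :
    ∃ t : DD K α ⊗[K] N, ∀ g, cf g t = f g := by
  obtain ⟨V, hV, hf⟩ := h2
  let v := Module.finBasis K V
  have hp : ∀ a, (Function.support fun g => v.repr ⟨f g, hf g⟩ a).IsPWO := by
    intro a
    refine h1.mono ?_
    intro g hg h0
    apply hg
    have : (⟨f g, hf g⟩ : V) = 0 := Subtype.ext h0
    simp [this]
  refine ⟨∑ a, (mk (fun g => v.repr ⟨f g, hf g⟩ a) (hp a) : DD K α) ⊗ₜ[K] (v a : N), fun g => ?_⟩
  rw [map_sum]
  have h3 := congrArg (Subtype.val : V → N) (v.sum_repr ⟨f g, hf g⟩)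
  rw [Submodule.coe_sum] at h3
  simp only at h3
  rw [← h3]
  refine Finset.sum_congr rfl fun a _ => ?_
  rw [cf_tmul, c_mk]
  rfl

theorem cf_u_smul (h g : FreeGroup α) (t : DD K α ⊗[K] N) : cf g (u K h • t) = cf (h⁻¹ * g) t := by
  induction t using TensorProduct.induction_on with
  | zero => simp
  | add t t' h h' => simp only [smul_add, map_add, h, h']
  | tmul δ n =>
    rw [TensorProduct.smul_tmul', cf_tmul, cf_tmul, smul_eq_mul, c_u_mul]

/-- leading coefficients of products -/
theorem cf_smul_lead {δ : DD K α} {t : DD K α ⊗[K] N} {g₀ g₁ : FreeGroup α} (hδ : ∀ h < g₀, c δ h = 0)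
    (ht : ∀ g < g₁, cf g t = 0) :
    (∀ g < g₀ * g₁, cf g (δ • t) = 0) ∧ cf (g₀ * g₁) (δ • t) = c δ g₀ • cf g₁ t := by
  have key : ∀ i, ∀ h < g₁,
      c ((Algebra.TensorProduct.basis (DD K α) (Basis.ofVectorSpace K N)).repr t i) h = 0 := by
    intro i h hh
    rw [← cha_repr, ht h hh]
    simp
  constructor
  · intro g hg
    apply (Basis.ofVectorSpace K N).repr.injective
    ext i
    rw [cha_repr, map_smul, Finsupp.smul_apply, smul_eq_mul, (cha_lead hδ (key i)).1 g hg]
    simp
  · apply (Basis.ofVectorSpace K N).repr.injective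
    ext i
    rw [cha_repr, map_smul, Finsupp.smul_apply, smul_eq_mul, (cha_lead hδ (key i)).2, map_smul,
      Finsupp.smul_apply, smul_eq_mul, cha_repr]

theorem cf_tw (h g : FreeGroup α) (f : N →ₗ[K] M) (t : DD K α ⊗[K] N) :
    cf g (tw h f t) = f (cf (g * h⁻¹) t) := by
  induction t using TensorProduct.induction_on with
  | zero => simp
  | add t t' h h' => simp only [map_add, h, h']
  | tmul δ n => rw [tw_tmul, cf_tmul, cf_tmul, c_mul_u, map_smul]

theorem cha_bd (ρ : Representation K (FreeGroup α) N) (z : α →₀ DD K α ⊗[K] N) {S : Finset α}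
    (hS : ∀ x ∉ S, z x = 0) (g : FreeGroup α) :
    cf g (bd ρ z) = ∑ x ∈ S,
      (ρ (FreeGroup.of x)⁻¹ (cf (g * (FreeGroup.of x)⁻¹) (z x)) - cf g (z x)) := by
  have hz : z.support ⊆ S := by
    intro x hx
    by_contra hc
    exact (Finsupp.mem_support_iff.1 hx) (hS x hc)
  have h1 : bd ρ z = ∑ x ∈ S,
      (tw (FreeGroup.of x) (ρ (FreeGroup.of x)⁻¹) (z x) - z x) := by
    have h2 : z = ∑ x ∈ S, Finsupp.single x (z x) := by
      conv_lhs => rw [← Finsupp.sum_single z]
      exact Finsupp.sum_of_support_subset z hz _ (fun i _ => Finsupp.single_zero i)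
    conv_lhs => rw [h2]
    rw [map_sum]
    exact Finset.sum_congr rfl fun x _ => bd_single ρ x (z x)
  rw [h1, map_sum]
  refine Finset.sum_congr rfl fun x _ => ?_
  rw [map_sub, cf_tw]

/-- cycles give admissible flows -/
theorem adm_of_mem {ρ : Representation K (FreeGroup α) N} {z : α →₀ DD K α ⊗[K] N}
    (hz : z ∈ Zc ρ) : Adm ρ (fun g x => ρ g (cf g (z x))) := by
  have hS : ∀ x ∉ z.support, z x = 0 := fun x hx => Finsupp.notMem_support_iff.1 hx
  have hz0 : bd ρ z = 0 := hz
  refine ⟨⟨z.support, fun g x hx => by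
    change ρ g (cf g (z x)) = 0
    rw [hS x hx, map_zero, map_zero], fun g => ?_⟩, ?_, ?_⟩
  · have h1 := cha_bd ρ z hS g
    rw [hz0, map_zero] at h1
    have h2 := congrArg (ρ g) h1
    rw [map_zero, map_sum] at h2
    rw [h2]
    refine Finset.sum_congr rfl fun x _ => ?_
    change ρ (g * (FreeGroup.of x)⁻¹) (cf (g * (FreeGroup.of x)⁻¹) (z x)) - ρ g (cf g (z x)) = _
    rw [map_sub, map_mul, Module.End.mul_apply]
  · have h1 : (⋃ x ∈ z.support, {g | cf g (z x) ≠ 0}).IsPWO := by
      rw [Finset.isPWO_bUnion]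
      exact fun x _ => cf_pwo (z x)
    refine h1.mono ?_
    rintro g ⟨x, hx⟩
    have hx0 : cf g (z x) ≠ 0 := fun h0 => hx (by rw [h0, map_zero])
    refine Set.mem_biUnion (x := x) ?_ hx0
    by_contra hc
    exact hx0 (by rw [hS x (by simpa using hc), map_zero])
  · choose V hV hV' using fun x => cf_fd (z x)
    have : ∀ x, FiniteDimensional K (V x) := hV
    refine ⟨z.support.sup V, Submodule.finiteDimensional_finset_sup _ _, fun g x => ?_⟩
    have h1 : ρ g⁻¹ (ρ g (cf g (z x))) = cf g (z x) := by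
      rw [← Module.End.mul_apply, ← map_mul, inv_mul_cancel, map_one, Module.End.one_apply]
    rw [h1]
    by_cases hx : x ∈ z.support
    · exact Finset.le_sup (f := V) hx (hV' x g)
    · rw [hS x hx, map_zero]
      exact Submodule.zero_mem _

/-- admissible flows come from cycles -/
theorem mem_of_adm {ρ : Representation K (FreeGroup α) N} {m : FreeGroup α → α → N}
    (h : Adm ρ m) : ∃ z ∈ Zc ρ, ∀ g x, ρ g (cf g (z x)) = m g x := by
  classical
  obtain ⟨S, hS, hS'⟩ := h.flow
  have hinv : ∀ (g : FreeGroup α) (n : N), ρ g (ρ g⁻¹ n) = n := by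
    intro g n
    rw [← Module.End.mul_apply, ← map_mul, mul_inv_cancel, map_one, Module.End.one_apply]
  have hex : ∀ x, ∃ t : DD K α ⊗[K] N, ∀ g, cf g t = ρ g⁻¹ (m g x) := by
    intro x
    refine exists_cf _ (h.pwo.mono ?_) ?_
    · intro g hg
      exact ⟨x, fun h0 => hg (by rw [h0, map_zero])⟩
    · obtain ⟨V, hV, hV'⟩ := h.fd
      exact ⟨V, hV, fun g => hV' g x⟩
  choose t ht using hex
  have ht0 : ∀ x ∉ S, t x = 0 := by
    intro x hx
    apply cf_ext
    intro g
    rw [ht, hS g x hx, map_zero, map_zero]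
  let z : α →₀ DD K α ⊗[K] N := Finsupp.onFinset S t (fun x hx => by
    by_contra hc
    exact hx (ht0 x hc))
  have hz : ∀ x, z x = t x := fun x => rfl
  refine ⟨z, ?_, fun g x => by rw [hz, ht, hinv]⟩
  change bd ρ z = 0
  apply cf_ext
  intro g
  rw [cha_bd ρ z (fun x hx => by rw [hz, ht0 x hx]) g, map_zero]
  have h1 : ∀ x ∈ S, (ρ (FreeGroup.of x)⁻¹ (cf (g * (FreeGroup.of x)⁻¹) (z x)) - cf g (z x)) =
      ρ g⁻¹ (m (g * (FreeGroup.of x)⁻¹) x - m g x) := by
    intro x _
    rw [hz, ht, ht, map_sub, ← Module.End.mul_apply, ← map_mul]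
    congr 3
    group
  rw [Finset.sum_congr rfl h1, ← map_sum, hS' g, map_zero]

end Pool.Agent.Helper166_HN
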