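import Pool.Agent.Helper166_HN.Defs

/-!
# Modules over the group algebra as representations; leading values
-/

set_option autoImplicit false
set_option linter.unusedSectionVars false

namespace Pool.Agent.Helper166_HN

open Pool.Agent.Y125.MN Pool.Agent.Y125.MN.Ser Module
open scoped TensorProduct

section rp

variable {K : Type} [Field K] {G : Type} [Group G]
variable (X : Type) [AddCommGroup X] [Module K X] [Module (MonoidAlgebra K G) X]
  [IsScalarTower K (MonoidAlgebra K G) X]

/-- the representation given by a module over the group algebra -/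
noncomputable def rp : Representation K G X where
  toFun g :=
    { toFun := fun v => (MonoidAlgebra.single g (1 : K)) • v
      map_add' := fun v w => smul_add _ v w
      map_smul' := fun r v => by
        rw [RingHom.id_apply, ← smul_assoc r, ← algebraMap_smul (MonoidAlgebra K G) r v, ← mul_smul]
        congr 1
        rw [← Algebra.commutes, Algebra.smul_def] }
  map_one' := by
    ext v
    change (MonoidAlgebra.single (1 : G) (1 : K)) • v = v
    rw [← MonoidAlgebra.one_def, one_smul]
  map_mul' g h := by
    ext v
    change (MonoidAlgebra.single (g * h) (1 : K)) • v =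
      (MonoidAlgebra.single g (1 : K)) • ((MonoidAlgebra.single h (1 : K)) • v)
    rw [← mul_smul, MonoidAlgebra.single_mul_single, one_mul]

theorem rp_apply (g : G) (v : X) : rp (K := K) X g v = (MonoidAlgebra.single g (1 : K)) • v := rfl

end rp

section coset

variable {K : Type} [Field K] {G : Type} [Group G]

/-- the inclusion of `K[H]^d` in `K[G]^d` -/
noncomputable def incl (K : Type) [Field K] {G : Type} [Group G] (H : Subgroup G) (d : ℕ) :
    (Fin d → MonoidAlgebra K H) →+ (Fin d → MonoidAlgebra K G) where
  toFun v := fun k => MonoidAlgebra.mapDomainRingHom K H.subtype (v k)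
  map_zero' := funext fun k => map_zero _
  map_add' v w := funext fun k => map_add _ _ _

/-- the intersection of a (left) submodule of `K[G]^d` with `K[H]^d` -/
noncomputable def inter {d : ℕ} (M : Submodule (MonoidAlgebra K G) (Fin d → MonoidAlgebra K G))
    (H : Subgroup G) : Submodule (MonoidAlgebra K H) (Fin d → MonoidAlgebra K H) where
  carrier := {v | incl K H d v ∈ M}
  zero_mem' := by
    change incl K H d 0 ∈ M
    rw [map_zero]; exact M.zero_mem
  add_mem' {v w} hv hw := by
    change incl K H d (v + w) ∈ M
    rw [map_add]; exact M.add_mem hv hw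
  smul_mem' a v hv := by
    change incl K H d (a • v) ∈ M
    have : incl K H d (a • v) = (MonoidAlgebra.mapDomainRingHom K H.subtype a) • incl K H d v :=
      funext fun k => map_mul (MonoidAlgebra.mapDomainRingHom K H.subtype) a (v k)
    rw [this]
    exact M.smul_mem _ hv

theorem mem_inter {d : ℕ} {M : Submodule (MonoidAlgebra K G) (Fin d → MonoidAlgebra K G)}
    {H : Subgroup G} {v : Fin d → MonoidAlgebra K H} : v ∈ inter M H ↔ incl K H d v ∈ M := Iff.rfl

open Classical in
/-- the part of an element of `K[G]^d` on a left coset -/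
noncomputable def part (K : Type) [Field K] {G : Type} [Group G] (H : Subgroup G) {d : ℕ}
    (s : G ⧸ H) (a : Fin d → MonoidAlgebra K G) : Fin d → MonoidAlgebra K G :=
  fun k => MonoidAlgebra.ofCoeff ((a k).coeff.filter (fun g => (QuotientGroup.mk g : G ⧸ H) = s))

/-- `a ↦ ∑ₛ (part of a on s) ⊗ s` as a map from `K[G]^d` to `N ⊗ K[G/H]`, for a linear map `f` from
`K[G]^d` to `N` -/
noncomputable def diag {N : Type} [AddCommGroup N] [Module K N] (H : Subgroup G) {d : ℕ}
    (f : (Fin d → MonoidAlgebra K G) →ₗ[K] N) :
    (Fin d → MonoidAlgebra K G) →ₗ[K] N ⊗[K] (G ⧸ H →₀ K) :=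
  LinearMap.lsum K (fun _ : Fin d => MonoidAlgebra K G) ℕ (fun k =>
    (Finsupp.lsum ℕ (fun g : G => LinearMap.toSpanSingleton K (N ⊗[K] (G ⧸ H →₀ K))
      (f (Pi.single k (MonoidAlgebra.single g 1)) ⊗ₜ Finsupp.single (QuotientGroup.mk g) 1))) ∘ₗ
      (MonoidAlgebra.coeffLinearEquiv K).toLinearMap)

/-- the permutation representation on the left cosets -/
noncomputable def cosRep (K : Type) [Field K] {G : Type} [Group G] (H : Subgroup G) :
    Representation K G (G ⧸ H →₀ K) where
  toFun g := Finsupp.lmapDomain K K (fun s : G ⧸ H => g • s)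
  map_one' := by
    apply Finsupp.lhom_ext
    intro s r
    rw [Finsupp.lmapDomain_apply, Finsupp.mapDomain_single, one_smul]
    rfl
  map_mul' g h := by
    apply Finsupp.lhom_ext
    intro s r
    rw [Module.End.mul_apply, Finsupp.lmapDomain_apply, Finsupp.lmapDomain_apply,
      Finsupp.lmapDomain_apply, Finsupp.mapDomain_single, Finsupp.mapDomain_single,
      Finsupp.mapDomain_single, mul_smul]

theorem cosRep_single (H : Subgroup G) (g : G) (s : G ⧸ H) (r : K) :
    cosRep K H g (Finsupp.single s r) = Finsupp.single (g • s) r := by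
  change Finsupp.lmapDomain K K (fun s : G ⧸ H => g • s) (Finsupp.single s r) = _
  rw [Finsupp.lmapDomain_apply, Finsupp.mapDomain_single]

end coset

end Pool.Agent.Helper166_HN
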