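import Pool.Agent.Helper166_HN.Snake
import Pool.Agent.Helper166_HN.Rep

/-!
# Dimension counts for quotients of free modules
-/

set_option autoImplicit false
set_option linter.unusedSectionVars false

namespace Pool.Agent.Helper166_HN

open Pool.Agent.Y125.MN Pool.Agent.Y125.MN.Ser Module
open scoped TensorProduct

variable {K : Type} [Field K] {α : Type}

section freeB

variable {X : Type} [AddCommGroup X] [Module K X] [Module (MonoidAlgebra K (FreeGroup α)) X]
  [IsScalarTower K (MonoidAlgebra K (FreeGroup α)) X] {J : Type}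

/-- the basis over the field given by a basis over the group algebra -/
noncomputable def freeB (b : Basis J (MonoidAlgebra K (FreeGroup α)) X) :
    Basis (J × FreeGroup α) K X :=
  ((MonoidAlgebra.basis (FreeGroup α) K).smulTower b).reindex (Equiv.prodComm _ _)

theorem freeB_apply (b : Basis J (MonoidAlgebra K (FreeGroup α)) X) (j : J) (h : FreeGroup α) :
    freeB b (j, h) = MonoidAlgebra.single h (1 : K) • b j := by
  unfold freeB
  rw [Basis.reindex_apply, Equiv.prodComm_symm, Equiv.prodComm_apply, Basis.smulTower_apply]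
  rfl

theorem isFree_freeB (b : Basis J (MonoidAlgebra K (FreeGroup α)) X) : IsFree (rp X) (freeB b) := by
  intro g j h
  rw [rp_apply, freeB_apply, freeB_apply, ← mul_smul, MonoidAlgebra.single_mul_single, one_mul]

end freeB

variable [LinearOrder (FreeGroup α)] [MulLeftStrictMono (FreeGroup α)]
  [MulRightStrictMono (FreeGroup α)]
variable {d : ℕ}

/-- the standard basis -/
noncomputable def stdB (K : Type) [Field K] (α : Type) (d : ℕ) :
    Basis (Fin d) (MonoidAlgebra K (FreeGroup α)) (Fin d → MonoidAlgebra K (FreeGroup α)) :=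
  Pi.basisFun _ _

theorem nuB_stdB (p : Fin d → MonoidAlgebra K (FreeGroup α)) (k : Fin d) :
    nuB (freeB (stdB K α d)) p k = emb (p k) := by
  classical
  have key : ∀ (k' : Fin d) (h : FreeGroup α),
      nuB (freeB (stdB K α d)) (freeB (stdB K α d) (k', h)) k = emb (freeB (stdB K α d) (k', h) k) := by
    intro k' h
    rw [nuB_basis, freeB_apply, stdB, Pi.basisFun_apply, Finsupp.single_apply]
    by_cases hk : k' = k
    · subst hk
      rw [if_pos rfl, Pi.smul_apply, Pi.single_eq_same, smul_eq_mul, mul_one, emb_single]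
      rfl
    · rw [if_neg hk, Pi.smul_apply, Pi.single_eq_of_ne (Ne.symm hk), smul_zero, map_zero]
  refine basis_ind (freeB (stdB K α d)) (C := fun p => nuB (freeB (stdB K α d)) p k = emb (p k))
    (by simp) (fun i => key i.1 i.2) ?_ ?_ p
  · intro x y hx hy
    rw [map_add, Finsupp.add_apply, hx, hy, Pi.add_apply, map_add]
  · intro r x hx
    rw [map_smul, Finsupp.smul_apply, hx, Pi.smul_apply, map_smul]

theorem nuB_stdB_injective :
    Function.Injective (nuB (freeB (stdB K α d)) : (Fin d → MonoidAlgebra K (FreeGroup α)) → _) := by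
  intro p q h
  funext k
  apply emb_injective
  rw [← nuB_stdB, ← nuB_stdB, h]

section

variable {J : Type} (M : Submodule (MonoidAlgebra K (FreeGroup α)) (Fin d → MonoidAlgebra K (FreeGroup α)))
  (b : Basis J (MonoidAlgebra K (FreeGroup α)) M)

/-- the inclusion of a submodule, over the field -/
noncomputable def inc : M →ₗ[K] (Fin d → MonoidAlgebra K (FreeGroup α)) :=
  M.subtype.restrictScalars K

theorem inc_apply (m : M) : inc M m = (m : Fin d → MonoidAlgebra K (FreeGroup α)) := rfl

/-- the matrix of a basis over the series -/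
noncomputable def matB : (J →₀ DD K α) →ₗ[DD K α] (Fin d →₀ DD K α) :=
  mat (inc M) (freeB b) (freeB (stdB K α d))

theorem matB_single (j : J) (δ : DD K α) :
    matB M b (Finsupp.single j δ) = δ • nuB (freeB (stdB K α d)) (b j : Fin d → _) := by
  unfold matB
  rw [mat_single, freeB_apply, inc_apply]
  congr 2
  change (((MonoidAlgebra.single 1 (1 : K) : MonoidAlgebra K (FreeGroup α)) • b j : M) :
    Fin d → MonoidAlgebra K (FreeGroup α)) = _
  rw [← MonoidAlgebra.one_def, one_smul]

variable {N : Type} [AddCommGroup N] [Module K N] {ρ : Representation K (FreeGroup α) N}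
  {π : (Fin d → MonoidAlgebra K (FreeGroup α)) →ₗ[K] N}

theorem snake_ker' (hπ : ∀ g p, π (MonoidAlgebra.single g (1 : K) • p) = ρ g (π p))
    (hker : ∀ p, π p = 0 ↔ p ∈ M) :
    ∃ Φ : LinearMap.ker (matB M b) →ₗ[DD K α] Zc ρ, Function.Injective Φ := by
  refine snake_ker (ρM := rp M) (ρP := rp _) (π := π) (isFree_freeB b) (isFree_freeB _) ?_ ?_ ?_ ?_
  · intro g m
    rfl
  · intro g p
    exact hπ g p
  · exact Subtype.val_injective
  · intro p
    rw [hker]
    exact ⟨fun h => ⟨⟨p, h⟩, rfl⟩, fun ⟨m, hm⟩ => hm ▸ m.2⟩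

theorem snake_coker' (hπ : ∀ g p, π (MonoidAlgebra.single g (1 : K) • p) = ρ g (π p))
    (hker : ∀ p, π p = 0 ↔ p ∈ M) (hsurj : Function.Surjective π) :
    ∃ Ψ : Zc ρ →ₗ[DD K α] LinearMap.ker (matB M b), Function.Injective Ψ := by
  refine snake_coker (ρM := rp M) (ρP := rp _) (π := π) (isFree_freeB b) (isFree_freeB _) ?_ ?_ ?_ ?_ hsurj
  · intro g m
    rfl
  · intro g p
    exact hπ g p
  · exact Subtype.val_injective
  · intro p
    rw [hker]
    exact ⟨fun h => ⟨⟨p, h⟩, rfl⟩, fun ⟨m, hm⟩ => hm ▸ m.2⟩

/-- upper bound for the dimension of the space of cycles -/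
theorem cnt_up [Finite J] (hs : Function.Surjective (matB M b))
    (hπ : ∀ g p, π (MonoidAlgebra.single g (1 : K) • p) = ρ g (π p))
    (hker : ∀ p, π p = 0 ↔ p ∈ M) (hsurj : Function.Surjective π) :
    Module.Finite (DD K α) (Zc ρ) ∧ finrank (DD K α) (Zc ρ) + d ≤ Nat.card J := by
  have := Fintype.ofFinite J
  obtain ⟨Ψ, hΨ⟩ := snake_coker' M b hπ hker hsurj
  refine ⟨Module.Finite.of_injective Ψ hΨ, ?_⟩
  have h1 := LinearMap.finrank_le_finrank_of_injective hΨ
  have h2 := (matB M b).finrank_range_add_finrank_ker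
  rw [LinearMap.range_eq_top.2 hs, finrank_top, Module.finrank_finsupp_self,
    Module.finrank_finsupp_self, Fintype.card_fin] at h2
  rw [Nat.card_eq_fintype_card]
  omega

include b in
/-- lower bound for the dimension of the space of cycles -/
theorem cnt_low (hπ : ∀ g p, π (MonoidAlgebra.single g (1 : K) • p) = ρ g (π p))
    (hker : ∀ p, π p = 0 ↔ p ∈ M) (J₀ : Finset J) :
    ∃ W : Submodule (DD K α) (α →₀ DD K α ⊗[K] N), W ≤ Zc ρ ∧ Module.Finite (DD K α) W ∧
      J₀.card ≤ finrank (DD K α) W + d := by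
  classical
  obtain ⟨Φ, hΦ⟩ := snake_ker' M b hπ hker
  -- the restriction of the matrix to the finite set
  let e : (J₀ →₀ DD K α) →ₗ[DD K α] (J →₀ DD K α) := Finsupp.lmapDomain _ _ (Subtype.val)
  have he : Function.Injective e := Finsupp.mapDomain_injective Subtype.val_injective
  let f : (J₀ →₀ DD K α) →ₗ[DD K α] (Fin d →₀ DD K α) := (matB M b).comp e
  have h2 := f.finrank_range_add_finrank_ker
  have h3 : finrank (DD K α) (LinearMap.range f) ≤ d := by
    have := Submodule.finrank_le (LinearMap.range f)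
    rwa [Module.finrank_finsupp_self, Fintype.card_fin] at this
  rw [Module.finrank_finsupp_self, Fintype.card_coe] at h2
  let g : LinearMap.ker f →ₗ[DD K α] LinearMap.ker (matB M b) :=
    (e.comp (LinearMap.ker f).subtype).codRestrict _ (fun v => v.2)
  have hg : Function.Injective g := by
    intro v w hvw
    have := congrArg Subtype.val hvw
    exact Subtype.ext (he this)
  let G : LinearMap.ker f →ₗ[DD K α] (α →₀ DD K α ⊗[K] N) := (Zc ρ).subtype.comp (Φ.comp g)
  have hG : Function.Injective G := Subtype.val_injective.comp (hΦ.comp hg)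
  refine ⟨LinearMap.range G, ?_, inferInstance, ?_⟩
  · rintro _ ⟨v, rfl⟩
    exact (Φ (g v)).2
  · rw [LinearMap.finrank_range_of_inj hG]
    omega

end

end Pool.Agent.Helper166_HN
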