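import Mathlib
import Pool.Agent.Y125.MN

/-!
# Chains on the Cayley tree with coefficients in a representation of a free group

`DD K α` is the division ring of Malcev-Neumann series over the ordered free group on `α`.
-/

set_option autoImplicit false
set_option linter.unusedSectionVars false

namespace Pool.Agent.Helper166_HN

open Pool.Agent.Y125.MN Pool.Agent.Y125.MN.Ser Module
open scoped TensorProduct

section alg

variable {G : Type} [Group G] [LinearOrder G] [MulLeftStrictMono G] [MulRightStrictMono G]
variable {K : Type} [Field K]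

noncomputable instance : Algebra K (Ser G K) where
  algebraMap :=
    { toFun := fun r => mono 1 r
      map_one' := rfl
      map_mul' := fun r s => by rw [mono_mul_mono, mul_one]
      map_zero' := ext (by funext x; rw [c_mono]; simp)
      map_add' := fun r s => ext (by
        funext x
        rw [c_add, Pi.add_apply, c_mono, c_mono, c_mono]
        by_cases h : x = 1 <;> simp [h]) }
  smul r f := mono 1 r * f
  commutes' := fun r f => ext (by
    funext x
    change c (mono 1 r * f) x = c (f * mono 1 r) x
    rw [c_mono_mul, c_mul_mono, mul_comm]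
    simp)
  smul_def' := fun _ _ => rfl

theorem algebraMap_eq (r : K) : algebraMap K (Ser G K) r = mono 1 r := rfl

theorem smul_eq (r : K) (f : Ser G K) : r • f = mono 1 r * f := rfl

theorem c_smul (r : K) (f : Ser G K) (x : G) : c (r • f) x = r * c f x := by
  rw [smul_eq, c_mono_mul]
  simp

/-- the group elements as series -/
noncomputable def u (K : Type) [Field K] (g : G) : Ser G K := mono g 1

theorem u_one : u K (1 : G) = 1 := rfl

theorem u_mul (g h : G) : u K (g * h) = u K g * u K h := by
  unfold u
  rw [mono_mul_mono, mul_one]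

theorem u_mul_inv (g : G) : u K g * u K g⁻¹ = 1 := by
  rw [← u_mul, mul_inv_cancel, u_one]

theorem u_inv_mul (g : G) : u K g⁻¹ * u K g = 1 := by
  rw [← u_mul, inv_mul_cancel, u_one]

theorem c_u_mul (g : G) (f : Ser G K) (x : G) : c (u K g * f) x = c f (g⁻¹ * x) := by
  unfold u
  rw [c_mono_mul, one_mul]

theorem c_mul_u (g : G) (f : Ser G K) (x : G) : c (f * u K g) x = c f (x * g⁻¹) := by
  unfold u
  rw [c_mul_mono, mul_one]

/-- the coefficient at `g` -/
noncomputable def coL (K : Type) [Field K] (g : G) : Ser G K →ₗ[K] K where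
  toFun f := c f g
  map_add' _ _ := rfl
  map_smul' r f := by
    rw [c_smul, RingHom.id_apply, smul_eq_mul]

theorem coL_apply (g : G) (f : Ser G K) : coL K g f = c f g := rfl

/-- the group algebra in the series -/
noncomputable def emb : MonoidAlgebra K G →ₐ[K] Ser G K :=
  MonoidAlgebra.lift K (Ser G K) G
    { toFun := fun g => u K g
      map_one' := u_one
      map_mul' := u_mul }

theorem emb_single (g : G) (r : K) : emb (MonoidAlgebra.single g r) = mono g r := by
  unfold emb
  rw [MonoidAlgebra.lift_single]
  change r • u K g = _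
  rw [smul_eq]
  unfold u
  rw [mono_mul_mono, one_mul, mul_one]

theorem c_emb (a : MonoidAlgebra K G) (g : G) : c (emb a) g = a.coeff g := by
  induction a using MonoidAlgebra.induction_linear with
  | zero => simp
  | add a b ha hb => simp [ha, hb]
  | single x r =>
    rw [emb_single, c_mono, MonoidAlgebra.coeff_single, Finsupp.single_apply]
    by_cases h : x = g
    · rw [if_pos h.symm, if_pos h]
    · rw [if_neg (fun h' => h h'.symm), if_neg h]

theorem emb_injective : Function.Injective (emb : MonoidAlgebra K G → Ser G K) := by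
  intro a b h
  apply MonoidAlgebra.coeff_injective
  ext g
  rw [← c_emb, ← c_emb, h]

end alg

section chains

variable (K : Type) [Field K] (α : Type)
variable [LinearOrder (FreeGroup α)] [MulLeftStrictMono (FreeGroup α)]
  [MulRightStrictMono (FreeGroup α)]

/-- the division ring of Malcev-Neumann series over the free group -/
abbrev DD : Type := Ser (FreeGroup α) K

variable {K α}
variable {M N P : Type} [AddCommGroup M] [Module K M] [AddCommGroup N] [Module K N]
  [AddCommGroup P] [Module K P]

/-- right multiplication by `a` -/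
noncomputable def mulR (a : DD K α) : DD K α →ₗ[DD K α] DD K α :=
  LinearMap.toSpanSingleton (DD K α) (DD K α) a

theorem mulR_apply (a δ : DD K α) : mulR a δ = δ * a := rfl

/-- `δ ⊗ n ↦ δ g ⊗ f n` -/
noncomputable def tw (g : FreeGroup α) (f : N →ₗ[K] M) :
    DD K α ⊗[K] N →ₗ[DD K α] DD K α ⊗[K] M :=
  TensorProduct.AlgebraTensorModule.map (mulR (u K g)) f

theorem tw_tmul (g : FreeGroup α) (f : N →ₗ[K] M) (δ : DD K α) (n : N) :
    tw g f (δ ⊗ₜ n) = (δ * u K g) ⊗ₜ f n := rfl

/-- `δ ⊗ n ↦ δ ⊗ f n` -/
noncomputable def bc (f : N →ₗ[K] M) : DD K α ⊗[K] N →ₗ[DD K α] DD K α ⊗[K] M :=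
  TensorProduct.AlgebraTensorModule.map LinearMap.id f

theorem bc_tmul (f : N →ₗ[K] M) (δ : DD K α) (n : N) :
    bc f (δ ⊗ₜ n) = δ ⊗ₜ f n := rfl

/-- the coefficient at `g` of an element of `DD ⊗ N` -/
noncomputable def cf (g : FreeGroup α) : DD K α ⊗[K] N →ₗ[K] N :=
  (TensorProduct.lid K N).toLinearMap ∘ₗ LinearMap.rTensor N (coL K g)

theorem cf_tmul (g : FreeGroup α) (δ : DD K α) (n : N) : cf g (δ ⊗ₜ[K] n) = c δ g • n := rfl

/-- the boundary map of the Cayley tree with coefficients in a representation -/
noncomputable def bd (ρ : Representation K (FreeGroup α) N) :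
    (α →₀ DD K α ⊗[K] N) →ₗ[DD K α] DD K α ⊗[K] N :=
  Finsupp.lsum ℕ (fun x => tw (FreeGroup.of x) (ρ (FreeGroup.of x)⁻¹) - LinearMap.id)

theorem bd_single (ρ : Representation K (FreeGroup α) N) (x : α) (t : DD K α ⊗[K] N) :
    bd ρ (Finsupp.single x t) = tw (FreeGroup.of x) (ρ (FreeGroup.of x)⁻¹) t - t := by
  unfold bd
  rw [Finsupp.lsum_single]
  rfl

/-- the cycles -/
noncomputable def Zc (ρ : Representation K (FreeGroup α) N) :
    Submodule (DD K α) (α →₀ DD K α ⊗[K] N) := LinearMap.ker (bd ρ)

/-- a flow: a function on the edges `(g, g x)` of the Cayley tree, concentrated on finitely many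
labels, whose boundary vanishes -/
def IsFlow (m : FreeGroup α → α → N) : Prop :=
  ∃ S : Finset α, (∀ g, ∀ x ∉ S, m g x = 0) ∧
    ∀ g, ∑ x ∈ S, (m (g * (FreeGroup.of x)⁻¹) x - m g x) = 0

/-- an admissible flow: the support is partially well-ordered and the values are in the translates of a
finite-dimensional space -/
structure Adm (ρ : Representation K (FreeGroup α) N) (m : FreeGroup α → α → N) : Prop where
  flow : IsFlow m
  pwo : {g | ∃ x, m g x ≠ 0}.IsPWO
  fd : ∃ V : Submodule K N, FiniteDimensional K V ∧ ∀ g x, ρ g⁻¹ (m g x) ∈ V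

/-- the edge `(g, x)` is smaller than the edge `(1, y)` -/
def Below [LinearOrder α] (y : α) (g : FreeGroup α) (x : α) : Prop := g < 1 ∨ (g = 1 ∧ x < y)

end chains

end Pool.Agent.Helper166_HN
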