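import Pool.Agent.Helper166_HN.RDefs

set_option autoImplicit false
set_option linter.unusedSectionVars false

namespace Pool.Agent.Helper166_HN

open Module

section rgt

variable {K : Type} [Field K] {G : Type} [Group G]

/-- the inversion as a homomorphism to the opposite algebra -/
noncomputable def rgt_op (K : Type) [Field K] (G : Type) [Group G] :
    MonoidAlgebra K G →ₐ[K] (MonoidAlgebra K G)ᵐᵒᵖ :=
  MonoidAlgebra.lift K (MonoidAlgebra K G)ᵐᵒᵖ G
    { toFun := fun g => MulOpposite.op (MonoidAlgebra.single g⁻¹ 1)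
      map_one' := by rw [inv_one]; rfl
      map_mul' := fun g h => by
        rw [← MulOpposite.op_mul, MonoidAlgebra.single_mul_single, mul_inv_rev, one_mul] }

/-- the inversion on the group algebra -/
noncomputable def rgt_sw (a : MonoidAlgebra K G) : MonoidAlgebra K G := (rgt_op K G a).unop

theorem rgt_sw_zero : rgt_sw (0 : MonoidAlgebra K G) = 0 := by
  unfold rgt_sw; rw [map_zero]; rfl

theorem rgt_sw_add (a b : MonoidAlgebra K G) : rgt_sw (a + b) = rgt_sw a + rgt_sw b := by
  unfold rgt_sw; rw [map_add]; rfl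

theorem rgt_sw_mul (a b : MonoidAlgebra K G) : rgt_sw (a * b) = rgt_sw b * rgt_sw a := by
  unfold rgt_sw; rw [map_mul]; rfl

theorem rgt_sw_single (g : G) (r : K) :
    rgt_sw (MonoidAlgebra.single g r) = MonoidAlgebra.single g⁻¹ r := by
  unfold rgt_sw rgt_op
  rw [MonoidAlgebra.lift_single]
  show r • MonoidAlgebra.single g⁻¹ (1 : K) = _
  simp

theorem rgt_sw_sw (a : MonoidAlgebra K G) : rgt_sw (rgt_sw a) = a := by
  induction a using MonoidAlgebra.induction_linear with
  | zero => rw [rgt_sw_zero, rgt_sw_zero]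
  | add a b ha hb => rw [rgt_sw_add, rgt_sw_add, ha, hb]
  | single g r => rw [rgt_sw_single, rgt_sw_single, inv_inv]

theorem rgt_sw_map (H : Subgroup G) (a : MonoidAlgebra K H) :
    MonoidAlgebra.mapDomainRingHom K H.subtype (rgt_sw a) =
      rgt_sw (MonoidAlgebra.mapDomainRingHom K H.subtype a) := by
  induction a using MonoidAlgebra.induction_linear with
  | zero => rw [rgt_sw_zero, map_zero, rgt_sw_zero]
  | add a b ha hb => rw [rgt_sw_add, map_add, map_add, rgt_sw_add, ha, hb]
  | single g r =>
    rw [rgt_sw_single]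
    simp only [MonoidAlgebra.mapDomainRingHom_apply, MonoidAlgebra.mapDomain_single]
    rw [rgt_sw_single]
    rfl

/-- the ring isomorphism -/
noncomputable def rgt_tau (K : Type) [Field K] (G : Type) [Group G] :
    (MonoidAlgebra K G)ᵐᵒᵖ ≃+* MonoidAlgebra K G where
  toFun a := rgt_sw a.unop
  invFun a := MulOpposite.op (rgt_sw a)
  left_inv a := by
    show MulOpposite.op (rgt_sw (rgt_sw a.unop)) = a
    rw [rgt_sw_sw]; rfl
  right_inv a := rgt_sw_sw a
  map_add' a b := rgt_sw_add _ _
  map_mul' a b := rgt_sw_mul _ _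

variable {d : ℕ}

/-- coordinatewise inversion -/
noncomputable def rgt_SW (v : Fin d → MonoidAlgebra K G) : Fin d → MonoidAlgebra K G :=
  fun k => rgt_sw (v k)

theorem rgt_SW_SW (v : Fin d → MonoidAlgebra K G) : rgt_SW (rgt_SW v) = v :=
  funext fun k => rgt_sw_sw (v k)

theorem rgt_SW_add (v w : Fin d → MonoidAlgebra K G) : rgt_SW (v + w) = rgt_SW v + rgt_SW w :=
  funext fun k => rgt_sw_add (v k) (w k)

theorem rgt_SW_zero : rgt_SW (0 : Fin d → MonoidAlgebra K G) = 0 :=
  funext fun _ => rgt_sw_zero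

theorem rgt_SW_smul (a : MonoidAlgebra K G) (v : Fin d → MonoidAlgebra K G) :
    rgt_SW (a • v) = MulOpposite.op (rgt_sw a) • rgt_SW v :=
  funext fun k => rgt_sw_mul a (v k)

theorem rgt_SW_smul' (a : (MonoidAlgebra K G)ᵐᵒᵖ) (v : Fin d → MonoidAlgebra K G) :
    rgt_SW (a • v) = rgt_sw a.unop • rgt_SW v :=
  funext fun k => rgt_sw_mul (v k) a.unop

/-- the left module of a right module -/
noncomputable def rgt_star (M : RSub K G d) :
    Submodule (MonoidAlgebra K G) (Fin d → MonoidAlgebra K G) where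
  carrier := {v | rgt_SW v ∈ M}
  zero_mem' := by
    show rgt_SW 0 ∈ M
    rw [rgt_SW_zero]; exact M.zero_mem
  add_mem' {v w} hv hw := by
    show rgt_SW (v + w) ∈ M
    rw [rgt_SW_add]; exact M.add_mem hv hw
  smul_mem' a v hv := by
    show rgt_SW (a • v) ∈ M
    rw [rgt_SW_smul]; exact M.smul_mem _ hv

/-- the right module of a left module -/
noncomputable def rgt_star' (M : Submodule (MonoidAlgebra K G) (Fin d → MonoidAlgebra K G)) :
    RSub K G d where
  carrier := {v | rgt_SW v ∈ M}
  zero_mem' := by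
    show rgt_SW 0 ∈ M
    rw [rgt_SW_zero]; exact M.zero_mem
  add_mem' {v w} hv hw := by
    show rgt_SW (v + w) ∈ M
    rw [rgt_SW_add]; exact M.add_mem hv hw
  smul_mem' a v hv := by
    show rgt_SW (a • v) ∈ M
    rw [rgt_SW_smul']; exact M.smul_mem _ hv

theorem rgt_mem_star (M : RSub K G d) (v : Fin d → MonoidAlgebra K G) :
    v ∈ rgt_star M ↔ rgt_SW v ∈ M := Iff.rfl

theorem rgt_mem_star' (M : Submodule (MonoidAlgebra K G) (Fin d → MonoidAlgebra K G))
    (v : Fin d → MonoidAlgebra K G) : v ∈ rgt_star' M ↔ rgt_SW v ∈ M := Iff.rfl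

/-- the additive equivalence -/
noncomputable def rgt_e (M : RSub K G d) : M ≃+ rgt_star M where
  toFun x := ⟨rgt_SW x, by rw [rgt_mem_star, rgt_SW_SW]; exact x.2⟩
  invFun x := ⟨rgt_SW x, x.2⟩
  left_inv x := Subtype.ext (rgt_SW_SW _)
  right_inv x := Subtype.ext (rgt_SW_SW _)
  map_add' x y := Subtype.ext (rgt_SW_add _ _)

/-- transport of a basis by a semilinear bijection -/
noncomputable def rgt_basis {R S M N ι : Type} [Ring R] [Ring S] [AddCommGroup M]
    [AddCommGroup N] [Module R M] [Module S N] (τ : R ≃+* S) (e : M ≃+ N)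
    (he : ∀ r m, e (r • m) = τ r • e m) (b : Basis ι R M) : Basis ι S N :=
  Basis.ofRepr
    { toFun := fun x => Finsupp.mapRange τ (map_zero τ) (b.repr (e.symm x))
      map_add' := fun x y => by
        rw [map_add, map_add]
        exact Finsupp.mapRange_add (map_add τ) _ _
      map_smul' := fun s x => by
        have h1 : e.symm (s • x) = τ.symm s • e.symm x := by
          apply e.injective
          rw [he, e.apply_symm_apply, e.apply_symm_apply, τ.apply_symm_apply]
        rw [h1, map_smul]
        ext i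
        simp
      invFun := fun f => e (b.repr.symm (Finsupp.mapRange τ.symm (map_zero τ.symm) f))
      left_inv := fun x => by
        apply e.symm.injective
        rw [e.symm_apply_apply]
        apply b.repr.injective
        rw [LinearEquiv.apply_symm_apply]
        ext i
        simp
      right_inv := fun f => by
        simp only [AddEquiv.symm_apply_apply, LinearEquiv.apply_symm_apply]
        ext i
        simp }

theorem rgt_e_smul (M : RSub K G d) (r : (MonoidAlgebra K G)ᵐᵒᵖ) (m : M) :
    rgt_e M (r • m) = rgt_tau K G r • rgt_e M m := by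
  apply Subtype.ext
  rw [Submodule.coe_smul]
  exact rgt_SW_smul' r (m : Fin d → MonoidAlgebra K G)

/-- right bases give left bases -/
noncomputable def rgt_left {ι : Type} (M : RSub K G d)
    (b : Basis ι (MonoidAlgebra K G)ᵐᵒᵖ M) : Basis ι (MonoidAlgebra K G) (rgt_star M) :=
  rgt_basis (rgt_tau K G) (rgt_e M) (rgt_e_smul M) b

/-- left bases give right bases -/
noncomputable def rgt_right {ι : Type} (M : RSub K G d)
    (b : Basis ι (MonoidAlgebra K G) (rgt_star M)) : Basis ι (MonoidAlgebra K G)ᵐᵒᵖ M :=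
  rgt_basis (rgt_tau K G).symm (rgt_e M).symm (fun r m => by
    apply (rgt_e M).injective
    rw [rgt_e_smul, AddEquiv.apply_symm_apply, AddEquiv.apply_symm_apply,
      RingEquiv.apply_symm_apply]) b

theorem rgt_full (M : RSub K G d) (h : Full M) : FullL (rgt_star M) := by
  intro n v hv
  refine h n (fun i => rgt_SW (v i)) ?_
  intro x hx
  have h1 : rgt_SW x ∈ rgt_star M := by
    rw [rgt_mem_star, rgt_SW_SW]; exact hx
  have h2 : Submodule.span (MonoidAlgebra K G) (Set.range v) ≤
      rgt_star (Submodule.span (MonoidAlgebra K G)ᵐᵒᵖ (Set.range fun i => rgt_SW (v i))) := by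
    rw [Submodule.span_le]
    rintro _ ⟨i, rfl⟩
    exact Submodule.subset_span ⟨i, rfl⟩
  have h3 := h2 (hv h1)
  rw [rgt_mem_star, rgt_SW_SW] at h3
  exact h3

theorem rgt_inter (M : RSub K G d) (H : Subgroup G) :
    inter (rgt_star M) H = rgt_star (interR M H) := by
  ext v
  have h1 : rgt_SW (incl K H d v) =
      fun k => MonoidAlgebra.mapDomainRingHom K H.subtype (rgt_SW v k) :=
    funext fun k => (rgt_sw_map H (v k)).symm
  rw [mem_inter, rgt_mem_star, h1]
  rfl

/-- the group algebra has the invariant basis number -/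
theorem rgt_ibn (K : Type) [Field K] (G : Type) [Group G] :
    InvariantBasisNumber (MonoidAlgebra K G) := by
  rw [invariantBasisNumber_iff_matrix]
  intro n m f g hfg hgf
  set ε : MonoidAlgebra K G →+* K :=
    (MonoidAlgebra.lift K K G 1 : MonoidAlgebra K G →ₐ[K] K).toRingHom with hε
  have h1 : f.map ε * g.map ε = 1 := by
    rw [← Matrix.map_mul, hfg]
    exact Matrix.map_one ε (map_zero ε) (map_one ε)
  have h2 : g.map ε * f.map ε = 1 := by
    rw [← Matrix.map_mul, hgf]
    exact Matrix.map_one ε (map_zero ε) (map_one ε)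
  exact invariantBasisNumber_iff_matrix.1 (inferInstance : InvariantBasisNumber K) n m _ _ h1 h2

end rgt

/-- From left modules to right modules. -/
theorem right_of_left {K : Type} [Field K] {α : Type} {d : ℕ} (h : LeftMain K α d) :
    RightMain K α d := by
  intro H hH r hr M m hM hfull
  obtain ⟨b⟩ := hM
  obtain ⟨n, ⟨b'⟩, hn⟩ := h H hH r hr (rgt_star M) m (rgt_left M b) (rgt_full M hfull)
  refine ⟨n, ⟨?_⟩, hn⟩
  rw [rgt_inter] at b'
  exact rgt_right _ b'

/-- Finitely generated right submodules of `K[F]^d` have a rank, given the theorem of Cohn and Lewin for left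
modules. -/
theorem hasRank_of_fg {K : Type} [Field K] {G : Type} [Group G] {d : ℕ}
    (hcl : ∀ L : Submodule (MonoidAlgebra K G) (Fin d → MonoidAlgebra K G),
      ∃ J : Type, Nonempty (Basis J (MonoidAlgebra K G) L))
    (M : RSub K G d) (hM : M.FG) : ∃ m, HasRank M m := by
  obtain ⟨J, ⟨b⟩⟩ := hcl (rgt_star M)
  have b' := rgt_right M b
  have hfin : Module.Finite (MonoidAlgebra K G)ᵐᵒᵖ M := Module.Finite.iff_fg.2 hM
  have hJ : _root_.Finite J := Module.Finite.finite_basis b'
  obtain ⟨n, ⟨e⟩⟩ := Finite.exists_equiv_fin J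
  exact ⟨n, ⟨b'.reindex e⟩⟩

/-- The rank is unique. -/
theorem hasRank_unique {K : Type} [Field K] {G : Type} [Group G] {d : ℕ} (M : RSub K G d) {m n : ℕ}
    (hm : HasRank M m) (hn : HasRank M n) : m = n := by
  obtain ⟨b⟩ := hm
  obtain ⟨b'⟩ := hn
  have hibn := rgt_ibn K G
  have e := b.repr.symm.trans b'.repr
  have h := b.indexEquiv b'
  simpa using Fintype.card_congr h

end Pool.Agent.Helper166_HN
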