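import Pool.Agent.Helper166_HN.Gen2
import Pool.Agent.Helper166_HN.Right
import Pool.Agent.Helper166_HN.Cex
import Pool.Agent.Helper166_PQ.Card

/-!
# The inequality for right modules
-/

set_option autoImplicit false
set_option linter.unusedSectionVars false

namespace Pool.Agent.Helper166_HN

open Module

section

variable {K : Type} [Field K] {G : Type} [Group G] {d : ℕ}

theorem fin_span_right {n : ℕ} (M : RSub K G d) (v : Fin n → Fin d → MonoidAlgebra K G)
    (h : rgt_star M ≤ Submodule.span (MonoidAlgebra K G) (Set.range v)) :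
    M ≤ Submodule.span (MonoidAlgebra K G)ᵐᵒᵖ (Set.range fun i => rgt_SW (v i)) := by
  intro x hx
  have h1 : rgt_SW x ∈ rgt_star M := by
    rw [rgt_mem_star, rgt_SW_SW]; exact hx
  have h2 : Submodule.span (MonoidAlgebra K G) (Set.range v) ≤
      rgt_star (Submodule.span (MonoidAlgebra K G)ᵐᵒᵖ (Set.range fun i => rgt_SW (v i))) := by
    rw [Submodule.span_le]
    rintro _ ⟨i, rfl⟩
    exact Submodule.subset_span ⟨i, rfl⟩
  have h3 := h2 (h h1)
  rw [rgt_mem_star, rgt_SW_SW] at h3
  exact h3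

theorem fin_span_left {n : ℕ} (M : RSub K G d) (v : Fin n → Fin d → MonoidAlgebra K G)
    (h : M ≤ Submodule.span (MonoidAlgebra K G)ᵐᵒᵖ (Set.range v)) :
    rgt_star M ≤ Submodule.span (MonoidAlgebra K G) (Set.range fun i => rgt_SW (v i)) := by
  intro x hx
  have h2 : Submodule.span (MonoidAlgebra K G)ᵐᵒᵖ (Set.range v) ≤
      rgt_star' (Submodule.span (MonoidAlgebra K G) (Set.range fun i => rgt_SW (v i))) := by
    rw [Submodule.span_le]
    rintro _ ⟨i, rfl⟩
    exact Submodule.subset_span ⟨i, rfl⟩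
  have h3 := h2 (h hx)
  rw [rgt_mem_star', rgt_SW_SW] at h3
  exact h3

theorem fin_innerRank {M : RSub K G d} {ρ : ℕ} (h : InnerRankL (rgt_star M) ρ) :
    InnerRank M ρ := by
  obtain ⟨⟨v, hv⟩, hmin⟩ := h
  exact ⟨⟨_, fin_span_right M v hv⟩, fun n w hw => hmin n _ (fin_span_left M w hw)⟩

theorem fin_innerRank_unique {M : RSub K G d} {ρ ρ' : ℕ} (h : InnerRank M ρ) (h' : InnerRank M ρ') :
    ρ = ρ' := by
  obtain ⟨⟨v, hv⟩, hmin⟩ := h
  obtain ⟨⟨v', hv'⟩, hmin'⟩ := h'
  exact le_antisymm (hmin _ v' hv') (hmin' _ v hv)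

/-- For ideals, full means nonzero. -/
theorem full_one_iff (M : RSub K G 1) : Full M ↔ M ≠ ⊥ := by
  constructor
  · intro h h0
    have := h 0 (fun i => i.elim0) (by rw [h0]; exact bot_le)
    omega
  · intro h n v hv
    rcases Nat.eq_zero_or_pos n with h0 | h0
    · subst h0
      exfalso
      apply h
      rw [eq_bot_iff]
      refine hv.trans ?_
      rw [Set.range_eq_empty, Submodule.span_empty]
    · exact h0

end

section alg

variable {K : Type} [Field K] {X : Type} {d : ℕ}

theorem fin_comm {R : Type} [Ring R] [IsStablyFiniteRing R] {n s : ℕ} (h : s = n)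
    (A : Matrix (Fin n) (Fin s) R) (B : Matrix (Fin s) (Fin n) R) (hBA : B * A = 1) : A * B = 1 := by
  subst h
  exact mul_eq_one_symm hBA

/-- Full modules are algebraic. -/
theorem algebraic_of_full {M : RSub K (FreeGroup X) d} (hM : Full M) : Algebraic M := by
  classical
  intro P Q hPQ hfree hMP
  set pr := P.projectionOnto Q hPQ with hpr
  have hfin0 : Module.Finite (MonoidAlgebra K (FreeGroup X))ᵐᵒᵖ
      (MonoidAlgebra K (FreeGroup X)) := by
    refine Module.Finite.of_surjective (LinearMap.toSpanSingleton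
      (MonoidAlgebra K (FreeGroup X))ᵐᵒᵖ (MonoidAlgebra K (FreeGroup X)) 1) ?_
    intro a
    exact ⟨MulOpposite.op a, one_mul a⟩
  have hfin : Module.Finite (MonoidAlgebra K (FreeGroup X))ᵐᵒᵖ P :=
    Module.Finite.of_surjective pr (Submodule.projectionOnto_surjective hPQ)
  let b₀ := Module.Free.chooseBasis (MonoidAlgebra K (FreeGroup X))ᵐᵒᵖ P
  let I := Module.Free.ChooseBasisIndex (MonoidAlgebra K (FreeGroup X))ᵐᵒᵖ P
  set s := Fintype.card I with hs
  let b : Basis (Fin s) (MonoidAlgebra K (FreeGroup X))ᵐᵒᵖ P := b₀.reindex (Fintype.equivFin I)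
  -- `d ≤ s`
  have hds : d ≤ s := by
    refine hM s (fun i => (b i : Fin d → MonoidAlgebra K (FreeGroup X))) ?_
    refine hMP.trans ?_
    intro p hp
    have h1 : (⟨p, hp⟩ : P) ∈ Submodule.span (MonoidAlgebra K (FreeGroup X))ᵐᵒᵖ (Set.range b) :=
      b.mem_span _
    have h2 : Submodule.span (MonoidAlgebra K (FreeGroup X))ᵐᵒᵖ (Set.range b) ≤
        (Submodule.span (MonoidAlgebra K (FreeGroup X))ᵐᵒᵖ (Set.range fun i =>
          (b i : Fin d → MonoidAlgebra K (FreeGroup X)))).comap P.subtype := by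
      rw [Submodule.span_le]
      rintro _ ⟨j, rfl⟩
      exact Submodule.subset_span ⟨j, rfl⟩
    have h4 := Submodule.mem_comap.1 (h2 h1)
    rwa [Submodule.subtype_apply] at h4
  let A : Matrix (Fin d) (Fin s) (MonoidAlgebra K (FreeGroup X)) :=
    fun i k => (b k : Fin d → _) i
  let B : Matrix (Fin s) (Fin d) (MonoidAlgebra K (FreeGroup X)) :=
    fun k j => (b.repr (pr (Pi.single j 1)) k).unop
  have hco : ∀ (x : Fin d → MonoidAlgebra K (FreeGroup X)) k,
      (b.repr (pr x) k).unop = ∑ j, B k j * x j := by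
    intro x k
    conv_lhs => rw [cex_vec x]
    simp only [map_sum, map_smul, Finsupp.coe_finsetSum, Finset.sum_apply, Finsupp.smul_apply,
      smul_eq_mul]
    rw [Finset.unop_sum]
    rfl
  have hex : ∀ (y : P) i, (y : Fin d → _) i = ∑ k, A i k * (b.repr y k).unop := by
    intro y i
    have h1 := congrArg (fun z : P => (z : Fin d → MonoidAlgebra K (FreeGroup X)) i)
      (b.sum_repr y)
    simp only [Submodule.coe_sum, Submodule.coe_smul, Finset.sum_apply, Pi.smul_apply] at h1
    rw [← h1]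
    rfl
  have hprP : ∀ y : P, pr (y : Fin d → _) = y := fun y => Submodule.projectionOnto_apply_left hPQ y
  have hBA : B * A = 1 := by
    ext1 k l
    rw [Matrix.mul_apply]
    have h1 := hco (b l : Fin d → _) k
    rw [hprP, b.repr_self] at h1
    show ∑ j, B k j * (b l : Fin d → _) j = _
    rw [← h1, Matrix.one_apply, Finsupp.single_apply]
    by_cases h : k = l
    · subst h; simp
    · rw [if_neg h, if_neg (fun h' => h h'.symm), MulOpposite.unop_zero]
  -- `s ≤ d`
  have hsd : s ≤ d := by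
    set ε : MonoidAlgebra K (FreeGroup X) →+* K :=
      (MonoidAlgebra.lift K K (FreeGroup X) 1 : MonoidAlgebra K (FreeGroup X) →ₐ[K] K).toRingHom
      with hε
    have h1 : B.map ε * A.map ε = 1 := by
      rw [← Matrix.map_mul, hBA]
      exact Matrix.map_one ε (map_zero ε) (map_one ε)
    have h2 := Matrix.rank_mul_le_left (B.map ε) (A.map ε)
    rw [h1, Matrix.rank_one, Fintype.card_fin] at h2
    have h3 := Matrix.rank_le_card_width (B.map ε)
    rw [Fintype.card_fin] at h3
    omega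
  have hst := Pool.Agent.Helper166_PQ.aux45_free (K := K) (X := X)
  have hAB : A * B = 1 := fin_comm (le_antisymm hsd hds) A B hBA
  rw [eq_top_iff]
  intro x _
  have hx : x = (pr x : Fin d → _) := by
    funext i
    rw [hex (pr x) i]
    simp only [hco]
    have h1 : ∑ j, (A * B) i j * x j = x i := by
      rw [hAB, Finset.sum_eq_single i]
      · simp
      · intro j _ hj
        rw [Matrix.one_apply_ne (Ne.symm hj), zero_mul]
      · intro h; exact absurd (Finset.mem_univ _) h
    rw [← h1]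
    simp only [Matrix.mul_apply, Finset.mul_sum, Finset.sum_mul]
    rw [Finset.sum_comm]
    refine Finset.sum_congr rfl fun k _ => Finset.sum_congr rfl fun j _ => ?_
    rw [mul_assoc]
  rw [hx]
  exact (pr x).2

end alg

/-- finitely generated subgroups of free groups have finite bases -/
theorem exists_basis_of_fg {X : Type} (H : Subgroup (FreeGroup X)) (hH : H.FG) :
    ∃ r : ℕ, Nonempty (FreeGroupBasis (Fin r) H) := by
  classical
  have hfree : IsFreeGroup H := inferInstance
  let b := IsFreeGroup.basis H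
  have hfg : Group.FG H := (Group.fg_iff_subgroup_fg H).2 hH
  obtain ⟨t, ht⟩ := Group.fg_def.1 hfg
  obtain ⟨hfin, _⟩ := Pool.Agent.Helper166_PQ.card_basis_le b t ht
  have := Fintype.ofFinite (IsFreeGroup.Generators H)
  exact ⟨_, ⟨b.reindex (Fintype.equivFin _)⟩⟩

/-- **The inequality for right modules.** -/
theorem right_gen (K : Type) [Field K] (α : Type) (d : ℕ) (H : Subgroup (FreeGroup α))
    (hH : H ≠ ⊥) (r : ℕ) (bH : FreeGroupBasis (Fin r) H) (M : RSub K (FreeGroup α) d) (m : ℕ)
    (hM : HasRank M m) :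
    ∃ ρ n : ℕ, InnerRank M ρ ∧ ρ ≤ d ∧ ρ ≤ m ∧ 1 ≤ r ∧ HasRank (interR M H) n ∧
      (n : ℤ) - ρ ≤ ((m : ℤ) - ρ) * ((r : ℤ) - 1) := by
  obtain ⟨b⟩ := hM
  obtain ⟨ρ, n, h1, h2, h3, h4, ⟨b'⟩, h5⟩ := left_gen K α d H hH r bH (rgt_star M) m (rgt_left M b)
  refine ⟨ρ, n, fin_innerRank h1, h2, h3, h4, ⟨?_⟩, h5⟩
  rw [rgt_inter] at b'
  exact rgt_right _ b'

end Pool.Agent.Helper166_HN
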