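import Pool.Agent.Helper166_HN.Inner2

/-!
# The general inequality for left modules
-/

set_option autoImplicit false
set_option linter.unusedSectionVars false

namespace Pool.Agent.Helper166_HN

open Pool.Agent.Y125.MN Pool.Agent.Y125.MN.Ser Module
open scoped TensorProduct

section

variable {K : Type} [Field K] {α : Type}
variable [LinearOrder (FreeGroup α)] [MulLeftStrictMono (FreeGroup α)]
  [MulRightStrictMono (FreeGroup α)]
variable {d : ℕ}
variable {J : Type}
  (M : Submodule (MonoidAlgebra K (FreeGroup α)) (Fin d → MonoidAlgebra K (FreeGroup α)))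
  (b : Basis J (MonoidAlgebra K (FreeGroup α)) M)
variable {N : Type} [AddCommGroup N] [Module K N] {ρ : Representation K (FreeGroup α) N}
  {π : (Fin d → MonoidAlgebra K (FreeGroup α)) →ₗ[K] N}

/-- upper bound for the dimension of the space of cycles -/
theorem cnt_up2 [Finite J]
    (hπ : ∀ g p, π (MonoidAlgebra.single g (1 : K) • p) = ρ g (π p))
    (hker : ∀ p, π p = 0 ↔ p ∈ M) (hsurj : Function.Surjective π) :
    Module.Finite (DD K α) (Zc ρ) ∧ finrank (DD K α) (Zc ρ) +
      finrank (DD K α) (LinearMap.range (matB M b)) ≤ Nat.card J := by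
  have := Fintype.ofFinite J
  obtain ⟨Ψ, hΨ⟩ := snake_coker' M b hπ hker hsurj
  refine ⟨Module.Finite.of_injective Ψ hΨ, ?_⟩
  have h1 := LinearMap.finrank_le_finrank_of_injective hΨ
  have h2 := (matB M b).finrank_range_add_finrank_ker
  rw [Module.finrank_finsupp_self] at h2
  rw [Nat.card_eq_fintype_card]
  omega

include b in
/-- lower bound for the dimension of the space of cycles -/
theorem cnt_low2 (hπ : ∀ g p, π (MonoidAlgebra.single g (1 : K) • p) = ρ g (π p))
    (hker : ∀ p, π p = 0 ↔ p ∈ M) (R : Submodule (DD K α) (Fin d →₀ DD K α))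
    (hR : ∀ p ∈ M, nuB (freeB (stdB K α d)) p ∈ R) (J₀ : Finset J) :
    ∃ W : Submodule (DD K α) (α →₀ DD K α ⊗[K] N), W ≤ Zc ρ ∧ Module.Finite (DD K α) W ∧
      J₀.card ≤ finrank (DD K α) W + finrank (DD K α) R := by
  classical
  obtain ⟨Φ, hΦ⟩ := snake_ker' M b hπ hker
  -- the restriction of the matrix to the finite set
  let e : (J₀ →₀ DD K α) →ₗ[DD K α] (J →₀ DD K α) := Finsupp.lmapDomain _ _ (Subtype.val)
  have he : Function.Injective e := Finsupp.mapDomain_injective Subtype.val_injective
  let f : (J₀ →₀ DD K α) →ₗ[DD K α] (Fin d →₀ DD K α) := (matB M b).comp e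
  have h2 := f.finrank_range_add_finrank_ker
  have hrange : LinearMap.range f ≤ R := by
    rintro _ ⟨v, rfl⟩
    change matB M b (e v) ∈ R
    induction e v using Finsupp.induction_linear with
    | zero => rw [map_zero]; exact Submodule.zero_mem _
    | add x y hx hy => rw [map_add]; exact Submodule.add_mem _ hx hy
    | single j δ =>
      rw [matB_single]
      exact Submodule.smul_mem _ _ (hR _ (b j).2)
  have h3 : finrank (DD K α) (LinearMap.range f) ≤ finrank (DD K α) R :=
    Submodule.finrank_mono hrange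
  rw [Module.finrank_finsupp_self, Fintype.card_coe] at h2
  let g : LinearMap.ker f →ₗ[DD K α] LinearMap.ker (matB M b) :=
    (e.comp (LinearMap.ker f).subtype).codRestrict _ (fun v => v.2)
  have hg : Function.Injective g := by
    intro v w hvw
    have := congrArg Subtype.val hvw
    exact Subtype.ext (he this)
  let G : LinearMap.ker f →ₗ[DD K α] (α →₀ DD K α ⊗[K] N) := (Zc ρ).subtype.comp (Φ.comp g)
  have hG : Function.Injective G := Subtype.val_injective.comp (hΦ.comp hg)
  refine ⟨LinearMap.range G, ?_, inferInstance, ?_⟩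
  · rintro _ ⟨v, rfl⟩
    exact (Φ (g v)).2
  · rw [LinearMap.finrank_range_of_inj hG]
    omega

end

theorem cosetwise_le {K : Type} [Field K] {G : Type} [Group G] {d : ℕ}
    (M : Submodule (MonoidAlgebra K G) (Fin d → MonoidAlgebra K G)) (H : Subgroup G) :
    cosetwise M H ≤ M := by
  intro a ha
  obtain ⟨S, hS⟩ := ker_sum_parts H a
  rw [hS]
  exact Submodule.sum_mem _ fun s _ => ha s

/-- **The general inequality for left modules.** -/
theorem left_gen (K : Type) [Field K] (α : Type) (d : ℕ) : LeftGen K α d := by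
  classical
  intro H hH r bH M m b
  obtain ⟨o, ho1, ho2⟩ := exists_order α
  let _ := o
  have : MulLeftStrictMono (FreeGroup α) := ⟨fun c a b h => ho1 a b c h⟩
  have : MulRightStrictMono (FreeGroup α) := ⟨fun c a b h => ho2 a b c h⟩
  let _ : LinearOrder α := IsWellOrder.linearOrder WellOrderingRel
  -- bases
  obtain ⟨J, ⟨c⟩⟩ := cohn_lewin_of_basis bH (inter M H)
  obtain ⟨c', hc'⟩ := cosetwise_basis M H c
  -- the quotient
  let π : (Fin d → MonoidAlgebra K (FreeGroup α)) →ₗ[K]
      ((Fin d → MonoidAlgebra K (FreeGroup α)) ⧸ M) := M.mkQ.restrictScalars K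
  have hπ0 : ∀ p, π p = 0 ↔ p ∈ M := fun p => Submodule.Quotient.mk_eq_zero M
  let ρN : Representation K (FreeGroup α) ((Fin d → MonoidAlgebra K (FreeGroup α)) ⧸ M) :=
    rp (K := K) ((Fin d → MonoidAlgebra K (FreeGroup α)) ⧸ M)
  have hπe : ∀ (g : FreeGroup α) p, π (MonoidAlgebra.single g (1 : K) • p) = ρN g (π p) := by
    intro g p
    exact map_smul M.mkQ (MonoidAlgebra.single g (1 : K)) p
  have hπs : Function.Surjective π := Submodule.mkQ_surjective M
  set R := LinearMap.range (matB M b) with hRdef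
  set s := finrank (DD K α) R with hs
  obtain ⟨hZ1, hZ1'⟩ := cnt_up2 (ρ := ρN) M b hπe hπ0 hπs
  rw [Nat.card_eq_fintype_card, Fintype.card_fin, ← hRdef, ← hs] at hZ1'
  obtain ⟨hZ2, hZ2'⟩ := cosRep_le (K := K) H hH bH
  have hlow : ∀ J₀ : Finset J, J₀.card ≤ (m - s) * (r - 1) + s := by
    intro J₀
    obtain ⟨W, hW, hWf, hWc⟩ := cnt_low2 (cosetwise M H) c'
      (ρ := ρN.tprod (cosRep K H))
      (π := diag H π) (fun g p => diag_equivariant H _ π hπe g p)
      (fun p => diag_eq_zero_iff M H π hπ0 p) R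
      (fun p hp => mem_range_of_mem M b (cosetwise_le M H hp)) J₀
    have h1 := prod_le ρN (cosRep K H) hZ1 hZ2 W hW hWf
    have h2 : finrank (DD K α) (Zc ρN) * finrank (DD K α) (Zc (cosRep K H)) ≤
        (m - s) * (r - 1) := Nat.mul_le_mul (by omega) (by omega)
    omega
  have hJ : Finite J := by
    by_contra hinf
    rw [not_finite_iff_infinite] at hinf
    obtain ⟨J₀, hJ₀⟩ := Infinite.exists_subset_card_eq J ((m - s) * (r - 1) + s + 1)
    have := hlow J₀
    omega
  have := Fintype.ofFinite J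
  have hsd : s ≤ d := by
    have := Submodule.finrank_le R
    rwa [Module.finrank_finsupp_self, Fintype.card_fin] at this
  have hinner : InnerRankL M s := by
    constructor
    · obtain ⟨n, v, hn, hv⟩ := exists_inner M b
      refine ⟨fun i => if h : (i : ℕ) < n then v ⟨i, h⟩ else 0, hv.trans ?_⟩
      rw [Submodule.span_le]
      rintro _ ⟨i, rfl⟩
      have hi : (i : ℕ) < s := lt_of_lt_of_le i.2 hn
      refine Submodule.subset_span ⟨⟨i, hi⟩, ?_⟩
      simp
    · intro n v hv
      exact le_inner M b v hv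
  refine ⟨s, Fintype.card J, hinner, hsd, by omega, by omega,
    ⟨c.reindex (Fintype.equivFin J)⟩, ?_⟩
  have h1 := hlow Finset.univ
  rw [Finset.card_univ] at h1
  have hmd : s ≤ m := by omega
  have hr : 1 ≤ r := by omega
  have e1 : ((m - s : ℕ) : ℤ) = (m : ℤ) - s := by omega
  have e2 : ((r - 1 : ℕ) : ℤ) = (r : ℤ) - 1 := by omega
  have h2 : (Fintype.card J : ℤ) ≤ ((m - s : ℕ) : ℤ) * ((r - 1 : ℕ) : ℤ) + s := by
    exact_mod_cast h1
  rw [e1, e2] at h2
  linarith

end Pool.Agent.Helper166_HN
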