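import Pool.Agent.Helper166_HN.Rep

/-!
# Right submodules of `K[G]^d`
-/

set_option autoImplicit false
set_option linter.unusedSectionVars false

namespace Pool.Agent.Helper166_HN

open Module

/-- The free right `K[G]`-module `K[G]^d`: right modules over a ring are modules over the opposite
ring, and `a • v` is `v` multiplied by `a` on the right. -/
abbrev RSub (K : Type) [Field K] (G : Type) [Group G] (d : ℕ) : Type :=
  Submodule (MonoidAlgebra K G)ᵐᵒᵖ (Fin d → MonoidAlgebra K G)

section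

variable {K : Type} [Field K] {G : Type} [Group G] {d : ℕ}

/-- The intersection `M ∩ K[H]^d`, a right `K[H]`-submodule of `K[H]^d`. -/
noncomputable def interR (M : RSub K G d) (H : Subgroup G) : RSub K H d where
  carrier := {v | (fun k => MonoidAlgebra.mapDomainRingHom K H.subtype (v k)) ∈ M}
  zero_mem' := by
    have : (fun k => MonoidAlgebra.mapDomainRingHom K H.subtype
        ((0 : Fin d → MonoidAlgebra K H) k)) = 0 := funext fun _ => map_zero _
    change (fun k => MonoidAlgebra.mapDomainRingHom K H.subtype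
        ((0 : Fin d → MonoidAlgebra K H) k)) ∈ M
    rw [this]; exact M.zero_mem
  add_mem' {v w} hv hw := by
    have : (fun k => MonoidAlgebra.mapDomainRingHom K H.subtype ((v + w) k)) =
        (fun k => MonoidAlgebra.mapDomainRingHom K H.subtype (v k)) +
        (fun k => MonoidAlgebra.mapDomainRingHom K H.subtype (w k)) := funext fun _ => map_add _ _ _
    change (fun k => MonoidAlgebra.mapDomainRingHom K H.subtype ((v + w) k)) ∈ M
    rw [this]; exact M.add_mem hv hw
  smul_mem' a v hv := by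
    have : (fun k => MonoidAlgebra.mapDomainRingHom K H.subtype ((a • v) k)) =
        MulOpposite.op (MonoidAlgebra.mapDomainRingHom K H.subtype a.unop) •
        (fun k => MonoidAlgebra.mapDomainRingHom K H.subtype (v k)) :=
      funext fun k => map_mul (MonoidAlgebra.mapDomainRingHom K H.subtype) (v k) a.unop
    change (fun k => MonoidAlgebra.mapDomainRingHom K H.subtype ((a • v) k)) ∈ M
    rw [this]; exact M.smul_mem _ hv

/-- `M` is free of rank `m`. -/
def HasRank (M : RSub K G d) (m : ℕ) : Prop :=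
  Nonempty (Basis (Fin m) (MonoidAlgebra K G)ᵐᵒᵖ M)

/-- No proper free direct summand of `K[G]^d` contains `M`. -/
def Algebraic (M : RSub K G d) : Prop :=
  ∀ P Q : RSub K G d, IsCompl P Q → Module.Free (MonoidAlgebra K G)ᵐᵒᵖ P → M ≤ P → P = ⊤

/-- No submodule with fewer than `d` generators contains `M`. -/
def Full (M : RSub K G d) : Prop :=
  ∀ (n : ℕ) (v : Fin n → Fin d → MonoidAlgebra K G),
    M ≤ Submodule.span (MonoidAlgebra K G)ᵐᵒᵖ (Set.range v) → d ≤ n

/-- The inner rank of `M` is `ρ`: the least number of generators of a submodule containing `M`. -/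
def InnerRank (M : RSub K G d) (ρ : ℕ) : Prop :=
  (∃ v : Fin ρ → Fin d → MonoidAlgebra K G,
    M ≤ Submodule.span (MonoidAlgebra K G)ᵐᵒᵖ (Set.range v)) ∧
  ∀ (n : ℕ) (v : Fin n → Fin d → MonoidAlgebra K G),
    M ≤ Submodule.span (MonoidAlgebra K G)ᵐᵒᵖ (Set.range v) → ρ ≤ n

/-- The inner rank for left modules. -/
def InnerRankL (M : Submodule (MonoidAlgebra K G) (Fin d → MonoidAlgebra K G)) (ρ : ℕ) : Prop :=
  (∃ v : Fin ρ → Fin d → MonoidAlgebra K G,
    M ≤ Submodule.span (MonoidAlgebra K G) (Set.range v)) ∧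
  ∀ (n : ℕ) (v : Fin n → Fin d → MonoidAlgebra K G),
    M ≤ Submodule.span (MonoidAlgebra K G) (Set.range v) → ρ ≤ n

/-- The same for left modules. -/
def FullL (M : Submodule (MonoidAlgebra K G) (Fin d → MonoidAlgebra K G)) : Prop :=
  ∀ (n : ℕ) (v : Fin n → Fin d → MonoidAlgebra K G),
    M ≤ Submodule.span (MonoidAlgebra K G) (Set.range v) → d ≤ n

end

/-- the inequality for left modules -/
def LeftMain (K : Type) [Field K] (α : Type) (d : ℕ) : Prop :=
  ∀ (H : Subgroup (FreeGroup α)), H ≠ ⊥ → ∀ (r : ℕ), FreeGroupBasis (Fin r) H →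
    ∀ (M : Submodule (MonoidAlgebra K (FreeGroup α)) (Fin d → MonoidAlgebra K (FreeGroup α)))
      (m : ℕ), Basis (Fin m) (MonoidAlgebra K (FreeGroup α)) M → FullL M →
    ∃ n : ℕ, Nonempty (Basis (Fin n) (MonoidAlgebra K H) (inter M H)) ∧
      (n : ℤ) - d ≤ ((m : ℤ) - d) * ((r : ℤ) - 1)

/-- the general inequality for left modules -/
def LeftGen (K : Type) [Field K] (α : Type) (d : ℕ) : Prop :=
  ∀ (H : Subgroup (FreeGroup α)), H ≠ ⊥ → ∀ (r : ℕ), FreeGroupBasis (Fin r) H →
    ∀ (M : Submodule (MonoidAlgebra K (FreeGroup α)) (Fin d → MonoidAlgebra K (FreeGroup α)))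
      (m : ℕ), Basis (Fin m) (MonoidAlgebra K (FreeGroup α)) M →
    ∃ ρ n : ℕ, InnerRankL M ρ ∧ ρ ≤ d ∧ ρ ≤ m ∧ 1 ≤ r ∧
      Nonempty (Basis (Fin n) (MonoidAlgebra K H) (inter M H)) ∧
      (n : ℤ) - ρ ≤ ((m : ℤ) - ρ) * ((r : ℤ) - 1)

/-- the inequality for right modules -/
def RightMain (K : Type) [Field K] (α : Type) (d : ℕ) : Prop :=
  ∀ (H : Subgroup (FreeGroup α)), H ≠ ⊥ → ∀ (r : ℕ), FreeGroupBasis (Fin r) H →
    ∀ (M : RSub K (FreeGroup α) d) (m : ℕ), HasRank M m → Full M →
    ∃ n : ℕ, HasRank (interR M H) n ∧ (n : ℤ) - d ≤ ((m : ℤ) - d) * ((r : ℤ) - 1)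

end Pool.Agent.Helper166_HN
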