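import Pool.Agent.Helper166_HN.Count
import Pool.Agent.Helper166_HN.CL
import Pool.Agent.Helper166_HN.RDefs

/-!
# Full modules span the space over the series
-/

set_option autoImplicit false
set_option linter.unusedSectionVars false

namespace Pool.Agent.Helper166_HN

open Pool.Agent.Y125.MN Pool.Agent.Y125.MN.Ser Module
open scoped TensorProduct

variable {K : Type} [Field K] {α : Type}
variable [LinearOrder (FreeGroup α)] [MulLeftStrictMono (FreeGroup α)]
  [MulRightStrictMono (FreeGroup α)]
variable {d : ℕ}

/-- the regular representation on the series -/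
noncomputable def regRep (K : Type) [Field K] (α : Type) [LinearOrder (FreeGroup α)]
    [MulLeftStrictMono (FreeGroup α)] [MulRightStrictMono (FreeGroup α)] :
    Representation K (FreeGroup α) (DD K α) where
  toFun g := LinearMap.mulLeft K (u K g)
  map_one' := by
    ext1 f
    rw [LinearMap.mulLeft_apply, u_one, one_mul]
    rfl
  map_mul' g h := by
    ext1 f
    rw [LinearMap.mulLeft_apply, u_mul, mul_assoc]
    rfl

theorem regRep_apply (g : FreeGroup α) (f : DD K α) : regRep K α g f = u K g * f := rfl

theorem Zc_regRep : Zc (regRep K α) = ⊥ := by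
  rw [eq_bot_iff]
  intro z hz
  have h1 := adm_regular (regRep K α) regRep_apply (adm_of_mem hz)
  rw [Submodule.mem_bot]
  ext1 x
  apply cf_ext
  intro g
  have h2 := h1 g x
  simp only [regRep_apply] at h2
  have h3 : cf g (z x) = 0 := by
    have := congrArg (fun t => u K g⁻¹ * t) h2
    simpa only [← mul_assoc, u_inv_mul, one_mul, mul_zero] using this
  rw [h3, Finsupp.coe_zero, Pi.zero_apply, map_zero]

section

variable (φ : (Fin d →₀ DD K α) →ₗ[DD K α] DD K α)

/-- the map of `K[F]^d` to the series given by a functional -/
noncomputable def thetaL : (Fin d → MonoidAlgebra K (FreeGroup α)) →ₗ[K] DD K α :=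
  (φ.restrictScalars K) ∘ₗ nuB (freeB (stdB K α d))

theorem thetaL_apply (p : Fin d → MonoidAlgebra K (FreeGroup α)) :
    thetaL φ p = φ (nuB (freeB (stdB K α d)) p) := rfl

theorem thetaL_single (g : FreeGroup α) (p : Fin d → MonoidAlgebra K (FreeGroup α)) :
    thetaL φ (MonoidAlgebra.single g (1 : K) • p) = u K g * thetaL φ p := by
  rw [thetaL_apply, thetaL_apply]
  have h := nuB_rho (isFree_freeB (stdB K α d)) g p
  rw [rp_apply] at h
  rw [h, map_smul, smul_eq_mul]

/-- the kernel is a submodule -/
noncomputable def kerL : Submodule (MonoidAlgebra K (FreeGroup α)) (Fin d → MonoidAlgebra K (FreeGroup α)) where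
  carrier := {p | thetaL φ p = 0}
  zero_mem' := map_zero _
  add_mem' {p q} hp hq := by
    change thetaL φ (p + q) = 0
    rw [map_add, hp, hq, add_zero]
  smul_mem' a p hp := by
    change thetaL φ (a • p) = 0
    induction a using MonoidAlgebra.induction_linear with
    | zero => rw [zero_smul, map_zero]
    | add a b ha hb => rw [add_smul, map_add, ha, hb, add_zero]
    | single g r =>
      have h1 : MonoidAlgebra.single g r = r • (MonoidAlgebra.single g (1 : K)) := by
        rw [MonoidAlgebra.smul_single, smul_eq_mul, mul_one]
      rw [h1, smul_assoc, map_smul, thetaL_single]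
      change r • (u K g * thetaL φ p) = 0
      rw [show thetaL φ p = 0 from hp, mul_zero, smul_zero]

theorem mem_kerL {p : Fin d → MonoidAlgebra K (FreeGroup α)} : p ∈ kerL φ ↔ thetaL φ p = 0 := Iff.rfl

end

/-- Full modules have surjective matrices over the series. -/
theorem full_surjective {J : Type}
    (M : Submodule (MonoidAlgebra K (FreeGroup α)) (Fin d → MonoidAlgebra K (FreeGroup α)))
    (b : Basis J (MonoidAlgebra K (FreeGroup α)) M) (hfull : FullL M) :
    Function.Surjective (matB M b) := by
  classical
  by_contra hns
  rw [← LinearMap.range_eq_top] at hns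
  obtain ⟨φ, hφ0, hφ⟩ := Submodule.exists_le_ker_of_lt_top _ (lt_top_iff_ne_top.2 hns)
  -- the larger module
  have hle : M ≤ kerL φ := by
    intro p hp
    have h1 : (⟨p, hp⟩ : M) ∈ Submodule.span (MonoidAlgebra K (FreeGroup α)) (Set.range b) :=
      b.mem_span _
    have h2 : Submodule.span (MonoidAlgebra K (FreeGroup α)) (Set.range b) ≤
        (kerL φ).comap M.subtype := by
      rw [Submodule.span_le]
      rintro _ ⟨j, rfl⟩
      change thetaL φ (b j : Fin d → MonoidAlgebra K (FreeGroup α)) = 0
      have h3 : nuB (freeB (stdB K α d)) (b j : Fin d → _) ∈ LinearMap.range (matB M b) :=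
        ⟨Finsupp.single j 1, by rw [matB_single, one_smul]⟩
      exact hφ h3
    have h4 := Submodule.mem_comap.1 (h2 h1)
    rwa [Submodule.subtype_apply] at h4
  obtain ⟨J', ⟨b'⟩⟩ := cohn_lewin (kerL φ)
  obtain ⟨Φ, hΦ⟩ := snake_ker' (ρ := regRep K α) (π := thetaL φ) (kerL φ) b'
    (fun g p => thetaL_single φ g p) (fun p => (mem_kerL φ).symm)
  have hinj : Function.Injective (matB (kerL φ) b') := by
    rw [injective_iff_map_eq_zero]
    intro v hv
    have h1 : Φ ⟨v, hv⟩ = 0 := by
      apply Subtype.ext
      have h0 : ∀ z ∈ Zc (regRep K α), z = 0 := by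
        intro z hz
        rw [Zc_regRep] at hz
        exact hz
      exact h0 _ (Φ ⟨v, hv⟩).2
    have h3 := hΦ (h1.trans (map_zero Φ).symm)
    exact congrArg Subtype.val h3
  have hrange : LinearMap.range (matB (kerL φ) b') ≤ LinearMap.ker φ := by
    rintro _ ⟨v, rfl⟩
    induction v using Finsupp.induction_linear with
    | zero => rw [map_zero]; exact Submodule.zero_mem _
    | add x y hx hy => rw [map_add]; exact Submodule.add_mem _ hx hy
    | single j δ =>
      rw [matB_single]
      exact Submodule.smul_mem _ _ (b' j).2
  haveI hfin : Module.Finite (DD K α) (J' →₀ DD K α) := Module.Finite.of_injective _ hinj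
  have hJ : Finite J' := by
    have := Module.Finite.finite_basis (Finsupp.basisSingleOne (R := DD K α) (ι := J'))
    exact this
  have := Fintype.ofFinite J'
  have h4 := LinearMap.finrank_range_of_inj hinj
  rw [Module.finrank_finsupp_self] at h4
  have h5 : finrank (DD K α) (LinearMap.ker φ) + 1 = d := by
    have h6 := φ.finrank_range_add_finrank_ker
    rw [Module.finrank_finsupp_self, Fintype.card_fin] at h6
    have h7 : LinearMap.range φ = ⊤ := by
      rw [LinearMap.range_eq_top]
      exact LinearMap.surjective hφ0
    rw [h7, finrank_top, Module.finrank_self] at h6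
    omega
  have h8 : Fintype.card J' ≤ finrank (DD K α) (LinearMap.ker φ) := by
    rw [← h4]
    exact Submodule.finrank_mono hrange
  have h9 := hfull (Fintype.card J')
    (fun i => (b' ((Fintype.equivFin J').symm i) : Fin d → MonoidAlgebra K (FreeGroup α))) (by
      refine hle.trans ?_
      intro p hp
      have h1 : (⟨p, hp⟩ : kerL φ) ∈ Submodule.span (MonoidAlgebra K (FreeGroup α)) (Set.range b') :=
        b'.mem_span _
      have h2 : Submodule.span (MonoidAlgebra K (FreeGroup α)) (Set.range b') ≤
          (Submodule.span (MonoidAlgebra K (FreeGroup α)) (Set.range fun i =>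
            (b' ((Fintype.equivFin J').symm i) : Fin d → MonoidAlgebra K (FreeGroup α)))).comap
            (kerL φ).subtype := by
        rw [Submodule.span_le]
        rintro _ ⟨j, rfl⟩
        refine Submodule.subset_span ⟨Fintype.equivFin J' j, ?_⟩
        simp
      have h4 := Submodule.mem_comap.1 (h2 h1)
      rwa [Submodule.subtype_apply] at h4)
  omega

end Pool.Agent.Helper166_HN
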