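import Pool.Agent.Helper166_HN.Main

/-!
# The inner rank is the rank over the series, and the general inequality
-/

set_option autoImplicit false
set_option linter.unusedSectionVars false

namespace Pool.Agent.Helper166_HN

open Pool.Agent.Y125.MN Pool.Agent.Y125.MN.Ser Module
open scoped TensorProduct

section

variable {K : Type} [Field K] {α : Type}
variable [LinearOrder (FreeGroup α)] [MulLeftStrictMono (FreeGroup α)]
  [MulRightStrictMono (FreeGroup α)]
variable {d : ℕ}

/-- the regular representation on tuples of series -/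
noncomputable def regRep2 (K : Type) [Field K] (α : Type) [LinearOrder (FreeGroup α)]
    [MulLeftStrictMono (FreeGroup α)] [MulRightStrictMono (FreeGroup α)] (k : ℕ) :
    Representation K (FreeGroup α) (Fin k →₀ DD K α) where
  toFun g :=
    { toFun := fun v => u K g • v
      map_add' := fun v w => smul_add _ _ _
      map_smul' := fun r v => smul_comm _ _ _ }
  map_one' := by
    refine LinearMap.ext fun f => ?_
    change u K (1 : FreeGroup α) • f = f
    rw [u_one, one_smul]
  map_mul' g h := by
    refine LinearMap.ext fun f => ?_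
    change u K (g * h) • f = u K g • (u K h • f)
    rw [u_mul, mul_smul]

theorem regRep2_apply (k : ℕ) (g : FreeGroup α) (f : Fin k →₀ DD K α) :
    regRep2 K α k g f = u K g • f := rfl

theorem Zc_regRep2 (k : ℕ) : ∀ z ∈ Zc (regRep2 K α k), z = 0 := by
  intro z hz
  have hadm := adm_of_mem hz
  have h1 : ∀ (i : Fin k) g x, (regRep2 K α k g (cf g (z x))) i = 0 := by
    intro i
    refine adm_regular (regRep K α) regRep_apply
      (m := fun g x => (regRep2 K α k g (cf g (z x))) i) ?_
    refine ⟨hadm.flow.map (Finsupp.lapply i : (Fin k →₀ DD K α) →ₗ[K] DD K α), ?_, ?_⟩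
    · refine hadm.pwo.mono ?_
      rintro g ⟨x, hx⟩
      refine ⟨x, fun h0 => hx ?_⟩
      change (regRep2 K α k g (cf g (z x))) i = 0
      change regRep2 K α k g (cf g (z x)) = 0 at h0
      rw [h0]; rfl
    · obtain ⟨V, hV, hV'⟩ := hadm.fd
      refine ⟨V.map (Finsupp.lapply i : (Fin k →₀ DD K α) →ₗ[K] DD K α), inferInstance,
        fun g x => ⟨_, hV' g x, ?_⟩⟩
      rfl
  ext1 x
  apply cf_ext
  intro g
  have h2 : regRep2 K α k g (cf g (z x)) = 0 := by
    ext1 i
    exact h1 i g x
  rw [regRep2_apply] at h2
  have h3 : cf g (z x) = 0 := by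
    have := congrArg (fun t => u K g⁻¹ • t) h2
    simpa only [← mul_smul, u_inv_mul, one_smul, smul_zero] using this
  rw [h3, Finsupp.coe_zero, Pi.zero_apply, map_zero]

section

variable {k : ℕ} (φ : (Fin d →₀ DD K α) →ₗ[DD K α] (Fin k →₀ DD K α))

/-- the map of `K[F]^d` to tuples of series given by a linear map -/
noncomputable def thetaV : (Fin d → MonoidAlgebra K (FreeGroup α)) →ₗ[K] (Fin k →₀ DD K α) :=
  (φ.restrictScalars K) ∘ₗ nuB (freeB (stdB K α d))

theorem thetaV_apply (p : Fin d → MonoidAlgebra K (FreeGroup α)) :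
    thetaV φ p = φ (nuB (freeB (stdB K α d)) p) := rfl

theorem thetaV_single (g : FreeGroup α) (p : Fin d → MonoidAlgebra K (FreeGroup α)) :
    thetaV φ (MonoidAlgebra.single g (1 : K) • p) = u K g • thetaV φ p := by
  rw [thetaV_apply, thetaV_apply]
  have h := nuB_rho (isFree_freeB (stdB K α d)) g p
  rw [rp_apply] at h
  rw [h, map_smul]

/-- the kernel is a submodule -/
noncomputable def kerV : Submodule (MonoidAlgebra K (FreeGroup α)) (Fin d → MonoidAlgebra K (FreeGroup α)) where
  carrier := {p | thetaV φ p = 0}
  zero_mem' := map_zero _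
  add_mem' {p q} hp hq := by
    change thetaV φ (p + q) = 0
    rw [map_add, hp, hq, add_zero]
  smul_mem' a p hp := by
    change thetaV φ (a • p) = 0
    induction a using MonoidAlgebra.induction_linear with
    | zero => rw [zero_smul, map_zero]
    | add a b ha hb => rw [add_smul, map_add, ha, hb, add_zero]
    | single g r =>
      have h1 : MonoidAlgebra.single g r = r • (MonoidAlgebra.single g (1 : K)) := by
        rw [MonoidAlgebra.smul_single, smul_eq_mul, mul_one]
      rw [h1, smul_assoc, map_smul, thetaV_single]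
      change r • (u K g • thetaV φ p) = 0
      rw [show thetaV φ p = 0 from hp, smul_zero, smul_zero]

theorem mem_kerV {p : Fin d → MonoidAlgebra K (FreeGroup α)} : p ∈ kerV φ ↔ thetaV φ p = 0 := Iff.rfl

end

/-- a quotient map with given kernel -/
theorem exists_quot (R : Submodule (DD K α) (Fin d →₀ DD K α)) :
    ∃ (k : ℕ) (φ : (Fin d →₀ DD K α) →ₗ[DD K α] (Fin k →₀ DD K α)), LinearMap.ker φ = R := by
  let b := Module.finBasis (DD K α) ((Fin d →₀ DD K α) ⧸ R)
  refine ⟨_, b.repr.toLinearMap.comp R.mkQ, ?_⟩
  rw [LinearMap.ker_comp, LinearEquiv.ker, Submodule.comap_bot, Submodule.ker_mkQ]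

theorem mem_range_of_mem {J : Type}
    (M : Submodule (MonoidAlgebra K (FreeGroup α)) (Fin d → MonoidAlgebra K (FreeGroup α)))
    (b : Basis J (MonoidAlgebra K (FreeGroup α)) M) {p : Fin d → MonoidAlgebra K (FreeGroup α)}
    (hp : p ∈ M) : nuB (freeB (stdB K α d)) p ∈ LinearMap.range (matB M b) := by
  obtain ⟨k, φ, hφ⟩ := exists_quot (LinearMap.range (matB M b))
  rw [← hφ]
  have h1 : (⟨p, hp⟩ : M) ∈ Submodule.span (MonoidAlgebra K (FreeGroup α)) (Set.range b) :=
    b.mem_span _
  have h2 : Submodule.span (MonoidAlgebra K (FreeGroup α)) (Set.range b) ≤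
      (kerV φ).comap M.subtype := by
    rw [Submodule.span_le]
    rintro _ ⟨j, rfl⟩
    change thetaV φ (b j : Fin d → MonoidAlgebra K (FreeGroup α)) = 0
    have h3 : nuB (freeB (stdB K α d)) (b j : Fin d → _) ∈ LinearMap.range (matB M b) :=
      ⟨Finsupp.single j 1, by rw [matB_single, one_smul]⟩
    rw [← hφ] at h3
    exact h3
  have h4 := Submodule.mem_comap.1 (h2 h1)
  rw [Submodule.subtype_apply] at h4
  exact h4

/-- The module is contained in a module with as many generators as the rank over the series. -/
theorem exists_inner {J : Type}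
    (M : Submodule (MonoidAlgebra K (FreeGroup α)) (Fin d → MonoidAlgebra K (FreeGroup α)))
    (b : Basis J (MonoidAlgebra K (FreeGroup α)) M) :
    ∃ (n : ℕ) (v : Fin n → Fin d → MonoidAlgebra K (FreeGroup α)),
      n ≤ finrank (DD K α) (LinearMap.range (matB M b)) ∧
      M ≤ Submodule.span (MonoidAlgebra K (FreeGroup α)) (Set.range v) := by
  classical
  obtain ⟨k, φ, hφ⟩ := exists_quot (LinearMap.range (matB M b))
  have hle : M ≤ kerV φ := by
    intro p hp
    have := mem_range_of_mem M b hp
    rw [← hφ] at this
    exact this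
  obtain ⟨J', ⟨b'⟩⟩ := cohn_lewin (kerV φ)
  obtain ⟨Φ, hΦ⟩ := snake_ker' (ρ := regRep2 K α k) (π := thetaV φ) (kerV φ) b'
    (fun g p => thetaV_single φ g p) (fun p => (mem_kerV φ).symm)
  have hinj : Function.Injective (matB (kerV φ) b') := by
    rw [injective_iff_map_eq_zero]
    intro v hv
    have h1 : Φ ⟨v, hv⟩ = 0 := Subtype.ext (Zc_regRep2 k _ (Φ ⟨v, hv⟩).2)
    have h3 := hΦ (h1.trans (map_zero Φ).symm)
    exact congrArg Subtype.val h3
  have hrange : LinearMap.range (matB (kerV φ) b') ≤ LinearMap.range (matB M b) := by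
    rw [← hφ]
    rintro _ ⟨v, rfl⟩
    induction v using Finsupp.induction_linear with
    | zero => rw [map_zero]; exact Submodule.zero_mem _
    | add x y hx hy => rw [map_add]; exact Submodule.add_mem _ hx hy
    | single j δ =>
      rw [matB_single]
      exact Submodule.smul_mem _ _ (b' j).2
  have hfin : Module.Finite (DD K α) (J' →₀ DD K α) := Module.Finite.of_injective _ hinj
  have hJ : Finite J' := by
    have := Module.Finite.finite_basis (Finsupp.basisSingleOne (R := DD K α) (ι := J'))
    exact this
  have := Fintype.ofFinite J'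
  have h4 := LinearMap.finrank_range_of_inj hinj
  rw [Module.finrank_finsupp_self] at h4
  refine ⟨Fintype.card J',
    fun i => (b' ((Fintype.equivFin J').symm i) : Fin d → MonoidAlgebra K (FreeGroup α)), ?_, ?_⟩
  · rw [← h4]
    exact Submodule.finrank_mono hrange
  · refine hle.trans ?_
    intro p hp
    have h1 : (⟨p, hp⟩ : kerV φ) ∈ Submodule.span (MonoidAlgebra K (FreeGroup α)) (Set.range b') :=
      b'.mem_span _
    have h2 : Submodule.span (MonoidAlgebra K (FreeGroup α)) (Set.range b') ≤
        (Submodule.span (MonoidAlgebra K (FreeGroup α)) (Set.range fun i =>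
          (b' ((Fintype.equivFin J').symm i) : Fin d → MonoidAlgebra K (FreeGroup α)))).comap
          (kerV φ).subtype := by
      rw [Submodule.span_le]
      rintro _ ⟨j, rfl⟩
      refine Submodule.subset_span ⟨Fintype.equivFin J' j, ?_⟩
      simp
    have h4 := Submodule.mem_comap.1 (h2 h1)
    rwa [Submodule.subtype_apply] at h4

theorem nuB_smul (a : MonoidAlgebra K (FreeGroup α)) (p : Fin d → MonoidAlgebra K (FreeGroup α)) :
    nuB (freeB (stdB K α d)) (a • p) = emb a • nuB (freeB (stdB K α d)) p := by
  ext1 k
  rw [nuB_stdB, Pi.smul_apply, smul_eq_mul, map_mul, Finsupp.smul_apply, nuB_stdB, smul_eq_mul]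

/-- The rank over the series is at most the number of generators of a module containing it. -/
theorem le_inner {J : Type}
    (M : Submodule (MonoidAlgebra K (FreeGroup α)) (Fin d → MonoidAlgebra K (FreeGroup α)))
    (b : Basis J (MonoidAlgebra K (FreeGroup α)) M) {n : ℕ}
    (v : Fin n → Fin d → MonoidAlgebra K (FreeGroup α))
    (hv : M ≤ Submodule.span (MonoidAlgebra K (FreeGroup α)) (Set.range v)) :
    finrank (DD K α) (LinearMap.range (matB M b)) ≤ n := by
  classical
  have h1 : LinearMap.range (matB M b) ≤ Submodule.span (DD K α)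
      (Set.range fun i => nuB (freeB (stdB K α d)) (v i)) := by
    have key : ∀ p ∈ Submodule.span (MonoidAlgebra K (FreeGroup α)) (Set.range v),
        nuB (freeB (stdB K α d)) p ∈ Submodule.span (DD K α)
          (Set.range fun i => nuB (freeB (stdB K α d)) (v i)) := by
      intro p hp
      induction hp using Submodule.span_induction with
      | mem x hx => obtain ⟨i, rfl⟩ := hx; exact Submodule.subset_span ⟨i, rfl⟩
      | zero => rw [map_zero]; exact Submodule.zero_mem _
      | add x y _ _ hx hy => rw [map_add]; exact Submodule.add_mem _ hx hy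
      | smul a x _ hx => rw [nuB_smul]; exact Submodule.smul_mem _ _ hx
    rintro _ ⟨w, rfl⟩
    induction w using Finsupp.induction_linear with
    | zero => rw [map_zero]; exact Submodule.zero_mem _
    | add x y hx hy => rw [map_add]; exact Submodule.add_mem _ hx hy
    | single j δ =>
      rw [matB_single]
      exact Submodule.smul_mem _ _ (key _ (hv (b j).2))
  have h2 := Submodule.finrank_mono h1
  have h3 := finrank_range_le_card (R := DD K α) (fun i => nuB (freeB (stdB K α d)) (v i))
  rw [Fintype.card_fin] at h3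
  exact h2.trans h3

end

end Pool.Agent.Helper166_HN
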