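import Pool.Agent.Helper166_HN.Rep

set_option autoImplicit false
set_option linter.unusedSectionVars false

namespace Pool.Agent.Helper166_HN

open Module
open scoped TensorProduct

variable {K : Type} [Field K] {G : Type} [Group G]

/-! ### Parts -/

open Classical in
theorem ker_part_coeff (H : Subgroup G) {d : ℕ} (s : G ⧸ H) (a : Fin d → MonoidAlgebra K G)
    (k : Fin d) (g : G) : (part K H s a k).coeff g =
      if (QuotientGroup.mk g : G ⧸ H) = s then (a k).coeff g else 0 := by
  change ((a k).coeff.filter (fun g => (QuotientGroup.mk g : G ⧸ H) = s)) g = _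
  rw [Finsupp.filter_apply]

theorem ker_ext {d : ℕ} {a b : Fin d → MonoidAlgebra K G}
    (h : ∀ k g, (a k).coeff g = (b k).coeff g) : a = b :=
  funext fun k => MonoidAlgebra.ext (Finsupp.ext fun g => h k g)

theorem ker_part_add (H : Subgroup G) {d : ℕ} (s : G ⧸ H) (a b : Fin d → MonoidAlgebra K G) :
    part K H s (a + b) = part K H s a + part K H s b := by
  classical
  apply ker_ext
  intro k g
  rw [Pi.add_apply, MonoidAlgebra.coeff_add, Finsupp.add_apply, ker_part_coeff, ker_part_coeff,
    ker_part_coeff, Pi.add_apply, MonoidAlgebra.coeff_add, Finsupp.add_apply]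
  split_ifs
  · rfl
  · rw [add_zero]

theorem ker_part_smul (H : Subgroup G) {d : ℕ} (s : G ⧸ H) (r : K)
    (a : Fin d → MonoidAlgebra K G) :
    part K H s (r • a) = r • part K H s a := by
  classical
  apply ker_ext
  intro k g
  rw [Pi.smul_apply, MonoidAlgebra.coeff_smul, Finsupp.smul_apply, ker_part_coeff,
    ker_part_coeff, Pi.smul_apply, MonoidAlgebra.coeff_smul, Finsupp.smul_apply]
  split_ifs
  · rfl
  · rw [smul_zero]

/-- the part on a coset as a linear map -/
noncomputable def ker_partL (K : Type) [Field K] {G : Type} [Group G] (H : Subgroup G) {d : ℕ}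
    (s : G ⧸ H) : (Fin d → MonoidAlgebra K G) →ₗ[K] (Fin d → MonoidAlgebra K G) where
  toFun := part K H s
  map_add' := ker_part_add H s
  map_smul' r a := ker_part_smul H s r a

theorem ker_part_zero (H : Subgroup G) {d : ℕ} (s : G ⧸ H) :
    part K H s (0 : Fin d → MonoidAlgebra K G) = 0 := map_zero (ker_partL K H s)

theorem ker_single_mul_coeff (g h : G) (r : K) (x : MonoidAlgebra K G) :
    (MonoidAlgebra.single g r * x).coeff h = r * x.coeff (g⁻¹ * h) :=
  MonoidAlgebra.coeff_single_mul_eq_mul_coeff _ (fun _ _ => eq_inv_mul_iff_mul_eq.symm)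

theorem ker_mul_single_coeff {L : Type} [Group L] (g h : L) (r : K) (x : MonoidAlgebra K L) :
    (x * MonoidAlgebra.single g r).coeff h = x.coeff (h * g⁻¹) * r :=
  MonoidAlgebra.coeff_mul_single_eq_coeff_mul _ (fun _ _ => eq_mul_inv_iff_mul_eq.symm)

theorem ker_part_single_smul (H : Subgroup G) {d : ℕ} (s : G ⧸ H) (g : G) (r : K)
    (a : Fin d → MonoidAlgebra K G) :
    part K H s (MonoidAlgebra.single g r • a) =
      MonoidAlgebra.single g r • part K H (g⁻¹ • s) a := by
  classical
  apply ker_ext
  intro k h
  rw [Pi.smul_apply, smul_eq_mul, ker_single_mul_coeff, ker_part_coeff, ker_part_coeff,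
    Pi.smul_apply, smul_eq_mul, ker_single_mul_coeff]
  have : ((QuotientGroup.mk (g⁻¹ * h) : G ⧸ H) = g⁻¹ • s) ↔ ((QuotientGroup.mk h : G ⧸ H) = s) := by
    rw [← smul_eq_mul, ← MulAction.Quotient.smul_mk, smul_left_cancel_iff]
  simp only [this]
  split_ifs
  · rfl
  · rw [mul_zero]

/-- the elements of `K[G]^d` whose parts on all left cosets are in `M` -/
noncomputable def cosetwise {d : ℕ} (M : Submodule (MonoidAlgebra K G) (Fin d → MonoidAlgebra K G))
    (H : Subgroup G) : Submodule (MonoidAlgebra K G) (Fin d → MonoidAlgebra K G) where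
  carrier := {a | ∀ s : G ⧸ H, part K H s a ∈ M}
  zero_mem' := by
    intro s
    rw [ker_part_zero]
    exact M.zero_mem
  add_mem' := by
    intro a b ha hb s
    rw [ker_part_add]
    exact M.add_mem (ha s) (hb s)
  smul_mem' := by
    intro c a ha
    induction c using MonoidAlgebra.induction_linear with
    | zero =>
      intro s
      rw [zero_smul, ker_part_zero]
      exact M.zero_mem
    | add x y hx hy =>
      intro s
      rw [add_smul, ker_part_add]
      exact M.add_mem (hx s) (hy s)
    | single g r =>
      intro s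
      rw [ker_part_single_smul]
      exact M.smul_mem _ (ha _)

theorem mem_cosetwise {d : ℕ} {M : Submodule (MonoidAlgebra K G) (Fin d → MonoidAlgebra K G)}
    {H : Subgroup G} {a : Fin d → MonoidAlgebra K G} :
    a ∈ cosetwise M H ↔ ∀ s : G ⧸ H, part K H s a ∈ M := Iff.rfl

/-! ### The restriction to a coset -/

/-- the restriction to the coset `gH`, seen in `K[H]` -/
noncomputable def ker_down (H : Subgroup G) (g : G) (x : MonoidAlgebra K G) : MonoidAlgebra K H :=
  MonoidAlgebra.ofCoeff (x.coeff.comapDomain (fun h : H => g * (h : G))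
    (fun _ _ _ _ e => Subtype.ext (mul_left_cancel e)))

theorem ker_down_coeff (H : Subgroup G) (g : G) (x : MonoidAlgebra K G) (h : H) :
    (ker_down H g x).coeff h = x.coeff (g * (h : G)) := rfl

theorem ker_down_add (H : Subgroup G) (g : G) (x y : MonoidAlgebra K G) :
    ker_down H g (x + y) = ker_down H g x + ker_down H g y := by
  apply MonoidAlgebra.ext
  apply Finsupp.ext
  intro h
  rw [MonoidAlgebra.coeff_add, Finsupp.add_apply, ker_down_coeff, ker_down_coeff, ker_down_coeff,
    MonoidAlgebra.coeff_add, Finsupp.add_apply]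

theorem ker_down_zero (H : Subgroup G) (g : G) :
    ker_down H g (0 : MonoidAlgebra K G) = 0 := by
  apply MonoidAlgebra.ext
  apply Finsupp.ext
  intro h
  rfl

/-- the restriction as an additive map -/
noncomputable def ker_downA (K : Type) [Field K] {G : Type} [Group G] (H : Subgroup G) (g : G) :
    MonoidAlgebra K G →+ MonoidAlgebra K H where
  toFun := ker_down H g
  map_zero' := ker_down_zero H g
  map_add' := ker_down_add H g

theorem ker_down_mul (H : Subgroup G) (g : G) (x : MonoidAlgebra K G) (y : MonoidAlgebra K H) :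
    ker_down H g (x * MonoidAlgebra.mapDomainRingHom K H.subtype y) = ker_down H g x * y := by
  induction y using MonoidAlgebra.induction_linear with
  | zero => rw [map_zero, mul_zero, mul_zero, ker_down_zero]
  | add y z hy hz => rw [map_add, mul_add, mul_add, ker_down_add, hy, hz]
  | single h r =>
    rw [MonoidAlgebra.mapDomainRingHom_apply, MonoidAlgebra.mapDomain_single]
    apply MonoidAlgebra.ext
    apply Finsupp.ext
    intro h'
    rw [ker_down_coeff, ker_mul_single_coeff, ker_mul_single_coeff, ker_down_coeff]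
    congr 2
    change g * (h' : G) * (h : G)⁻¹ = g * ((h' * h⁻¹ : H) : G)
    rw [Subgroup.coe_mul, Subgroup.coe_inv, mul_assoc]

/-- the values of `incl` -/
theorem ker_incl_coeff_mem (H : Subgroup G) {d : ℕ} (v : Fin d → MonoidAlgebra K H) (k : Fin d)
    (h : H) : (incl K H d v k).coeff (h : G) = (v k).coeff h := by
  change (Finsupp.mapDomain (H.subtype) (v k).coeff) (H.subtype h) = _
  exact Finsupp.mapDomain_apply H.subtype_injective _ _

theorem ker_incl_coeff_notMem (H : Subgroup G) {d : ℕ} (v : Fin d → MonoidAlgebra K H) (k : Fin d)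
    (g : G) (hg : g ∉ H) : (incl K H d v k).coeff g = 0 := by
  change (Finsupp.mapDomain (H.subtype) (v k).coeff) g = _
  apply Finsupp.mapDomain_of_notMem_range
  rintro ⟨h, rfl⟩
  exact hg h.2

/-- the part on the coset of `g` from the restriction -/
theorem ker_part_eq (H : Subgroup G) {d : ℕ} (g : G) (a : Fin d → MonoidAlgebra K G) :
    part K H (QuotientGroup.mk g) a =
      (MonoidAlgebra.single g (1 : K)) • incl K H d (fun k => ker_down H g (a k)) := by
  classical
  apply ker_ext
  intro k x
  rw [ker_part_coeff, Pi.smul_apply, smul_eq_mul, ker_single_mul_coeff, one_mul]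
  split_ifs with hx
  · have hm : g⁻¹ * x ∈ H := QuotientGroup.eq.1 hx.symm
    have := ker_incl_coeff_mem H (fun k => ker_down H g (a k)) k ⟨g⁻¹ * x, hm⟩
    change (incl K H d (fun k => ker_down H g (a k)) k).coeff (g⁻¹ * x) = _ at this
    rw [this, ker_down_coeff]
    change _ = (a k).coeff (g * (g⁻¹ * x))
    rw [mul_inv_cancel_left]
  · rw [ker_incl_coeff_notMem]
    intro hm
    exact hx (QuotientGroup.eq.2 hm).symm

theorem ker_part_incl (H : Subgroup G) {d : ℕ} (s : G ⧸ H) (v : Fin d → MonoidAlgebra K H) :
    part K H s (incl K H d v) = incl K H d v ∨ part K H s (incl K H d v) = 0 := by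
  classical
  by_cases hs : (QuotientGroup.mk (1 : G) : G ⧸ H) = s
  · left
    apply ker_ext
    intro k g
    rw [ker_part_coeff]
    split_ifs with hg
    · rfl
    · rw [ker_incl_coeff_notMem]
      intro hm
      apply hg
      rw [← hs, QuotientGroup.eq, mul_one]
      exact H.inv_mem hm
  · right
    apply ker_ext
    intro k g
    rw [ker_part_coeff]
    split_ifs with hg
    · rw [ker_incl_coeff_notMem]
      · rfl
      · intro hm
        apply hs
        rw [← hg, QuotientGroup.eq, inv_one, one_mul]
        exact hm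
    · rfl

theorem ker_incl_mem_cosetwise {d : ℕ}
    (M : Submodule (MonoidAlgebra K G) (Fin d → MonoidAlgebra K G))
    (H : Subgroup G) {v : Fin d → MonoidAlgebra K H} (hv : v ∈ inter M H) :
    incl K H d v ∈ cosetwise M H := by
  intro s
  rcases ker_part_incl H s v with h | h
  · rw [h]; exact hv
  · rw [h]; exact M.zero_mem

theorem ker_down_mem {d : ℕ} (M : Submodule (MonoidAlgebra K G) (Fin d → MonoidAlgebra K G))
    (H : Subgroup G) (g : G) {a : Fin d → MonoidAlgebra K G}
    (ha : part K H (QuotientGroup.mk g) a ∈ M) :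
    (fun k => ker_down H g (a k)) ∈ inter M H := by
  change incl K H d _ ∈ M
  have := M.smul_mem (MonoidAlgebra.single g⁻¹ (1 : K)) ha
  rw [ker_part_eq, ← mul_smul, MonoidAlgebra.single_mul_single, inv_mul_cancel, one_mul,
    ← MonoidAlgebra.one_def, one_smul] at this
  exact this

theorem ker_sum_parts (H : Subgroup G) {d : ℕ} (a : Fin d → MonoidAlgebra K G) :
    ∃ S : Finset (G ⧸ H), a = ∑ s ∈ S, part K H s a := by
  classical
  refine ⟨Finset.univ.biUnion fun k : Fin d => (a k).coeff.support.image (QuotientGroup.mk), ?_⟩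
  apply ker_ext
  intro k g
  rw [Finset.sum_apply, MonoidAlgebra.coeff_sum, Finsupp.finsetSum_apply]
  simp only [ker_part_coeff]
  rw [Finset.sum_ite_eq]
  split_ifs with hg
  · rfl
  · by_contra hne
    apply hg
    rw [Finset.mem_biUnion]
    exact ⟨k, Finset.mem_univ _, Finset.mem_image.2 ⟨g, Finsupp.mem_support_iff.2 hne, rfl⟩⟩

theorem ker_incl_smul (H : Subgroup G) {d : ℕ} (a : MonoidAlgebra K H)
    (v : Fin d → MonoidAlgebra K H) :
    incl K H d (a • v) = (MonoidAlgebra.mapDomainRingHom K H.subtype a) • incl K H d v :=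
  funext fun k => map_mul (MonoidAlgebra.mapDomainRingHom K H.subtype) a (v k)

/-- a basis of the intersection with `K[H]^d` is a basis of the module of cosetwise members -/
theorem cosetwise_basis {d : ℕ} (M : Submodule (MonoidAlgebra K G) (Fin d → MonoidAlgebra K G))
    (H : Subgroup G) {J : Type} (b : Basis J (MonoidAlgebra K H) (inter M H)) :
    ∃ b' : Basis J (MonoidAlgebra K G) (cosetwise M H),
      ∀ j, (b' j : Fin d → MonoidAlgebra K G) = incl K H d (b j : Fin d → MonoidAlgebra K H) := by
  classical
  set w : J → cosetwise M H := fun j => ⟨incl K H d (b j : Fin d → MonoidAlgebra K H),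
    ker_incl_mem_cosetwise M H (b j).2⟩ with hw
  have hli : LinearIndependent (MonoidAlgebra K G) w := by
    rw [linearIndependent_iff']
    intro S c hc j hj
    have hc' : ∑ i ∈ S, c i • incl K H d (b i : Fin d → MonoidAlgebra K H) = 0 := by
      have := congrArg (Subtype.val) hc
      rw [Submodule.coe_sum] at this
      exact this
    have key : ∀ g : G, ker_down H g (c j) = 0 := by
      intro g
      have h2 : ∑ i ∈ S, ker_down H g (c i) • b i = 0 := by
        apply Subtype.ext
        rw [Submodule.coe_sum]
        funext k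
        rw [Finset.sum_apply]
        have h3 : ker_downA K H g ((∑ i ∈ S, c i • incl K H d (b i : Fin d → MonoidAlgebra K H)) k)
            = 0 := by
          rw [hc']
          exact map_zero _
        rw [Finset.sum_apply, map_sum] at h3
        refine Eq.trans ?_ h3
        apply Finset.sum_congr rfl
        intro i _
        exact (ker_down_mul H g (c i) ((b i : Fin d → MonoidAlgebra K H) k)).symm
      exact linearIndependent_iff'.1 b.linearIndependent S _ h2 j hj
    apply MonoidAlgebra.ext
    apply Finsupp.ext
    intro g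
    have := congrArg (fun x : MonoidAlgebra K H => x.coeff 1) (key g)
    change (ker_down H g (c j)).coeff 1 = 0 at this
    rw [ker_down_coeff, Subgroup.coe_one, mul_one] at this
    exact this
  have hsp : ⊤ ≤ Submodule.span (MonoidAlgebra K G) (Set.range w) := by
    rintro ⟨a, ha⟩ -
    -- it is enough to work in the ambient module
    have hmain : a ∈ Submodule.span (MonoidAlgebra K G)
        (Set.range fun j => incl K H d (b j : Fin d → MonoidAlgebra K H)) := by
      obtain ⟨S, hS⟩ := ker_sum_parts H a
      rw [hS]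
      apply Submodule.sum_mem
      intro s _
      obtain ⟨g, rfl⟩ := QuotientGroup.mk_surjective s
      rw [ker_part_eq]
      apply Submodule.smul_mem
      have hv := ker_down_mem M H g (ha (QuotientGroup.mk g))
      have hr := b.linearCombination_repr ⟨_, hv⟩
      have hr' : ∑ i ∈ (b.repr ⟨_, hv⟩).support, (b.repr ⟨_, hv⟩) i • b i = ⟨_, hv⟩ := by
        rw [Finsupp.linearCombination_apply, Finsupp.sum] at hr
        exact hr
      have hr2 := congrArg (fun x : inter M H => incl K H d (x : Fin d → MonoidAlgebra K H)) hr'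
      simp only [Submodule.coe_sum, map_sum, Submodule.coe_smul, ker_incl_smul] at hr2
      rw [← hr2]
      apply Submodule.sum_mem
      intro i _
      apply Submodule.smul_mem
      exact Submodule.subset_span ⟨i, rfl⟩
    have hmap : Submodule.span (MonoidAlgebra K G)
        (Set.range fun j => incl K H d (b j : Fin d → MonoidAlgebra K H)) =
        (Submodule.span (MonoidAlgebra K G) (Set.range w)).map (cosetwise M H).subtype := by
      rw [Submodule.map_span, ← Set.range_comp]
      rfl
    rw [hmap] at hmain
    obtain ⟨y, hy, hya⟩ := hmain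
    have : y = ⟨a, ha⟩ := Subtype.ext hya
    rw [← this]
    exact hy
  refine ⟨Basis.mk hli hsp, fun j => ?_⟩
  rw [Basis.mk_apply]

/-- the value of `diag` -/
theorem diag_apply {N : Type} [AddCommGroup N] [Module K N] (H : Subgroup G) {d : ℕ}
    (f : (Fin d → MonoidAlgebra K G) →ₗ[K] N) (k : Fin d) (g : G) :
    diag H f (Pi.single k (MonoidAlgebra.single g 1)) =
      f (Pi.single k (MonoidAlgebra.single g 1)) ⊗ₜ Finsupp.single (QuotientGroup.mk g) 1 := by
  unfold diag
  rw [LinearMap.lsum_piSingle]
  change Finsupp.lsum ℕ _ (Finsupp.single g (1 : K)) = _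
  rw [Finsupp.lsum_single, LinearMap.toSpanSingleton_apply, one_smul]

/-- linear maps on `K[G]^d` agree if they agree on the group elements -/
theorem ker_hom_ext {N : Type} [AddCommGroup N] [Module K N] {d : ℕ}
    {f f' : (Fin d → MonoidAlgebra K G) →ₗ[K] N}
    (h : ∀ k g, f (Pi.single k (MonoidAlgebra.single g 1)) =
      f' (Pi.single k (MonoidAlgebra.single g 1))) : f = f' := by
  apply LinearMap.pi_ext
  intro k x
  induction x using MonoidAlgebra.induction_linear with
  | zero => rw [Pi.single_zero, map_zero, map_zero]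
  | add x y hx hy => rw [Pi.single_add, map_add, map_add, hx, hy]
  | single g r =>
    have : (Pi.single k (MonoidAlgebra.single g r) : Fin d → MonoidAlgebra K G) =
        r • Pi.single k (MonoidAlgebra.single g (1 : K)) := by
      rw [← Pi.single_smul, MonoidAlgebra.smul_single, smul_eq_mul, mul_one]
    rw [this, map_smul, map_smul, h]

theorem ker_part_single (H : Subgroup G) {d : ℕ} (s : G ⧸ H) (k : Fin d) (g : G) (r : K)
    [Decidable ((QuotientGroup.mk g : G ⧸ H) = s)] :
    part K H s (Pi.single k (MonoidAlgebra.single g r)) =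
      if (QuotientGroup.mk g : G ⧸ H) = s then Pi.single k (MonoidAlgebra.single g r) else 0 := by
  classical
  apply ker_ext
  intro k' x
  rw [ker_part_coeff]
  by_cases hk : k' = k
  · subst hk
    rw [Pi.single_eq_same]
    by_cases hx : g = x
    · subst hx
      split_ifs with h1
      · rw [Pi.single_eq_same]
      · rfl
    · have h0 : (MonoidAlgebra.single g r).coeff x = 0 := by
        rw [MonoidAlgebra.coeff_single, Finsupp.single_eq_of_ne]
        exact fun h => hx h.symm
      rw [h0]
      split_ifs
      · rw [Pi.single_eq_same, h0]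
      · rfl
      · rw [Pi.single_eq_same, h0]
      · rfl
  · rw [Pi.single_eq_of_ne hk]
    split_ifs
    · rw [Pi.single_eq_of_ne hk]
    · rfl
    · rw [Pi.single_eq_of_ne hk]
      rfl
    · rfl

open Classical in
theorem ker_coord {N : Type} [AddCommGroup N] [Module K N] {d : ℕ} (H : Subgroup G)
    (f : (Fin d → MonoidAlgebra K G) →ₗ[K] N) (a : Fin d → MonoidAlgebra K G) (s : G ⧸ H) :
    TensorProduct.finsuppScalarRight K K N (G ⧸ H) (diag H f a) s = f (part K H s a) := by
  classical
  have : (Finsupp.lapply s) ∘ₗ (TensorProduct.finsuppScalarRight K K N (G ⧸ H)).toLinearMap ∘ₗ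
      diag H f = f ∘ₗ ker_partL K H s := by
    apply ker_hom_ext
    intro k g
    change TensorProduct.finsuppScalarRight K K N (G ⧸ H)
      (diag H f (Pi.single k (MonoidAlgebra.single g 1))) s = f (part K H s _)
    rw [diag_apply, TensorProduct.finsuppScalarRight_apply_tmul_apply, ker_part_single,
      Finsupp.single_apply]
    split_ifs
    · rw [one_smul]
    · rw [zero_smul, map_zero]
  exact congrArg (fun l : (Fin d → MonoidAlgebra K G) →ₗ[K] N => l a) this

/-- the kernel of `diag` -/
theorem diag_eq_zero_iff {N : Type} [AddCommGroup N] [Module K N] {d : ℕ}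
    (M : Submodule (MonoidAlgebra K G) (Fin d → MonoidAlgebra K G)) (H : Subgroup G)
    (f : (Fin d → MonoidAlgebra K G) →ₗ[K] N) (hf : ∀ a, f a = 0 ↔ a ∈ M)
    (a : Fin d → MonoidAlgebra K G) : diag H f a = 0 ↔ a ∈ cosetwise M H := by
  classical
  rw [← (TensorProduct.finsuppScalarRight K K N (G ⧸ H)).map_eq_zero_iff, Finsupp.ext_iff,
    mem_cosetwise]
  refine forall_congr' fun s => ?_
  rw [ker_coord, ← hf]
  rfl

/-- `diag` is equivariant -/
theorem diag_equivariant {N : Type} [AddCommGroup N] [Module K N] {d : ℕ}
    (H : Subgroup G) (ρ : Representation K G N) (f : (Fin d → MonoidAlgebra K G) →ₗ[K] N)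
    (hf : ∀ g a, f (MonoidAlgebra.single g (1 : K) • a) = ρ g (f a)) (g : G)
    (a : Fin d → MonoidAlgebra K G) :
    diag H f (MonoidAlgebra.single g (1 : K) • a) =
      (ρ.tprod (cosRep K H)) g (diag H f a) := by
  have : (diag H f) ∘ₗ (rp (K := K) (Fin d → MonoidAlgebra K G) g) =
      ((ρ.tprod (cosRep K H)) g) ∘ₗ (diag H f) := by
    apply ker_hom_ext
    intro k h
    change diag H f (MonoidAlgebra.single g (1 : K) • Pi.single k (MonoidAlgebra.single h 1)) =
      (ρ.tprod (cosRep K H)) g (diag H f (Pi.single k (MonoidAlgebra.single h 1)))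
    have h1 : (MonoidAlgebra.single g (1 : K) • Pi.single k (MonoidAlgebra.single h 1) :
        Fin d → MonoidAlgebra K G) = Pi.single k (MonoidAlgebra.single (g * h) 1) := by
      rw [← Pi.single_smul, smul_eq_mul, MonoidAlgebra.single_mul_single, one_mul]
    rw [h1, diag_apply, diag_apply, ← h1, hf, Representation.tprod_apply,
      TensorProduct.map_tmul, cosRep_single]
    rfl
  exact congrArg (fun l : (Fin d → MonoidAlgebra K G) →ₗ[K] N ⊗[K] (G ⧸ H →₀ K) => l a) this

end Pool.Agent.Helper166_HN
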