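import Pool.Agent.Helper166_HN.Defs

/-!
# Leading values of admissible flows
-/

set_option autoImplicit false
set_option linter.unusedSectionVars false

namespace Pool.Agent.Helper166_HN

open Pool.Agent.Y125.MN Pool.Agent.Y125.MN.Ser Module
open scoped TensorProduct

variable {K : Type} [Field K] {α : Type}
variable {M N : Type} [AddCommGroup M] [Module K M] [AddCommGroup N] [Module K N]

theorem IsFlow.mono {m : FreeGroup α → α → N} {S : Finset α} (h1 : ∀ g, ∀ x ∉ S, m g x = 0)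
    (h : IsFlow m) : ∀ g, ∑ x ∈ S, (m (g * (FreeGroup.of x)⁻¹) x - m g x) = 0 := by
  classical
  obtain ⟨T, hT, hT'⟩ := h
  intro g
  have e1 : ∑ x ∈ S, (m (g * (FreeGroup.of x)⁻¹) x - m g x) =
      ∑ x ∈ S ∪ T, (m (g * (FreeGroup.of x)⁻¹) x - m g x) := by
    refine Finset.sum_subset Finset.subset_union_left fun x _ hx => ?_
    rw [h1 _ x hx, h1 _ x hx, sub_zero]
  have e2 : ∑ x ∈ T, (m (g * (FreeGroup.of x)⁻¹) x - m g x) =
      ∑ x ∈ S ∪ T, (m (g * (FreeGroup.of x)⁻¹) x - m g x) := by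
    refine Finset.sum_subset Finset.subset_union_right fun x _ hx => ?_
    rw [hT _ x hx, hT _ x hx, sub_zero]
  rw [e1, ← e2, hT' g]

theorem IsFlow.zero : IsFlow (0 : FreeGroup α → α → N) :=
  ⟨∅, fun _ _ _ => rfl, fun _ => rfl⟩

theorem IsFlow.map {m : FreeGroup α → α → N} (h : IsFlow m) (f : N →ₗ[K] M) :
    IsFlow (fun g x => f (m g x)) := by
  obtain ⟨T, hT, hT'⟩ := h
  refine ⟨T, fun g x hx => by simp [hT g x hx], fun g => ?_⟩
  rw [← map_zero f, ← hT' g, map_sum]
  simp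

theorem IsFlow.add {m m' : FreeGroup α → α → N} (h : IsFlow m) (h' : IsFlow m') :
    IsFlow (m + m') := by
  classical
  obtain ⟨S, hS, _⟩ := id h
  obtain ⟨T, hT, _⟩ := id h'
  have a1 : ∀ g, ∀ x ∉ S ∪ T, m g x = 0 := fun g x hx =>
    hS g x (fun hx' => hx (Finset.mem_union_left _ hx'))
  have a2 : ∀ g, ∀ x ∉ S ∪ T, m' g x = 0 := fun g x hx =>
    hT g x (fun hx' => hx (Finset.mem_union_right _ hx'))
  refine ⟨S ∪ T, fun g x hx => by rw [Pi.add_apply, Pi.add_apply, a1 g x hx, a2 g x hx, add_zero],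
    fun g => ?_⟩
  have e1 := h.mono a1 g
  have e2 := h'.mono a2 g
  have : ∑ x ∈ S ∪ T, ((m + m') (g * (FreeGroup.of x)⁻¹) x - (m + m') g x) =
      ∑ x ∈ S ∪ T, (m (g * (FreeGroup.of x)⁻¹) x - m g x) +
        ∑ x ∈ S ∪ T, (m' (g * (FreeGroup.of x)⁻¹) x - m' g x) := by
    rw [← Finset.sum_add_distrib]
    refine Finset.sum_congr rfl fun x _ => ?_
    simp only [Pi.add_apply]
    abel
  rw [this, e1, e2, add_zero]

variable [LinearOrder (FreeGroup α)] [MulLeftStrictMono (FreeGroup α)]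
  [MulRightStrictMono (FreeGroup α)]

theorem Adm.zero (ρ : Representation K (FreeGroup α) N) : Adm ρ 0 where
  flow := IsFlow.zero
  pwo := by
    convert (Set.finite_empty (α := FreeGroup α)).isPWO
    ext g
    simp
  fd := ⟨⊥, inferInstance, fun g x => by simp⟩

theorem Adm.add {ρ : Representation K (FreeGroup α) N} {m m' : FreeGroup α → α → N}
    (h : Adm ρ m) (h' : Adm ρ m') : Adm ρ (m + m') where
  flow := h.flow.add h'.flow
  pwo := by
    refine (h.pwo.union h'.pwo).mono ?_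
    rintro g ⟨x, hx⟩
    by_contra hcon
    simp only [Set.mem_union, Set.mem_setOf_eq, not_or, not_exists, not_not] at hcon
    apply hx
    rw [Pi.add_apply, Pi.add_apply, hcon.1 x, hcon.2 x, add_zero]
  fd := by
    obtain ⟨V, hV, hV'⟩ := h.fd
    obtain ⟨W, hW, hW'⟩ := h'.fd
    refine ⟨V ⊔ W, inferInstance, fun g x => ?_⟩
    rw [Pi.add_apply, Pi.add_apply, map_add]
    exact Submodule.add_mem_sup (hV' g x) (hW' g x)

theorem Adm.smul {ρ : Representation K (FreeGroup α) N} {m : FreeGroup α → α → N}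
    (h : Adm ρ m) (r : K) : Adm ρ (r • m) where
  flow := by
    have := h.flow.map (r • (LinearMap.id : N →ₗ[K] N))
    exact this
  pwo := by
    refine h.pwo.mono ?_
    rintro g ⟨x, hx⟩
    refine ⟨x, fun h0 => hx ?_⟩
    rw [Pi.smul_apply, Pi.smul_apply, h0, smul_zero]
  fd := by
    obtain ⟨V, hV, hV'⟩ := h.fd
    refine ⟨V, hV, fun g x => ?_⟩
    rw [Pi.smul_apply, Pi.smul_apply, map_smul]
    exact V.smul_mem _ (hV' g x)

/-- The leading values at the label `y`: the values at the edge `(1, y)` of admissible flows which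
vanish on all smaller edges. -/
noncomputable def Ld [LinearOrder α] (ρ : Representation K (FreeGroup α) N) (y : α) :
    Submodule K N where
  carrier := {q | ∃ m, Adm ρ m ∧ (∀ g x, Below y g x → m g x = 0) ∧ m 1 y = q}
  zero_mem' := ⟨0, Adm.zero ρ, fun _ _ _ => rfl, rfl⟩
  add_mem' := by
    rintro _ _ ⟨m, hm, hb, rfl⟩ ⟨m', hm', hb', rfl⟩
    exact ⟨m + m', hm.add hm', fun g x hx => by
      rw [Pi.add_apply, Pi.add_apply, hb g x hx, hb' g x hx, add_zero], rfl⟩
  smul_mem' := by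
    rintro r _ ⟨m, hm, hb, rfl⟩
    exact ⟨r • m, hm.smul r, fun g x hx => by
      rw [Pi.smul_apply, Pi.smul_apply, hb g x hx, smul_zero], rfl⟩

theorem mem_Ld [LinearOrder α] {ρ : Representation K (FreeGroup α) N} {y : α} {q : N} :
    q ∈ Ld ρ y ↔ ∃ m, Adm ρ m ∧ (∀ g x, Below y g x → m g x = 0) ∧ m 1 y = q := Iff.rfl

end Pool.Agent.Helper166_HN
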