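import Pool.Agent.Helper166_HN.Chain

set_option autoImplicit false
set_option linter.unusedSectionVars false

namespace Pool.Agent.Helper166_HN

open Pool.Agent.Y125.MN Pool.Agent.Y125.MN.Ser Module
open scoped TensorProduct

variable {K : Type} [Field K] {α : Type} [LinearOrder α]
variable [LinearOrder (FreeGroup α)] [MulLeftStrictMono (FreeGroup α)]
  [MulRightStrictMono (FreeGroup α)]
variable {N : Type} [AddCommGroup N] [Module K N]

theorem lea_inj (ρ : Representation K (FreeGroup α) N) (g : FreeGroup α) {v : N}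
    (h : ρ g v = 0) : v = 0 := by
  have h1 : ρ g⁻¹ (ρ g v) = v := by
    rw [← Module.End.mul_apply, ← map_mul, inv_mul_cancel, map_one, Module.End.one_apply]
  rw [← h1, h, map_zero]

/-- lifts of leading values -/
theorem lea_lift (ρ : Representation K (FreeGroup α) N) {y : α} {q : N} (hq : q ∈ Ld ρ y) :
    ∃ z : Zc ρ, (∀ g < 1, ∀ x, cf g (z.1 x) = 0) ∧ (∀ x < y, cf 1 (z.1 x) = 0) ∧
      cf 1 (z.1 y) = q := by
  obtain ⟨m, hm, hb, rfl⟩ := mem_Ld.1 hq
  obtain ⟨z, hz, hz'⟩ := mem_of_adm hm
  refine ⟨⟨z, hz⟩, fun g hg x => ?_, fun x hx => ?_, ?_⟩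
  · refine lea_inj ρ g ?_
    rw [hz' g x, hb g x (Or.inl hg)]
  · refine lea_inj ρ 1 ?_
    rw [hz' 1 x, hb 1 x (Or.inr ⟨rfl, hx⟩)]
  · have := hz' 1 y
    rw [map_one] at this
    exact this

/-- the least exponent in a finite family of series -/
theorem lea_min {I : Type} [Fintype I] (δ : I → DD K α) (h : ∃ i, δ i ≠ 0) :
    ∃ g₀ : FreeGroup α, (∃ i, c (δ i) g₀ ≠ 0) ∧ ∀ i, ∀ g < g₀, c (δ i) g = 0 := by
  classical
  have hpwo : (⋃ i ∈ (Finset.univ : Finset I), Function.support (c (δ i))).IsPWO := by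
    have : ∀ s : Finset I, (⋃ i ∈ s, Function.support (c (δ i))).IsPWO := by
      intro s
      induction s using Finset.induction_on with
      | empty => simp
      | insert a s _ ih =>
        rw [Finset.set_biUnion_insert]
        exact (Ser.pwo (δ a)).union ih
    exact this _
  have hne : (⋃ i ∈ (Finset.univ : Finset I), Function.support (c (δ i))).Nonempty := by
    obtain ⟨i, hi⟩ := h
    obtain ⟨a, ha⟩ := exists_lead hi
    exact ⟨a, Set.mem_biUnion (Finset.mem_coe.2 (Finset.mem_univ i)) ha.1⟩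
  have hwf := hpwo.isWF
  refine ⟨hwf.min hne, ?_, fun i g hg => ?_⟩
  · have := hwf.min_mem hne
    simp only [Set.mem_iUnion] at this
    obtain ⟨i, _, hi⟩ := this
    exact ⟨i, hi⟩
  · by_contra hcon
    exact hwf.not_lt_min hne (Set.mem_biUnion (Finset.mem_coe.2 (Finset.mem_univ i)) hcon) hg

/-- independent leading values lift to independent cycles -/
theorem lea_key (ρ : Representation K (FreeGroup α) N) [Module.Finite (DD K α) (Zc ρ)]
    {I : Type} [Fintype I] (y : I → α) (q : I → N) (hq : ∀ i, q i ∈ Ld ρ (y i))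
    (hind : ∀ (y₀ : α) (a : I → K), (∀ i, y i ≠ y₀ → a i = 0) → ∑ i, a i • q i = 0 → a = 0) :
    Fintype.card I ≤ finrank (DD K α) (Zc ρ) := by
  classical
  choose z hz1 hz2 hz3 using fun i => lea_lift ρ (hq i)
  have hli : LinearIndependent (DD K α) z := by
    refine (@Fintype.linearIndependent_iff I (DD K α) (Zc ρ) DivisionRing.toRing _ _ z _).2
      fun δ hδ => ?_
    by_contra hcon
    push Not at hcon
    obtain ⟨g₀, ⟨i₀, hi₀⟩, hg⟩ := lea_min δ hcon
    obtain ⟨i₁, hi₁, hmin⟩ := Finset.exists_min_image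
      (Finset.univ.filter fun i => c (δ i) g₀ ≠ 0) y ⟨i₀, by simp [hi₀]⟩
    have hi₁' : c (δ i₁) g₀ ≠ 0 := by simpa using hi₁
    have h1 : ∑ i, δ i • (z i).1 (y i₁) = 0 := by
      have h2 := congrArg (fun t : Zc ρ => t.1 (y i₁)) hδ
      simpa [Submodule.coe_sum, Finsupp.finsetSum_apply] using h2
    have h3 : ∑ i, c (δ i) g₀ • cf 1 ((z i).1 (y i₁)) = 0 := by
      have h4 := congrArg (cf (g₀ * 1)) h1
      rw [map_sum, map_zero] at h4
      rw [← h4]
      refine Finset.sum_congr rfl fun i _ => ?_
      exact ((cf_smul_lead (hg i) (fun g hg1 => hz1 i g hg1 _)).2).symm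
    have h5 := hind (y i₁) (fun i => if y i = y i₁ then c (δ i) g₀ else 0)
      (fun i hi => if_neg hi) (by
        rw [← h3]
        refine Finset.sum_congr rfl fun i _ => ?_
        by_cases h : y i = y i₁
        · rw [if_pos h, ← h, hz3]
        · rw [if_neg h, zero_smul]
          by_cases hc : c (δ i) g₀ = 0
          · rw [hc, zero_smul]
          · have h6 := hmin i (by simp [hc])
            rw [hz2 i _ (lt_of_le_of_ne h6 (Ne.symm h)), smul_zero])
    have h6 := congrFun h5 i₁
    simp only [if_true, Pi.zero_apply] at h6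
    exact hi₁' h6
  exact hli.fintype_card_le_finrank

/-- The leading values are bounded by the dimension of the space of cycles over the series. -/
theorem lead_le (ρ : Representation K (FreeGroup α) N) [Module.Finite (DD K α) (Zc ρ)] :
    (∀ y, FiniteDimensional K (Ld ρ y)) ∧
    ∀ S : Finset α, ∑ y ∈ S, finrank K (Ld ρ y) ≤ finrank (DD K α) (Zc ρ) := by
  classical
  have hfd : ∀ y, FiniteDimensional K (Ld ρ y) := by
    intro y
    have h1 : Module.rank K (Ld ρ y) ≤ (finrank (DD K α) (Zc ρ) : ℕ) := by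
      refine rank_le fun s hs => ?_
      have := lea_key ρ (I := s) (fun _ => y) (fun i => ((i : Ld ρ y) : N))
        (fun i => (i : Ld ρ y).2) (fun y₀ a _ ha => by
          rw [Fintype.linearIndependent_iff] at hs
          funext i
          refine hs a ?_ i
          apply Subtype.ext
          simpa [Submodule.coe_sum] using ha)
      simpa using this
    exact Module.rank_lt_aleph0_iff.1 (h1.trans_lt (Cardinal.natCast_lt_aleph0))
  refine ⟨hfd, fun S => ?_⟩
  let b : ∀ y, Basis (Fin (finrank K (Ld ρ y))) K (Ld ρ y) := fun y => finBasis K (Ld ρ y)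
  have key := lea_key ρ (I := Σ y : S, Fin (finrank K (Ld ρ y.1))) (fun i => i.1.1)
    (fun i => (b i.1.1 i.2 : N)) (fun i => (b i.1.1 i.2).2) (fun y₀ a ha hs => by
      rw [Fintype.sum_sigma] at hs
      funext ⟨y, k⟩
      by_cases hy : y.1 = y₀
      · subst hy
        have h1 : ∑ k, a ⟨y, k⟩ • (b y.1 k : N) = 0 := by
          rw [← hs]
          symm
          refine Finset.sum_eq_single (f := fun x : S => ∑ k, a ⟨x, k⟩ • (b x.1 k : N)) y
            (fun x _ hx => ?_) (fun h => absurd (Finset.mem_univ y) h)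
          refine Finset.sum_eq_zero fun k _ => ?_
          rw [ha ⟨x, k⟩ (fun h => hx (Subtype.ext h)), zero_smul]
        have h2 := (b y.1).linearIndependent
        rw [Fintype.linearIndependent_iff] at h2
        refine h2 (fun k => a ⟨y, k⟩) ?_ k
        apply Subtype.ext
        simpa [Submodule.coe_sum] using h1
      · exact ha _ hy)
  rw [Fintype.card_sigma] at key
  simp only [Fintype.card_fin] at key
  rw [← Finset.sum_coe_sort S (fun y => finrank K (Ld ρ y))]
  exact key

end Pool.Agent.Helper166_HN
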