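import Pool.Agent.Helper166_HN.Chain

set_option autoImplicit false
set_option linter.unusedSectionVars false

namespace Pool.Agent.Helper166_HN

open Pool.Agent.Y125.MN Pool.Agent.Y125.MN.Ser Module
open scoped TensorProduct

variable {K : Type} [Field K] {α : Type} [LinearOrder α]
variable [LinearOrder (FreeGroup α)] [MulLeftStrictMono (FreeGroup α)]
  [MulRightStrictMono (FreeGroup α)]
variable {N : Type} [AddCommGroup N] [Module K N]

theorem leb_cf_smul (g : FreeGroup α) (r : K) (t : DD K α ⊗[K] N) :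
    cf g (algebraMap K (DD K α) r • t) = r • cf g t := by
  rw [algebraMap_smul, map_smul]

/-- the leading values of a space of chains -/
noncomputable def lebLW (W : Submodule (DD K α) (α →₀ DD K α ⊗[K] N)) (y : α) :
    Submodule K N where
  carrier := {q | ∃ w ∈ W, (∀ g x, Below y g x → cf g (w x) = 0) ∧ cf 1 (w y) = q}
  zero_mem' := ⟨0, W.zero_mem, fun _ _ _ => by simp, by simp⟩
  add_mem' := by
    rintro _ _ ⟨m, hm, hb, rfl⟩ ⟨m', hm', hb', rfl⟩
    exact ⟨m + m', W.add_mem hm hm', fun g x hx => by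
      rw [Finsupp.add_apply, map_add, hb g x hx, hb' g x hx, add_zero], by
      rw [Finsupp.add_apply, map_add]⟩
  smul_mem' := by
    rintro r _ ⟨m, hm, hb, rfl⟩
    exact ⟨algebraMap K (DD K α) r • m, W.smul_mem _ hm, fun g x hx => by
      rw [Finsupp.smul_apply, leb_cf_smul, hb g x hx, smul_zero], by
      rw [Finsupp.smul_apply, leb_cf_smul]⟩

theorem leb_LW_mono {W W' : Submodule (DD K α) (α →₀ DD K α ⊗[K] N)} (h : W' ≤ W) (y : α) :
    lebLW W' y ≤ lebLW W y := by
  rintro _ ⟨w, hw, hb, rfl⟩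
  exact ⟨w, h hw, hb, rfl⟩

theorem leb_LW_le (ρ : Representation K (FreeGroup α) N)
    (W : Submodule (DD K α) (α →₀ DD K α ⊗[K] N)) (hW : W ≤ Zc ρ) (y : α) :
    lebLW W y ≤ Ld ρ y := by
  rintro _ ⟨w, hw, hb, rfl⟩
  refine ⟨_, adm_of_mem (hW hw), fun g x hx => ?_, ?_⟩
  · rw [hb g x hx, map_zero]
  · simp

/-- the coordinates of an element of `DD ⊗ N` -/
noncomputable def lebC (f : N →ₗ[K] K) : DD K α ⊗[K] N →ₗ[DD K α] DD K α :=
  (TensorProduct.AlgebraTensorModule.rid K (DD K α) (DD K α)).toLinearMap ∘ₗ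
    (TensorProduct.AlgebraTensorModule.map LinearMap.id f)

theorem leb_C_tmul (f : N →ₗ[K] K) (δ : DD K α) (n : N) :
    lebC f (δ ⊗ₜ[K] n) = f n • δ := rfl

theorem leb_c_C (f : N →ₗ[K] K) (t : DD K α ⊗[K] N) (g : FreeGroup α) :
    c (lebC f t) g = f (cf g t) := by
  induction t using TensorProduct.induction_on with
  | zero => simp
  | tmul δ n => rw [leb_C_tmul, cf_tmul, c_smul, map_smul, smul_eq_mul, mul_comm]
  | add a b ha hb => rw [map_add, c_add, Pi.add_apply, ha, hb, map_add, map_add]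

/-- a nonzero chain can be translated such that its least edge is at `1` -/
theorem leb_normalize (w₀ : α →₀ DD K α ⊗[K] N) (h0 : w₀ ≠ 0) :
    ∃ g₀ : FreeGroup α, ∃ x₀ : α, cf 1 ((u K g₀⁻¹ • w₀) x₀) ≠ 0 ∧
      ∀ g x, Below x₀ g x → cf g ((u K g₀⁻¹ • w₀) x) = 0 := by
  classical
  have hpwo : {g | ∃ x, cf g (w₀ x) ≠ 0}.IsPWO := by
    have h1 : (⋃ x ∈ w₀.support, {g | cf g (w₀ x) ≠ 0}).IsPWO := by
      refine (Finset.isPWO_bUnion (s := w₀.support) (f := fun x => {g | cf g (w₀ x) ≠ 0})).2 ?_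
      intro x _
      exact cf_pwo _
    refine h1.mono ?_
    rintro g ⟨x, hx⟩
    simp only [Set.mem_iUnion]
    refine ⟨x, ?_, hx⟩
    rw [Finsupp.mem_support_iff]
    intro h
    apply hx
    rw [h, map_zero]
  have hne : {g | ∃ x, cf g (w₀ x) ≠ 0}.Nonempty := by
    by_contra hcon
    apply h0
    ext x
    apply cf_ext
    intro g
    by_contra hg
    refine hcon ⟨g, x, ?_⟩
    simpa using hg
  have hwf := hpwo.isWF
  set g₀ := hwf.min hne with hg₀
  have hmem : ∃ x, cf g₀ (w₀ x) ≠ 0 := hwf.min_mem hne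
  have hlt : ∀ g < g₀, ∀ x, cf g (w₀ x) = 0 := by
    intro g hg x
    by_contra hx
    exact hwf.not_lt_min hne ⟨x, hx⟩ hg
  have hfin : (w₀.support.filter (fun x => cf g₀ (w₀ x) ≠ 0)).Nonempty := by
    obtain ⟨x, hx⟩ := hmem
    refine ⟨x, ?_⟩
    rw [Finset.mem_filter, Finsupp.mem_support_iff]
    refine ⟨?_, hx⟩
    intro h
    apply hx
    rw [h, map_zero]
  set x₀ := (w₀.support.filter (fun x => cf g₀ (w₀ x) ≠ 0)).min' hfin with hx₀
  have hx₀mem : cf g₀ (w₀ x₀) ≠ 0 := (Finset.mem_filter.1 (Finset.min'_mem _ hfin)).2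
  have hx₀lt : ∀ x < x₀, cf g₀ (w₀ x) = 0 := by
    intro x hx
    by_contra hcon
    have hm : x ∈ w₀.support.filter (fun x => cf g₀ (w₀ x) ≠ 0) := by
      rw [Finset.mem_filter, Finsupp.mem_support_iff]
      refine ⟨?_, hcon⟩
      intro h
      apply hcon
      rw [h, map_zero]
    exact absurd (Finset.min'_le _ _ hm) (not_le.2 hx)
  refine ⟨g₀, x₀, ?_, ?_⟩
  · rw [Finsupp.smul_apply, cf_u_smul, inv_inv, mul_one]
    exact hx₀mem
  · intro g x hb
    rw [Finsupp.smul_apply, cf_u_smul, inv_inv]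
    rcases hb with hb | ⟨rfl, hb⟩
    · apply hlt
      have := mul_lt_mul_right hb g₀
      rwa [mul_one] at this
    · rw [mul_one]
      exact hx₀lt x hb

/-- the claim -/
theorem leb_claim (ρ : Representation K (FreeGroup α) N) (hfd : ∀ y, FiniteDimensional K (Ld ρ y))
    (k : ℕ) : ∀ (W : Submodule (DD K α) (α →₀ DD K α ⊗[K] N)) (_ : W ≤ Zc ρ)
    (_ : Module.Finite (DD K α) W) (_ : finrank (DD K α) W = k),
    ∃ S : Finset α, finrank (DD K α) W ≤ ∑ y ∈ S, finrank K (lebLW W y) := by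
  classical
  induction k using Nat.strong_induction_on with
  | _ k ih =>
    intro W hW hfin hk
    by_cases hbot : W = ⊥
    · subst hbot
      exact ⟨∅, by simp⟩
    obtain ⟨w₀, hw₀, hne⟩ := W.ne_bot_iff.1 hbot
    obtain ⟨g₀, x₀, h1, h2⟩ := leb_normalize w₀ hne
    set w : α →₀ DD K α ⊗[K] N := u K g₀⁻¹ • w₀ with hw
    have hwW : w ∈ W := W.smul_mem _ hw₀
    obtain ⟨f, hf⟩ : ∃ f : N →ₗ[K] K, f (cf 1 (w x₀)) ≠ 0 := by
      by_contra hcon
      push Not at hcon
      exact h1 ((Module.forall_dual_apply_eq_zero_iff K _).1 hcon)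
    let Φ : (α →₀ DD K α ⊗[K] N) →ₗ[DD K α] DD K α := lebC f ∘ₗ Finsupp.lapply x₀
    let W' : Submodule (DD K α) (α →₀ DD K α ⊗[K] N) := W ⊓ LinearMap.ker Φ
    have hW'W : W' ≤ W := inf_le_left
    have hΦ : ∀ v, Φ v = lebC f (v x₀) := fun v => rfl
    have hwnot : w ∉ W' := by
      intro hmem
      have h3 : Φ w = 0 := hmem.2
      rw [hΦ] at h3
      apply hf
      rw [← leb_c_C, h3, c_zero, Pi.zero_apply]
    have hlt : W' < W := lt_of_le_of_ne hW'W (fun h => hwnot (h ▸ hwW))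
    have hfin' : Module.Finite (DD K α) W' := Submodule.finiteDimensional_of_le hW'W
    have hrk : finrank (DD K α) W' < finrank (DD K α) W := Submodule.finrank_lt_finrank_of_lt hlt
    have hrk2 : finrank (DD K α) W ≤ finrank (DD K α) W' + 1 := by
      have h3 := LinearMap.finrank_range_add_finrank_ker (K := DD K α) (V := W) (V₂ := DD K α)
        (Φ.domRestrict W)
      have h4 : finrank (DD K α) (LinearMap.range (Φ.domRestrict W)) ≤ 1 := by
        have := Submodule.finrank_le (LinearMap.range (Φ.domRestrict W))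
        rwa [Module.finrank_self] at this
      have h5 : finrank (DD K α) (LinearMap.ker (Φ.domRestrict W)) ≤ finrank (DD K α) W' := by
        have h6 : ∀ v : LinearMap.ker (Φ.domRestrict W), ((v : W) : α →₀ DD K α ⊗[K] N) ∈ W' :=
          fun v => ⟨v.1.2, v.2⟩
        let j : LinearMap.ker (Φ.domRestrict W) →ₗ[DD K α] W' :=
          LinearMap.codRestrict W' (W.subtype ∘ₗ (LinearMap.ker (Φ.domRestrict W)).subtype) h6
        refine LinearMap.finrank_le_finrank_of_injective (f := j) ?_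
        intro a b hab
        have h7 : ((j a : W') : α →₀ DD K α ⊗[K] N) = (j b : W') := by rw [hab]
        exact Subtype.ext (Subtype.ext h7)
      omega
    obtain ⟨S', hS'⟩ := ih _ (hk ▸ hrk) W' (hW'W.trans hW) hfin' rfl
    have hfdW : ∀ y, FiniteDimensional K (lebLW W y) := fun y => by
      have := hfd y
      exact Submodule.finiteDimensional_of_le (leb_LW_le ρ W hW y)
    refine ⟨insert x₀ S', ?_⟩
    have hs1 : ∑ y ∈ S', finrank K (lebLW W' y) ≤ ∑ y ∈ insert x₀ S', finrank K (lebLW W' y) :=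
      Finset.sum_le_sum_of_subset (Finset.subset_insert _ _)
    have hs2 : ∑ y ∈ insert x₀ S', finrank K (lebLW W' y) <
        ∑ y ∈ insert x₀ S', finrank K (lebLW W y) := by
      refine Finset.sum_lt_sum (fun y _ => ?_) ⟨x₀, Finset.mem_insert_self _ _, ?_⟩
      · have := hfdW y
        exact Submodule.finrank_mono (leb_LW_mono hW'W y)
      · have := hfdW x₀
        refine Submodule.finrank_lt_finrank_of_lt (lt_of_le_of_ne (leb_LW_mono hW'W x₀) ?_)
        intro heq
        have hq : cf 1 (w x₀) ∈ lebLW W x₀ := ⟨w, hwW, h2, rfl⟩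
        rw [← heq] at hq
        obtain ⟨v, hv, _, hv2⟩ := hq
        have h3 : Φ v = 0 := hv.2
        rw [hΦ] at h3
        apply hf
        rw [← hv2, ← leb_c_C, h3, c_zero, Pi.zero_apply]
    omega

/-- A finite-dimensional space of cycles is bounded by the leading values. -/
theorem le_lead (ρ : Representation K (FreeGroup α) N) (hfd : ∀ y, FiniteDimensional K (Ld ρ y))
    (W : Submodule (DD K α) (α →₀ DD K α ⊗[K] N)) (hW : W ≤ Zc ρ) [Module.Finite (DD K α) W] :
    ∃ S : Finset α, finrank (DD K α) W ≤ ∑ y ∈ S, finrank K (Ld ρ y) := by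
  obtain ⟨S, hS⟩ := leb_claim ρ hfd _ W hW inferInstance rfl
  refine ⟨S, hS.trans (Finset.sum_le_sum fun y _ => ?_)⟩
  have := hfd y
  exact Submodule.finrank_mono (leb_LW_le ρ W hW y)

end Pool.Agent.Helper166_HN
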