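import Pool.Agent.Helper166_HN.Ld

set_option autoImplicit false
set_option linter.unusedSectionVars false

namespace Pool.Agent.Helper166_HN

open Pool.Agent.Y125.MN Pool.Agent.Y125.MN.Ser Module
open scoped TensorProduct

section prdlin

variable {K : Type} [Field K]
variable {M N : Type} [AddCommGroup M] [Module K M] [AddCommGroup N] [Module K N]

/-- contraction of the right factor with a functional -/
noncomputable def prd_A (psi : N →ₗ[K] K) : M ⊗[K] N →ₗ[K] M :=
  (TensorProduct.rid K M).toLinearMap ∘ₗ LinearMap.lTensor M psi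

theorem prd_A_tmul (psi : N →ₗ[K] K) (m : M) (n : N) :
    prd_A psi (m ⊗ₜ[K] n) = psi n • m := by
  simp [prd_A]

/-- contraction of the left factor with a functional -/
noncomputable def prd_B (phi : M →ₗ[K] K) : M ⊗[K] N →ₗ[K] N :=
  (TensorProduct.lid K N).toLinearMap ∘ₗ LinearMap.rTensor N phi

theorem prd_B_tmul (phi : M →ₗ[K] K) (m : M) (n : N) :
    prd_B phi (m ⊗ₜ[K] n) = phi m • n := by
  simp [prd_B]

theorem prd_fd_gen {W V : Type} [AddCommGroup W] [Module K W] [AddCommGroup V] [Module K V]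
    {I : Type} (A : I → W →ₗ[K] V)
    (h : ∀ u : W, ∃ X : Submodule K V, FiniteDimensional K X ∧ ∀ i, A i u ∈ X)
    (U : Submodule K W) (hU : FiniteDimensional K U) :
    ∃ X : Submodule K V, FiniteDimensional K X ∧ ∀ u ∈ U, ∀ i, A i u ∈ X := by
  classical
  obtain ⟨s, hs⟩ := (Submodule.fg_iff_finiteDimensional U).2 hU
  choose X hX hX' using h
  refine ⟨s.sup X, Submodule.finiteDimensional_finset_sup s X, fun w hw i => ?_⟩
  rw [← hs] at hw
  have hle : Submodule.span K (s : Set W) ≤ Submodule.comap (A i) (s.sup X) := by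
    rw [Submodule.span_le]
    intro v hv
    exact (Finset.le_sup (f := X) (Finset.mem_coe.1 hv)) (hX' v i)
  exact hle hw

theorem prd_fdA (w : M ⊗[K] N) :
    ∃ X : Submodule K M, FiniteDimensional K X ∧ ∀ psi : N →ₗ[K] K, prd_A psi w ∈ X := by
  induction w using TensorProduct.induction_on with
  | zero => exact ⟨⊥, inferInstance, fun psi => by simp⟩
  | tmul m n =>
    refine ⟨Submodule.span K {m}, inferInstance, fun psi => ?_⟩
    rw [prd_A_tmul]
    exact Submodule.smul_mem _ _ (Submodule.mem_span_singleton_self m)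
  | add a b ha hb =>
    obtain ⟨V, hV, hV'⟩ := ha
    obtain ⟨W, hW, hW'⟩ := hb
    refine ⟨V ⊔ W, inferInstance, fun psi => ?_⟩
    rw [map_add]
    exact Submodule.add_mem_sup (hV' psi) (hW' psi)

theorem prd_fdB (w : M ⊗[K] N) :
    ∃ X : Submodule K N, FiniteDimensional K X ∧ ∀ phi : M →ₗ[K] K, prd_B phi w ∈ X := by
  induction w using TensorProduct.induction_on with
  | zero => exact ⟨⊥, inferInstance, fun psi => by simp⟩
  | tmul m n =>
    refine ⟨Submodule.span K {n}, inferInstance, fun psi => ?_⟩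
    rw [prd_B_tmul]
    exact Submodule.smul_mem _ _ (Submodule.mem_span_singleton_self n)
  | add a b ha hb =>
    obtain ⟨V, hV, hV'⟩ := ha
    obtain ⟨W, hW, hW'⟩ := hb
    refine ⟨V ⊔ W, inferInstance, fun psi => ?_⟩
    rw [map_add]
    exact Submodule.add_mem_sup (hV' psi) (hW' psi)

theorem prd_sepA (t : M ⊗[K] N) (h : ∀ psi : N →ₗ[K] K, prd_A psi t = 0) : t = 0 := by
  classical
  let b := Basis.ofVectorSpace K N
  apply (TensorProduct.equivFinsuppOfBasisRight (M := M) b).injective
  rw [map_zero]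
  ext i
  have e : (Finsupp.lapply i : (_ →₀ M) →ₗ[K] M) ∘ₗ
      (TensorProduct.equivFinsuppOfBasisRight (M := M) b).toLinearMap = prd_A (b.coord i) := by
    apply TensorProduct.ext'
    intro m n
    rw [prd_A_tmul]
    simp
  have e2 := LinearMap.congr_fun e t
  rw [h] at e2
  simpa using e2

theorem prd_sepB (t : M ⊗[K] N) (h : ∀ phi : M →ₗ[K] K, prd_B phi t = 0) : t = 0 := by
  classical
  apply (TensorProduct.comm K M N).injective
  rw [map_zero]
  apply prd_sepA
  intro psi
  have e : prd_A psi ∘ₗ (TensorProduct.comm K M N).toLinearMap = prd_B psi := by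
    apply TensorProduct.ext'
    intro m n
    rw [prd_B_tmul]
    simp [prd_A_tmul]
  have e2 := LinearMap.congr_fun e t
  rw [h] at e2
  exact e2

theorem prd_range (E : Submodule K M) (E' : Submodule K N) (q : M ⊗[K] N)
    (hA : ∀ psi : N →ₗ[K] K, prd_A psi q ∈ E) (hB : ∀ phi : M →ₗ[K] K, prd_B phi q ∈ E') :
    q ∈ LinearMap.range (TensorProduct.map E.subtype E'.subtype) := by
  obtain ⟨f, hf⟩ := LinearMap.exists_leftInverse_of_injective E.subtype
    (LinearMap.ker_eq_bot.2 E.injective_subtype)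
  obtain ⟨f', hf'⟩ := LinearMap.exists_leftInverse_of_injective E'.subtype
    (LinearMap.ker_eq_bot.2 E'.injective_subtype)
  have h1 : ∀ x ∈ E, (E.subtype ∘ₗ f) x = x := fun x hx => by
    have := LinearMap.congr_fun hf ⟨x, hx⟩
    rw [LinearMap.comp_apply, Submodule.subtype_apply, LinearMap.id_apply] at this
    rw [LinearMap.comp_apply, this, Submodule.subtype_apply]
  have h2 : ∀ x ∈ E', (E'.subtype ∘ₗ f') x = x := fun x hx => by
    have := LinearMap.congr_fun hf' ⟨x, hx⟩
    rw [LinearMap.comp_apply, Submodule.subtype_apply, LinearMap.id_apply] at this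
    rw [LinearMap.comp_apply, this, Submodule.subtype_apply]
  have k1 : LinearMap.rTensor N (E.subtype ∘ₗ f) q = q := by
    rw [← sub_eq_zero]
    apply prd_sepA
    intro psi
    have e : prd_A psi ∘ₗ LinearMap.rTensor N (E.subtype ∘ₗ f) =
        (E.subtype ∘ₗ f) ∘ₗ prd_A (M := M) psi := by
      apply TensorProduct.ext'
      intro m n
      rw [LinearMap.comp_apply, LinearMap.comp_apply, LinearMap.rTensor_tmul, prd_A_tmul,
        prd_A_tmul, map_smul]
    have e2 := LinearMap.congr_fun e q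
    rw [LinearMap.comp_apply, LinearMap.comp_apply] at e2
    rw [map_sub, e2, h1 _ (hA psi), sub_self]
  have k2 : LinearMap.lTensor M (E'.subtype ∘ₗ f') q = q := by
    rw [← sub_eq_zero]
    apply prd_sepB
    intro phi
    have e : prd_B phi ∘ₗ LinearMap.lTensor M (E'.subtype ∘ₗ f') =
        (E'.subtype ∘ₗ f') ∘ₗ prd_B (N := N) phi := by
      apply TensorProduct.ext'
      intro m n
      rw [LinearMap.comp_apply, LinearMap.comp_apply, LinearMap.lTensor_tmul, prd_B_tmul,
        prd_B_tmul, map_smul]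
    have e2 := LinearMap.congr_fun e q
    rw [LinearMap.comp_apply, LinearMap.comp_apply] at e2
    rw [map_sub, e2, h2 _ (hB phi), sub_self]
  refine ⟨TensorProduct.map f f' q, ?_⟩
  have e : TensorProduct.map E.subtype E'.subtype ∘ₗ TensorProduct.map f f' =
      LinearMap.lTensor M (E'.subtype ∘ₗ f') ∘ₗ LinearMap.rTensor N (E.subtype ∘ₗ f) := by
    apply TensorProduct.ext'
    intro m n
    simp
  have e2 := LinearMap.congr_fun e q
  rw [LinearMap.comp_apply, LinearMap.comp_apply, k1, k2] at e2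
  exact e2

end prdlin

variable {K : Type} [Field K] {α : Type} [LinearOrder α]
variable [LinearOrder (FreeGroup α)] [MulLeftStrictMono (FreeGroup α)]
  [MulRightStrictMono (FreeGroup α)]
variable {M N : Type} [AddCommGroup M] [Module K M] [AddCommGroup N] [Module K N]

theorem prd_memA (ρ : Representation K (FreeGroup α) M) (σ : Representation K (FreeGroup α) N)
    (y : α) (q : M ⊗[K] N) (hq : q ∈ Ld (ρ.tprod σ) y) (psi : N →ₗ[K] K) :
    prd_A psi q ∈ Ld ρ y := by
  obtain ⟨m, hm, hb, rfl⟩ := mem_Ld.1 hq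
  refine mem_Ld.2 ⟨fun g x => prd_A psi (m g x), ⟨hm.flow.map (prd_A psi), ?_, ?_⟩,
    fun g x hgx => by simp only [hb g x hgx, map_zero], rfl⟩
  · refine hm.pwo.mono ?_
    rintro g ⟨x, hx⟩
    exact ⟨x, fun h0 => hx (by rw [h0, map_zero])⟩
  · obtain ⟨U, hU, hU'⟩ := hm.fd
    obtain ⟨X, hX, hX'⟩ := prd_fd_gen (fun psi : N →ₗ[K] K => prd_A (M := M) psi) prd_fdA U hU
    refine ⟨X, hX, fun g x => ?_⟩
    have e : ρ g⁻¹ ∘ₗ prd_A psi = prd_A (psi ∘ₗ σ g) ∘ₗ (ρ.tprod σ) g⁻¹ := by
      apply TensorProduct.ext'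
      intro a b
      rw [LinearMap.comp_apply, LinearMap.comp_apply, Representation.tprod_apply,
        TensorProduct.map_tmul, prd_A_tmul, prd_A_tmul, map_smul, LinearMap.comp_apply,
        ← Module.End.mul_apply, ← map_mul, mul_inv_cancel, map_one, Module.End.one_apply]
    have e2 := LinearMap.congr_fun e (m g x)
    rw [LinearMap.comp_apply, LinearMap.comp_apply] at e2
    rw [e2]
    exact hX' _ (hU' g x) (psi ∘ₗ σ g)

theorem prd_memB (ρ : Representation K (FreeGroup α) M) (σ : Representation K (FreeGroup α) N)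
    (y : α) (q : M ⊗[K] N) (hq : q ∈ Ld (ρ.tprod σ) y) (phi : M →ₗ[K] K) :
    prd_B phi q ∈ Ld σ y := by
  obtain ⟨m, hm, hb, rfl⟩ := mem_Ld.1 hq
  refine mem_Ld.2 ⟨fun g x => prd_B phi (m g x), ⟨hm.flow.map (prd_B phi), ?_, ?_⟩,
    fun g x hgx => by simp only [hb g x hgx, map_zero], rfl⟩
  · refine hm.pwo.mono ?_
    rintro g ⟨x, hx⟩
    exact ⟨x, fun h0 => hx (by rw [h0, map_zero])⟩
  · obtain ⟨U, hU, hU'⟩ := hm.fd
    obtain ⟨X, hX, hX'⟩ := prd_fd_gen (fun phi : M →ₗ[K] K => prd_B (N := N) phi) prd_fdB U hU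
    refine ⟨X, hX, fun g x => ?_⟩
    have e : σ g⁻¹ ∘ₗ prd_B phi = prd_B (phi ∘ₗ ρ g) ∘ₗ (ρ.tprod σ) g⁻¹ := by
      apply TensorProduct.ext'
      intro a b
      rw [LinearMap.comp_apply, LinearMap.comp_apply, Representation.tprod_apply,
        TensorProduct.map_tmul, prd_B_tmul, prd_B_tmul, map_smul, LinearMap.comp_apply,
        ← Module.End.mul_apply, ← map_mul, mul_inv_cancel, map_one, Module.End.one_apply]
    have e2 := LinearMap.congr_fun e (m g x)
    rw [LinearMap.comp_apply, LinearMap.comp_apply] at e2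
    rw [e2]
    exact hX' _ (hU' g x) (phi ∘ₗ ρ g)

/-- Leading values in a tensor product of representations. -/
theorem lead_prod (ρ : Representation K (FreeGroup α) M) (σ : Representation K (FreeGroup α) N)
    (y : α) (h1 : FiniteDimensional K (Ld ρ y)) (h2 : FiniteDimensional K (Ld σ y)) :
    FiniteDimensional K (Ld (ρ.tprod σ) y) ∧
      finrank K (Ld (ρ.tprod σ) y) ≤ finrank K (Ld ρ y) * finrank K (Ld σ y) := by
  have hle : Ld (ρ.tprod σ) y ≤
      LinearMap.range (TensorProduct.map (Ld ρ y).subtype (Ld σ y).subtype) := fun q hq =>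
    prd_range _ _ q (prd_memA ρ σ y q hq) (prd_memB ρ σ y q hq)
  have hfd : FiniteDimensional K
      (LinearMap.range (TensorProduct.map (Ld ρ y).subtype (Ld σ y).subtype)) := inferInstance
  refine ⟨Submodule.finiteDimensional_of_le hle, (Submodule.finrank_mono hle).trans ?_⟩
  refine (LinearMap.finrank_range_le _).trans ?_
  rw [finrank_tensorProduct]

end Pool.Agent.Helper166_HN
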