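import Pool.Agent.Helper166_HN.Inner
import Pool.Agent.Helper166_HN.LeadA
import Pool.Agent.Helper166_HN.LeadB
import Pool.Agent.Helper166_HN.Prod
import Pool.Agent.Helper166_HN.AugL
import Pool.Agent.Y433.SC.Ord

/-!
# The inequality for left modules
-/

set_option autoImplicit false
set_option linter.unusedSectionVars false

namespace Pool.Agent.Helper166_HN

open Pool.Agent.Y125.MN Pool.Agent.Y125.MN.Ser Module
open scoped TensorProduct

/-- free groups are bi-orderable -/
theorem exists_order (B : Type) : ∃ o : LinearOrder (FreeGroup B),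
    (∀ a b c : FreeGroup B, o.lt a b → o.lt (c * a) (c * b)) ∧
    (∀ a b c : FreeGroup B, o.lt a b → o.lt (a * c) (b * c)) := by
  classical
  letI : AddAction ℤ B :=
    { vadd := fun _ b => b
      zero_vadd := fun _ => rfl
      add_vadd := fun _ _ _ => rfl }
  letI : LinearOrder (Pool.Agent.H129R3.WMon B) := IsWellOrder.linearOrder WellOrderingRel
  letI : LinearOrder (MonoidAlgebra ℚ (Pool.Agent.H129R3.WMon B)) :=
    LinearOrder.lift' (fun x => toLex x.coeff) (by
      intro x y h
      exact MonoidAlgebra.coeff_injective (toLex.injective h))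
  refine Pool.Agent.Y433.SC.abs_ord (A := MonoidAlgebra ℚ (Pool.Agent.H129R3.WMon B)) ?_
    (Pool.Agent.H129R3.magHom ℚ (J := B)) ?_ (fun g => Pool.Agent.H129R3.magHom_zero ℚ g)
  · intro a b c h
    have h' : toLex a.coeff < toLex b.coeff := h
    show toLex (a + c).coeff < toLex (b + c).coeff
    rw [MonoidAlgebra.coeff_add, MonoidAlgebra.coeff_add, toLex_add, toLex_add]
    exact add_lt_add_left h' _
  · intro g h hgh
    have h1 : Pool.Agent.H129R3.mag ℚ (MonoidAlgebra.single g (1:ℚ)) =
        Pool.Agent.H129R3.mag ℚ (MonoidAlgebra.single h (1:ℚ)) := by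
      rw [Pool.Agent.H129R3.mag_single, Pool.Agent.H129R3.mag_single, hgh]
    have h2 := Pool.Agent.H129R3.mag_injective ℚ h1
    have h3 := congrArg MonoidAlgebra.coeff h2
    rw [MonoidAlgebra.coeff_single, MonoidAlgebra.coeff_single] at h3
    exact Finsupp.single_left_injective one_ne_zero h3

section

variable {K : Type} [Field K] {α : Type} [LinearOrder α]
variable [LinearOrder (FreeGroup α)] [MulLeftStrictMono (FreeGroup α)]
  [MulRightStrictMono (FreeGroup α)]

/-- the product inequality -/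
theorem prod_le {M N : Type} [AddCommGroup M] [Module K M] [AddCommGroup N] [Module K N]
    (ρ : Representation K (FreeGroup α) M) (σ : Representation K (FreeGroup α) N)
    (h1 : Module.Finite (DD K α) (Zc ρ)) (h2 : Module.Finite (DD K α) (Zc σ))
    (W : Submodule (DD K α) (α →₀ DD K α ⊗[K] (M ⊗[K] N))) (hW : W ≤ Zc (ρ.tprod σ))
    (hWf : Module.Finite (DD K α) W) :
    finrank (DD K α) W ≤ finrank (DD K α) (Zc ρ) * finrank (DD K α) (Zc σ) := by
  obtain ⟨a1, a2⟩ := lead_le ρ
  obtain ⟨b1, b2⟩ := lead_le σ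
  obtain ⟨S, hS⟩ := le_lead (ρ.tprod σ) (fun y => (lead_prod ρ σ y (a1 y) (b1 y)).1) W hW
  refine hS.trans ?_
  calc ∑ y ∈ S, finrank K (Ld (ρ.tprod σ) y)
      ≤ ∑ y ∈ S, finrank K (Ld ρ y) * finrank K (Ld σ y) :=
        Finset.sum_le_sum fun y _ => (lead_prod ρ σ y (a1 y) (b1 y)).2
    _ ≤ ∑ y ∈ S, finrank K (Ld ρ y) * ∑ y' ∈ S, finrank K (Ld σ y') :=
        Finset.sum_le_sum fun y hy => Nat.mul_le_mul_left _
          (Finset.single_le_sum (f := fun y => finrank K (Ld σ y)) (fun _ _ => Nat.zero_le _) hy)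
    _ = (∑ y ∈ S, finrank K (Ld ρ y)) * ∑ y' ∈ S, finrank K (Ld σ y') := by
        rw [Finset.sum_mul]
    _ ≤ finrank (DD K α) (Zc ρ) * finrank (DD K α) (Zc σ) := Nat.mul_le_mul (a2 S) (b2 S)

/-- the cycles with coefficients in `K[F/H]` -/
theorem cosRep_le (H : Subgroup (FreeGroup α)) (hH : H ≠ ⊥) {r : ℕ} (b : FreeGroupBasis (Fin r) H) :
    Module.Finite (DD K α) (Zc (cosRep K H)) ∧ finrank (DD K α) (Zc (cosRep K H)) + 1 ≤ r := by
  classical
  obtain ⟨c⟩ := augM_basis (K := K) b
  rw [← inter_augM H] at c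
  obtain ⟨c', hc'⟩ := cosetwise_basis (augM K (FreeGroup α)) H c
  have hne : cosetwise (augM K (FreeGroup α)) H ≠ ⊥ := by
    intro h0
    obtain ⟨x, hx⟩ := (Subgroup.ne_bot_iff_exists_ne_one (H := H)).1 hH
    obtain ⟨h, hh, hne⟩ : ∃ h ∈ H, h ≠ (1 : FreeGroup α) :=
      ⟨(x : FreeGroup α), x.2, fun h => hx (Subtype.ext h)⟩
    have hmem : (fun _ : Fin 1 => MonoidAlgebra.single h (1 : K) - 1) ∈
        cosetwise (augM K (FreeGroup α)) H := by
      rw [← proj_eq_zero_iff]
      change Finsupp.lmapDomain K K (fun g : FreeGroup α => (QuotientGroup.mk g : FreeGroup α ⧸ H))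
        ((MonoidAlgebra.single h (1 : K) - 1 : MonoidAlgebra K (FreeGroup α)).coeff) = 0
      rw [MonoidAlgebra.coeff_sub, map_sub, MonoidAlgebra.one_def, MonoidAlgebra.coeff_single,
        MonoidAlgebra.coeff_single, Finsupp.lmapDomain_apply, Finsupp.lmapDomain_apply,
        Finsupp.mapDomain_single, Finsupp.mapDomain_single, sub_eq_zero]
      congr 1
      rw [QuotientGroup.eq]
      simpa using hh
    rw [h0, Submodule.mem_bot] at hmem
    have h1 := congrFun hmem 0
    rw [Pi.zero_apply, sub_eq_zero, MonoidAlgebra.one_def] at h1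
    have h2 := congrArg MonoidAlgebra.coeff h1
    rw [MonoidAlgebra.coeff_single, MonoidAlgebra.coeff_single] at h2
    exact hne (Finsupp.single_left_injective one_ne_zero h2)
  -- the matrix is not zero
  have hr : 0 < r := by
    rcases Nat.eq_zero_or_pos r with h0 | h0
    · subst h0
      exfalso
      apply hne
      have : Subsingleton (cosetwise (augM K (FreeGroup α)) H) := c'.repr.toEquiv.subsingleton
      exact (Submodule.subsingleton_iff_eq_bot).1 this
    · exact h0
  have hs : Function.Surjective (matB (cosetwise (augM K (FreeGroup α)) H) c') := by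
    rw [← LinearMap.range_eq_top]
    have h1 : LinearMap.range (matB (cosetwise (augM K (FreeGroup α)) H) c') ≠ ⊥ := by
      intro h0
      have h2 : matB (cosetwise (augM K (FreeGroup α)) H) c' (Finsupp.single ⟨0, hr⟩ 1) = 0 := by
        have : matB (cosetwise (augM K (FreeGroup α)) H) c' (Finsupp.single ⟨0, hr⟩ 1) ∈
          LinearMap.range (matB (cosetwise (augM K (FreeGroup α)) H) c') := ⟨_, rfl⟩
        rw [h0] at this
        exact this
      rw [matB_single, one_smul] at h2
      have h3 := nuB_stdB_injective (h2.trans (map_zero (nuB (freeB (stdB K α 1)))).symm)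
      exact c'.ne_zero ⟨0, hr⟩ (Subtype.ext h3)
    have h2 : 0 < finrank (DD K α)
        (LinearMap.range (matB (cosetwise (augM K (FreeGroup α)) H) c')) := by
      rw [Module.finrank_pos_iff]
      exact Submodule.nontrivial_iff_ne_bot.2 h1
    apply Submodule.eq_top_of_finrank_eq
    have h3 := Submodule.finrank_le
      (LinearMap.range (matB (cosetwise (augM K (FreeGroup α)) H) c'))
    rw [Module.finrank_finsupp_self, Fintype.card_fin] at h3 ⊢
    omega
  have h := cnt_up (ρ := cosRep K H) (π := proj K H) (cosetwise (augM K (FreeGroup α)) H) c' hs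
    (fun g p => proj_equivariant H g p) (fun p => proj_eq_zero_iff H p) (proj_surjective H)
  rw [Nat.card_eq_fintype_card, Fintype.card_fin] at h
  exact h

end

/-- **The inequality for left modules.** -/
theorem left_main (K : Type) [Field K] (α : Type) (d : ℕ) : LeftMain K α d := by
  classical
  intro H hH r bH M m b hfull
  obtain ⟨o, ho1, ho2⟩ := exists_order α
  let _ := o
  have : MulLeftStrictMono (FreeGroup α) := ⟨fun c a b h => ho1 a b c h⟩
  have : MulRightStrictMono (FreeGroup α) := ⟨fun c a b h => ho2 a b c h⟩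
  let _ : LinearOrder α := IsWellOrder.linearOrder WellOrderingRel
  -- bases
  obtain ⟨J, ⟨c⟩⟩ := cohn_lewin_of_basis bH (inter M H)
  obtain ⟨c', hc'⟩ := cosetwise_basis M H c
  -- the quotient
  let π : (Fin d → MonoidAlgebra K (FreeGroup α)) →ₗ[K]
      ((Fin d → MonoidAlgebra K (FreeGroup α)) ⧸ M) := M.mkQ.restrictScalars K
  have hπ0 : ∀ p, π p = 0 ↔ p ∈ M := fun p => Submodule.Quotient.mk_eq_zero M
  let ρN : Representation K (FreeGroup α) ((Fin d → MonoidAlgebra K (FreeGroup α)) ⧸ M) :=
    rp (K := K) ((Fin d → MonoidAlgebra K (FreeGroup α)) ⧸ M)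
  have hπe : ∀ (g : FreeGroup α) p, π (MonoidAlgebra.single g (1 : K) • p) = ρN g (π p) := by
    intro g p
    exact map_smul M.mkQ (MonoidAlgebra.single g (1 : K)) p
  have hπs : Function.Surjective π := Submodule.mkQ_surjective M
  obtain ⟨hZ1, hZ1'⟩ := cnt_up (ρ := ρN) M b (full_surjective M b hfull) hπe hπ0 hπs
  rw [Nat.card_eq_fintype_card, Fintype.card_fin] at hZ1'
  obtain ⟨hZ2, hZ2'⟩ := cosRep_le (K := K) H hH bH
  have hlow : ∀ J₀ : Finset J, J₀.card ≤ (m - d) * (r - 1) + d := by
    intro J₀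
    obtain ⟨W, hW, hWf, hWc⟩ := cnt_low (cosetwise M H) c'
      (ρ := ρN.tprod (cosRep K H))
      (π := diag H π) (fun g p => diag_equivariant H _ π hπe g p)
      (fun p => diag_eq_zero_iff M H π hπ0 p) J₀
    have h1 := prod_le ρN (cosRep K H) hZ1 hZ2 W hW hWf
    have h2 : finrank (DD K α) (Zc ρN) * finrank (DD K α) (Zc (cosRep K H)) ≤
        (m - d) * (r - 1) := Nat.mul_le_mul (by omega) (by omega)
    omega
  have hJ : Finite J := by
    by_contra hinf
    rw [not_finite_iff_infinite] at hinf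
    obtain ⟨J₀, hJ₀⟩ := Infinite.exists_subset_card_eq J ((m - d) * (r - 1) + d + 1)
    have := hlow J₀
    omega
  have := Fintype.ofFinite J
  refine ⟨Fintype.card J, ⟨c.reindex (Fintype.equivFin J)⟩, ?_⟩
  have h1 := hlow Finset.univ
  rw [Finset.card_univ] at h1
  have hmd : d ≤ m := by omega
  have hr : 1 ≤ r := by omega
  have e1 : ((m - d : ℕ) : ℤ) = (m : ℤ) - d := by omega
  have e2 : ((r - 1 : ℕ) : ℤ) = (r : ℤ) - 1 := by omega
  have h2 : (Fintype.card J : ℤ) ≤ ((m - d : ℕ) : ℤ) * ((r - 1 : ℕ) : ℤ) + d := by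
    exact_mod_cast h1
  rw [e1, e2] at h2
  linarith

end Pool.Agent.Helper166_HN
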