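import Pool.Agent.Helper166_HN.Tree

/-!
# The snake lemma
-/

set_option autoImplicit false
set_option linter.unusedSectionVars false

namespace Pool.Agent.Helper166_HN

open Pool.Agent.Y125.MN Pool.Agent.Y125.MN.Ser Module
open scoped TensorProduct

variable {K : Type} [Field K] {α : Type}
variable [LinearOrder (FreeGroup α)] [MulLeftStrictMono (FreeGroup α)]
  [MulRightStrictMono (FreeGroup α)]
variable {M N P : Type} [AddCommGroup M] [Module K M] [AddCommGroup N] [Module K N]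
  [AddCommGroup P] [Module K P]
variable {J I : Type}

theorem repr_rho {ρ : Representation K (FreeGroup α) M} {β : Basis (J × FreeGroup α) K M}
    (hβ : IsFree ρ β) (g : FreeGroup α) (v : M) (j : J) (k : FreeGroup α) :
    β.repr (ρ g v) (j, k) = β.repr v (j, g⁻¹ * k) := by
  classical
  refine basis_ind β (C := fun v => β.repr (ρ g v) (j, k) = β.repr v (j, g⁻¹ * k)) (by simp) ?_ ?_
    ?_ v
  · rintro ⟨i, h⟩
    rw [hβ, Basis.repr_self, Basis.repr_self, Finsupp.single_apply, Finsupp.single_apply]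
    congr 1
    rw [Prod.mk.injEq, Prod.mk.injEq, eq_iff_iff, eq_inv_mul_iff_mul_eq]
  · intro x y hx hy
    rw [map_add, map_add, map_add, Finsupp.add_apply, Finsupp.add_apply, hx, hy]
  · intro r x hx
    rw [map_smul, map_smul, map_smul, Finsupp.smul_apply, Finsupp.smul_apply, hx]

theorem exists_supp (β : Basis (J × FreeGroup α) K M) (t : DD K α ⊗[K] M) :
    ∃ S : Finset (J × FreeGroup α), ∀ g, ∀ p ∉ S, β.repr (cf g t) p = 0 := by
  classical
  induction t using TensorProduct.induction_on with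
  | zero => exact ⟨∅, fun g p _ => by rw [map_zero, map_zero]; rfl⟩
  | tmul δ n =>
    refine ⟨(β.repr n).support, fun g p hp => ?_⟩
    rw [cf_tmul, map_smul, Finsupp.smul_apply, Finsupp.notMem_support_iff.1 hp, smul_zero]
  | add x y hx hy =>
    obtain ⟨S, hS⟩ := hx
    obtain ⟨T, hT⟩ := hy
    refine ⟨S ∪ T, fun g p hp => ?_⟩
    rw [Finset.mem_union, not_or] at hp
    rw [map_add, map_add, Finsupp.add_apply, hS g p hp.1, hT g p hp.2, add_zero]

theorem bd_injective {ρ : Representation K (FreeGroup α) M} {β : Basis (J × FreeGroup α) K M}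
    (hβ : IsFree ρ β) : Function.Injective (bd ρ) := by
  classical
  rw [injective_iff_map_eq_zero]
  intro z hz
  have hadm := adm_of_mem (ρ := ρ) (z := z) hz
  have key : ∀ (p : J × FreeGroup α) (g : FreeGroup α) (x : α),
      β.coord p (ρ g (cf g (z x))) = 0 := by
    rintro ⟨j, k⟩
    have hflow := hadm.flow.map (β.coord (j, k))
    refine finite_flow hflow ?_
    choose S hS using fun x : α => exists_supp β (z x)
    have hsub : {g | ∃ x, β.coord (j, k) (ρ g (cf g (z x))) ≠ 0} ⊆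
        ⋃ x ∈ z.support, (fun g : FreeGroup α => (j, g⁻¹ * k)) ⁻¹' (S x : Set (J × FreeGroup α)) := by
      rintro g ⟨x, hx⟩
      have hzx : z x ≠ 0 := by
        intro h0
        apply hx
        rw [h0, map_zero, map_zero, map_zero]
      rw [Basis.coord_apply, repr_rho hβ] at hx
      have hmem : (j, g⁻¹ * k) ∈ S x := by
        by_contra hcon
        exact hx (hS x g _ hcon)
      simp only [Set.mem_iUnion]
      exact ⟨x, Finsupp.mem_support_iff.2 hzx, hmem⟩
    refine Set.Finite.subset ?_ hsub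
    refine Set.Finite.biUnion (Finset.finite_toSet _) fun x _ => ?_
    refine Set.Finite.preimage ?_ (Finset.finite_toSet _)
    intro g _ g' _ h
    have h1 := (Prod.mk.inj h).2
    exact inv_injective (mul_right_cancel h1)
  ext1 x
  apply cf_ext
  intro g
  have h1 : ρ g (cf g (z x)) = 0 := by
    apply β.repr.injective
    ext p
    rw [map_zero, Finsupp.zero_apply, ← Basis.coord_apply]
    exact key p g x
  have h2 : ρ g⁻¹ (ρ g (cf g (z x))) = cf g (z x) := by
    rw [← Module.End.mul_apply, ← map_mul, inv_mul_cancel, map_one]; rfl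
  rw [← h2, h1, map_zero, Finsupp.coe_zero, Pi.zero_apply, map_zero]

/-- the map on chains -/
noncomputable def mr (f : N →ₗ[K] M) :
    (α →₀ DD K α ⊗[K] N) →ₗ[DD K α] (α →₀ DD K α ⊗[K] M) := Finsupp.mapRange.linearMap (bc f)

theorem mr_apply (f : N →ₗ[K] M) (w : α →₀ DD K α ⊗[K] N) (x : α) : mr f w x = bc f (w x) := rfl

theorem mr_single (f : N →ₗ[K] M) (x : α) (t : DD K α ⊗[K] N) :
    mr f (Finsupp.single x t) = Finsupp.single x (bc f t) := by
  unfold mr
  rw [Finsupp.mapRange.linearMap_apply, Finsupp.mapRange_single]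

theorem bc_comp (f : N →ₗ[K] M) (g : M →ₗ[K] P) (t : DD K α ⊗[K] N) :
    bc g (bc f t) = bc (g ∘ₗ f) t := by
  change ((bc g).comp (bc f)) t = _
  apply hom_ext'
  intro m
  rfl

theorem bc_id (t : DD K α ⊗[K] N) : bc (LinearMap.id : N →ₗ[K] N) t = t := by
  apply hom_ext' (g := LinearMap.id)
  intro m
  rfl

theorem bc_add (f g : N →ₗ[K] M) (t : DD K α ⊗[K] N) : bc (f + g) t = bc f t + bc g t := by
  change _ = (bc f + bc g : DD K α ⊗[K] N →ₗ[DD K α] DD K α ⊗[K] M) t
  apply hom_ext'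
  intro m
  rw [LinearMap.add_apply, bc_tmul, bc_tmul, bc_tmul, LinearMap.add_apply, TensorProduct.tmul_add]

theorem bc_zero (t : DD K α ⊗[K] N) : bc (0 : N →ₗ[K] M) t = 0 := by
  apply hom_ext' (g := (0 : DD K α ⊗[K] N →ₗ[DD K α] DD K α ⊗[K] M))
  intro m
  rw [bc_tmul, LinearMap.zero_apply, TensorProduct.tmul_zero, LinearMap.zero_apply]

/-- naturality of the boundary -/
theorem bd_mr {ρ : Representation K (FreeGroup α) N} {σ : Representation K (FreeGroup α) M}
    {f : N →ₗ[K] M} (hf : ∀ g n, f (ρ g n) = σ g (f n)) (w : α →₀ DD K α ⊗[K] N) :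
    bd σ (mr f w) = bc f (bd ρ w) := by
  induction w using Finsupp.induction_linear with
  | zero => rw [map_zero, map_zero, map_zero, map_zero]
  | add x y hx hy => rw [map_add, map_add, map_add, map_add, hx, hy]
  | single x t =>
    rw [mr_single, bd_single, bd_single, map_sub]
    congr 1
    change ((tw (FreeGroup.of x) (σ (FreeGroup.of x)⁻¹)).comp (bc f)) t =
      ((bc f).comp (tw (FreeGroup.of x) (ρ (FreeGroup.of x)⁻¹))) t
    apply hom_ext'
    intro m
    rw [LinearMap.comp_apply, LinearMap.comp_apply, bc_tmul, tw_tmul, tw_tmul, bc_tmul, hf]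

section snake

variable {ρM : Representation K (FreeGroup α) M} {ρP : Representation K (FreeGroup α) P}
  {ρN : Representation K (FreeGroup α) N} {ι : M →ₗ[K] P} {π : P →ₗ[K] N}
  {β : Basis (J × FreeGroup α) K M} {γ : Basis (I × FreeGroup α) K P}

/-- the matrix of an equivariant map of free representations over the series -/
noncomputable def mat (ι : M →ₗ[K] P) (β : Basis (J × FreeGroup α) K M)
    (γ : Basis (I × FreeGroup α) K P) : (J →₀ DD K α) →ₗ[DD K α] (I →₀ DD K α) :=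
  Finsupp.lsum ℕ (fun j => LinearMap.toSpanSingleton (DD K α) _ (nuB γ (ι (β (j, 1)))))

theorem mat_single (ι : M →ₗ[K] P) (β : Basis (J × FreeGroup α) K M)
    (γ : Basis (I × FreeGroup α) K P) (j : J) (δ : DD K α) :
    mat ι β γ (Finsupp.single j δ) = δ • nuB γ (ι (β (j, 1))) := by
  unfold mat
  rw [Finsupp.lsum_single, LinearMap.toSpanSingleton_apply]

theorem mat_nu (hβ : IsFree ρM β) (hγ : IsFree ρP γ) (hι : ∀ g m, ι (ρM g m) = ρP g (ι m))
    (t : DD K α ⊗[K] M) : mat ι β γ (nu β t) = nu γ (bc ι t) := by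
  change ((mat ι β γ).comp (nu β)) t = ((nu γ).comp (bc ι)) t
  apply hom_ext'
  intro m
  rw [LinearMap.comp_apply, LinearMap.comp_apply, bc_tmul, nu_tmul, nu_tmul, one_smul, one_smul]
  refine basis_ind β (C := fun m => mat ι β γ (nuB β m) = nuB γ (ι m)) (by simp) ?_ ?_ ?_ m
  · rintro ⟨j, h⟩
    rw [nuB_basis, mat_single, ← nuB_rho hγ, ← hι, hβ, mul_one]
  · intro x y hx hy
    rw [map_add, map_add, map_add, map_add, hx, hy]
  · intro r x hx
    have h1 : mat ι β γ (nuB β (r • x)) = r • mat ι β γ (nuB β x) := by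
      rw [map_smul (nuB β), ← algebraMap_smul (DD K α) r (nuB β x), map_smul, algebraMap_smul]
    rw [h1, hx, map_smul ι, map_smul (nuB γ)]

/-- splitting data -/
theorem exists_split (hinj : Function.Injective ι) (hex : ∀ p, π p = 0 ↔ ∃ m, ι m = p) :
    ∃ (r : P →ₗ[K] M) (τ : N →ₗ[K] P), (∀ p, ι (r p) + τ (π p) = p) ∧ ∀ p, π (τ (π p)) = π p := by
  obtain ⟨r₀, hr₀⟩ := ι.exists_leftInverse_of_injective (LinearMap.ker_eq_bot.2 hinj)
  obtain ⟨s, hs⟩ := π.rangeRestrict.exists_rightInverse_of_surjective (LinearMap.range_rangeRestrict π)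
  obtain ⟨q, hq⟩ := (LinearMap.range π).subtype.exists_leftInverse_of_injective
    (Submodule.ker_subtype _)
  have h1 : ∀ p, π (s (q (π p))) = π p := by
    intro p
    have e1 : q (π p) = ⟨π p, LinearMap.mem_range_self π p⟩ :=
      LinearMap.congr_fun hq ⟨π p, LinearMap.mem_range_self π p⟩
    rw [e1]
    have e2 := LinearMap.congr_fun hs ⟨π p, LinearMap.mem_range_self π p⟩
    exact congrArg Subtype.val e2
  refine ⟨r₀ ∘ₗ (LinearMap.id - (s ∘ₗ q) ∘ₗ π), s ∘ₗ q, fun p => ?_, fun p => h1 p⟩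
  obtain ⟨m, hm⟩ := (hex (p - s (q (π p)))).1 (by rw [map_sub, h1, sub_self])
  have h2 : r₀ (ι m) = m := LinearMap.congr_fun hr₀ m
  change ι (r₀ (p - s (q (π p)))) + s (q (π p)) = p
  rw [← hm, h2, hm, sub_add_cancel]

theorem bc_split {r : P →ₗ[K] M} {τ : N →ₗ[K] P} (h : ∀ p, ι (r p) + τ (π p) = p)
    (t : DD K α ⊗[K] P) : bc ι (bc r t) + bc τ (bc π t) = t := by
  have : ι ∘ₗ r + τ ∘ₗ π = LinearMap.id := LinearMap.ext h
  rw [bc_comp, bc_comp, ← bc_add, this, bc_id]

theorem bc_injective (hinj : Function.Injective ι) :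
    Function.Injective (bc ι : DD K α ⊗[K] M → DD K α ⊗[K] P) := by
  obtain ⟨r₀, hr₀⟩ := ι.exists_leftInverse_of_injective (LinearMap.ker_eq_bot.2 hinj)
  intro t t' h
  have := congrArg (bc r₀) h
  rw [bc_comp, bc_comp, hr₀, bc_id, bc_id] at this
  exact this

/-- the kernel of the matrix embeds in the cycles of the cokernel -/
theorem snake_ker (hβ : IsFree ρM β) (hγ : IsFree ρP γ) (hι : ∀ g m, ι (ρM g m) = ρP g (ι m))
    (hπ : ∀ g p, π (ρP g p) = ρN g (π p)) (hinj : Function.Injective ι)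
    (hex : ∀ p, π p = 0 ↔ ∃ m, ι m = p) :
    ∃ Φ : LinearMap.ker (mat ι β γ) →ₗ[DD K α] Zc ρN, Function.Injective Φ := by
  obtain ⟨r, τ, hsplit, hτ⟩ := exists_split hinj hex
  have hbdinj := bd_injective hγ
  obtain ⟨s, hs⟩ := (bd ρP).exists_leftInverse_of_injective (LinearMap.ker_eq_bot.2 hbdinj)
  have hs' : ∀ w, s (bd ρP w) = w := fun w => LinearMap.congr_fun hs w
  have hw : ∀ v ∈ LinearMap.ker (mat ι β γ), bd ρP (s (bc ι (sec β v))) = bc ι (sec β v) := by
    intro v hv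
    have h1 : nu γ (bc ι (sec β v)) = 0 := by
      rw [← mat_nu hβ hγ hι, nu_sec]; exact hv
    obtain ⟨w, hw⟩ := exists_bd hγ h1
    rw [← hw, hs']
  let Φ₀ : (J →₀ DD K α) →ₗ[DD K α] (α →₀ DD K α ⊗[K] N) := mr π ∘ₗ s ∘ₗ bc ι ∘ₗ sec β
  have hπι : π ∘ₗ ι = 0 := LinearMap.ext fun m => (hex _).2 ⟨m, rfl⟩
  have hmem : ∀ v : LinearMap.ker (mat ι β γ), Φ₀ v ∈ Zc ρN := by
    intro v
    change bd ρN (mr π (s (bc ι (sec β v)))) = 0
    rw [bd_mr hπ, hw v v.2, bc_comp, hπι, bc_zero]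
  refine ⟨(Φ₀.comp (Submodule.subtype _)).codRestrict _ hmem, ?_⟩
  rw [injective_iff_map_eq_zero]
  intro v hv
  have hv0 : mr π (s (bc ι (sec β v))) = 0 := congrArg Subtype.val hv
  set w := s (bc ι (sec β (v : J →₀ DD K α))) with hwdef
  have h1 : w = mr ι (mr r w) := by
    ext1 x
    rw [mr_apply, mr_apply]
    have h2 := bc_split hsplit (w x)
    have h3 : bc π (w x) = 0 := by
      rw [← mr_apply, hv0]; rfl
    rw [h3, map_zero, add_zero] at h2
    exact h2.symm
  have h4 : bc ι (sec β (v : J →₀ DD K α)) = bc ι (bd ρM (mr r w)) := by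
    rw [← hw v v.2, ← bd_mr hι, ← h1]
  have h5 := bc_injective hinj h4
  have h6 : (v : J →₀ DD K α) = 0 := by
    rw [← nu_sec β (v : J →₀ DD K α), h5, nu_bd hβ]
  exact Subtype.ext h6

/-- the cycles of the cokernel embed in the kernel of the matrix -/
theorem snake_coker (hβ : IsFree ρM β) (hγ : IsFree ρP γ) (hι : ∀ g m, ι (ρM g m) = ρP g (ι m))
    (hπ : ∀ g p, π (ρP g p) = ρN g (π p)) (hinj : Function.Injective ι)
    (hex : ∀ p, π p = 0 ↔ ∃ m, ι m = p) (hsurj : Function.Surjective π) :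
    ∃ Ψ : Zc ρN →ₗ[DD K α] LinearMap.ker (mat ι β γ), Function.Injective Ψ := by
  obtain ⟨r, τ, hsplit, hτ⟩ := exists_split hinj hex
  have hτ' : π ∘ₗ τ = LinearMap.id := by
    ext n
    obtain ⟨p, rfl⟩ := hsurj n
    exact hτ p
  let Ψ₀ : (α →₀ DD K α ⊗[K] N) →ₗ[DD K α] (J →₀ DD K α) := nu β ∘ₗ bc r ∘ₗ bd ρP ∘ₗ mr τ
  have hmr : ∀ z : α →₀ DD K α ⊗[K] N, mr π (mr τ z) = z := by
    intro z
    ext1 x
    rw [mr_apply, mr_apply, bc_comp, hτ', bc_id]
  have hlift : ∀ z ∈ Zc ρN, bc ι (bc r (bd ρP (mr τ z))) = bd ρP (mr τ z) := by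
    intro z hz
    have h1 : bc π (bd ρP (mr τ z)) = 0 := by
      rw [← bd_mr hπ, hmr]; exact hz
    have h2 := bc_split hsplit (bd ρP (mr τ z))
    rw [h1, map_zero, add_zero] at h2
    exact h2
  have hmem : ∀ z : Zc ρN, Ψ₀ z ∈ LinearMap.ker (mat ι β γ) := by
    intro z
    change mat ι β γ (nu β (bc r (bd ρP (mr τ z)))) = 0
    rw [mat_nu hβ hγ hι, hlift z z.2, nu_bd hγ]
  refine ⟨(Ψ₀.comp (Submodule.subtype _)).codRestrict _ hmem, ?_⟩
  rw [injective_iff_map_eq_zero]
  intro z hz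
  have hz0 : nu β (bc r (bd ρP (mr τ (z : α →₀ DD K α ⊗[K] N)))) = 0 := congrArg Subtype.val hz
  obtain ⟨w, hw⟩ := exists_bd hβ hz0
  have h1 : bd ρP (mr ι w) = bd ρP (mr τ (z : α →₀ DD K α ⊗[K] N)) := by
    rw [bd_mr hι, hw, hlift z z.2]
  have h2 := bd_injective hγ h1
  have hπι : π ∘ₗ ι = 0 := LinearMap.ext fun m => (hex _).2 ⟨m, rfl⟩
  have h3 : (z : α →₀ DD K α ⊗[K] N) = 0 := by
    rw [← hmr (z : α →₀ DD K α ⊗[K] N), ← h2]
    ext1 x
    rw [mr_apply, mr_apply, bc_comp, hπι, bc_zero]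
    rfl
  exact Subtype.ext h3

end snake

end Pool.Agent.Helper166_HN
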