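import Pool.Agent.Helper166_HN.ZD

/-!
# Exactness for free representations, and the snake lemma
-/

set_option autoImplicit false
set_option linter.unusedSectionVars false

namespace Pool.Agent.Helper166_HN

open Pool.Agent.Y125.MN Pool.Agent.Y125.MN.Ser Module
open scoped TensorProduct

variable {K : Type} [Field K] {α : Type}
variable [LinearOrder (FreeGroup α)] [MulLeftStrictMono (FreeGroup α)]
  [MulRightStrictMono (FreeGroup α)]
variable {M N P : Type} [AddCommGroup M] [Module K M] [AddCommGroup N] [Module K N]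
  [AddCommGroup P] [Module K P]

/-- A free basis of a representation: the translates `g β(j, 1)` are a basis over the field. -/
def IsFree {J : Type} (ρ : Representation K (FreeGroup α) M)
    (β : Basis (J × FreeGroup α) K M) : Prop :=
  ∀ g j h, ρ g (β (j, h)) = β (j, g * h)

section lft

variable {X : Type} [AddCommGroup X] [Module K X] [Module (DD K α) X] [IsScalarTower K (DD K α) X]

/-- `δ ⊗ n ↦ δ • B n` -/
noncomputable def lft (B : N →ₗ[K] X) : DD K α ⊗[K] N →ₗ[DD K α] X :=
  TensorProduct.AlgebraTensorModule.lift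
    { toFun := fun δ =>
        { toFun := fun n => δ • B n
          map_add' := fun n n' => by rw [map_add, smul_add]
          map_smul' := fun r n => by
            rw [map_smul, RingHom.id_apply, ← algebraMap_smul (DD K α) r (B n),
              ← algebraMap_smul (DD K α) r (δ • B n), ← mul_smul, ← mul_smul, Algebra.commutes] }
      map_add' := fun δ δ' => by ext n; exact add_smul _ _ _
      map_smul' := fun δ δ' => by ext n; exact mul_smul _ _ _ }

theorem lft_tmul (B : N →ₗ[K] X) (δ : DD K α) (n : N) : lft B (δ ⊗ₜ[K] n) = δ • B n := rfl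

end lft

theorem basis_ind {ι : Type} (β : Basis ι K M) {C : M → Prop} (h0 : C 0) (hb : ∀ i, C (β i))
    (ha : ∀ x y, C x → C y → C (x + y)) (hs : ∀ (r : K) x, C x → C (r • x)) (m : M) : C m := by
  have hm : m ∈ Submodule.span K (Set.range β) := β.mem_span m
  induction hm using Submodule.span_induction with
  | mem x hx => obtain ⟨i, rfl⟩ := hx; exact hb i
  | zero => exact h0
  | add x y _ _ hx hy => exact ha x y hx hy
  | smul r x _ hx => exact hs r x hx

theorem hom_ext' {X : Type} [AddCommGroup X] [Module (DD K α) X] {f g : DD K α ⊗[K] N →ₗ[DD K α] X}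
    (h : ∀ n, f (1 ⊗ₜ n) = g (1 ⊗ₜ n)) (t : DD K α ⊗[K] N) : f t = g t := by
  induction t using TensorProduct.induction_on with
  | zero => rw [map_zero, map_zero]
  | tmul δ n =>
    have : δ ⊗ₜ[K] n = δ • ((1 : DD K α) ⊗ₜ[K] n) := by
      rw [TensorProduct.smul_tmul', smul_eq_mul, mul_one]
    rw [this, map_smul, map_smul, h]
  | add x y hx hy => rw [map_add, map_add, hx, hy]

variable {J I : Type}

/-- the values of `nu` on vectors -/
noncomputable def nuB (β : Basis (J × FreeGroup α) K M) : M →ₗ[K] (J →₀ DD K α) :=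
  β.constr K (fun p => Finsupp.single p.1 (u K p.2))

theorem nuB_basis (β : Basis (J × FreeGroup α) K M) (j : J) (h : FreeGroup α) :
    nuB β (β (j, h)) = Finsupp.single j (u K h) := by
  unfold nuB
  rw [Basis.constr_basis]

/-- `δ ⊗ β(j, h) ↦ δ h` at `j` -/
noncomputable def nu (β : Basis (J × FreeGroup α) K M) :
    DD K α ⊗[K] M →ₗ[DD K α] (J →₀ DD K α) := lft (nuB β)

theorem nu_tmul (β : Basis (J × FreeGroup α) K M) (δ : DD K α) (m : M) :
    nu β (δ ⊗ₜ m) = δ • nuB β m := rfl

theorem nuB_rho {ρ : Representation K (FreeGroup α) M} {β : Basis (J × FreeGroup α) K M}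
    (hβ : IsFree ρ β) (g : FreeGroup α) (m : M) : nuB β (ρ g m) = u K g • nuB β m := by
  refine basis_ind β (C := fun m => nuB β (ρ g m) = u K g • nuB β m) (by simp) ?_ ?_ ?_ m
  · rintro ⟨j, h⟩
    rw [hβ, nuB_basis, nuB_basis, Finsupp.smul_single, smul_eq_mul, u_mul]
  · intro x y hx hy
    rw [map_add, map_add, map_add, hx, hy, smul_add]
  · intro r x hx
    rw [map_smul, map_smul, map_smul, hx, smul_comm]

theorem nu_bd {ρ : Representation K (FreeGroup α) M} {β : Basis (J × FreeGroup α) K M}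
    (hβ : IsFree ρ β) (w : α →₀ DD K α ⊗[K] M) : nu β (bd ρ w) = 0 := by
  induction w using Finsupp.induction_linear with
  | zero => rw [map_zero, map_zero]
  | add x y hx hy => rw [map_add, map_add, hx, hy, add_zero]
  | single x t =>
    rw [bd_single, map_sub, sub_eq_zero]
    change ((nu β).comp (tw (FreeGroup.of x) (ρ (FreeGroup.of x)⁻¹))) t = nu β t
    apply hom_ext'
    intro m
    rw [LinearMap.comp_apply, tw_tmul, one_mul, nu_tmul, nu_tmul, nuB_rho hβ, ← mul_smul,
      u_mul_inv]

/-- the section of `nu` -/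
noncomputable def sec (β : Basis (J × FreeGroup α) K M) :
    (J →₀ DD K α) →ₗ[DD K α] DD K α ⊗[K] M :=
  Finsupp.lsum ℕ (fun j => LinearMap.toSpanSingleton (DD K α) _ (1 ⊗ₜ β (j, 1)))

theorem sec_single (β : Basis (J × FreeGroup α) K M) (j : J) (δ : DD K α) :
    sec β (Finsupp.single j δ) = δ ⊗ₜ β (j, 1) := by
  unfold sec
  rw [Finsupp.lsum_single, LinearMap.toSpanSingleton_apply, TensorProduct.smul_tmul', smul_eq_mul,
    mul_one]

theorem nu_sec (β : Basis (J × FreeGroup α) K M) (v : J →₀ DD K α) : nu β (sec β v) = v := by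
  induction v using Finsupp.induction_linear with
  | zero => rw [map_zero, map_zero]
  | add x y hx hy => rw [map_add, map_add, hx, hy]
  | single j δ =>
    rw [sec_single, nu_tmul, nuB_basis, Finsupp.smul_single, smul_eq_mul, u_one, mul_one]

theorem tw_one (ρ : Representation K (FreeGroup α) M) (t : DD K α ⊗[K] M) :
    tw 1 (ρ 1⁻¹) t = t := by
  apply hom_ext' (g := LinearMap.id)
  intro m
  rw [tw_tmul, inv_one, map_one, u_one, one_mul]
  rfl

theorem tw_comp (ρ : Representation K (FreeGroup α) M) (g h : FreeGroup α) (t : DD K α ⊗[K] M) :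
    tw (g * h) (ρ (g * h)⁻¹) t = tw h (ρ h⁻¹) (tw g (ρ g⁻¹) t) := by
  change _ = ((tw h (ρ h⁻¹)).comp (tw g (ρ g⁻¹))) t
  apply hom_ext'
  intro m
  rw [LinearMap.comp_apply, tw_tmul, tw_tmul, tw_tmul, one_mul, one_mul, u_mul, mul_inv_rev, map_mul]
  rfl

theorem tw_sub_mem (ρ : Representation K (FreeGroup α) M) (g : FreeGroup α) :
    ∀ t : DD K α ⊗[K] M, tw g (ρ g⁻¹) t - t ∈ LinearMap.range (bd ρ) := by
  induction g using FreeGroup.induction_on with
  | C1 => intro t; rw [tw_one, sub_self]; exact Submodule.zero_mem _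
  | of x => intro t; exact ⟨Finsupp.single x t, bd_single ρ x t⟩
  | inv_of x _ =>
    intro t
    have h1 : tw (FreeGroup.of x) (ρ (FreeGroup.of x)⁻¹)
        (tw (FreeGroup.of x)⁻¹ (ρ ((FreeGroup.of x)⁻¹)⁻¹) t) = t := by
      rw [← tw_comp, inv_mul_cancel, tw_one]
    refine ⟨- Finsupp.single x (tw (FreeGroup.of x)⁻¹ (ρ ((FreeGroup.of x)⁻¹)⁻¹) t), ?_⟩
    rw [map_neg, bd_single, h1, neg_sub]
  | mul g h hg hh =>
    intro t
    have : tw (g * h) (ρ (g * h)⁻¹) t - t = (tw h (ρ h⁻¹) (tw g (ρ g⁻¹) t) - tw g (ρ g⁻¹) t) +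
        (tw g (ρ g⁻¹) t - t) := by
      rw [tw_comp]
      abel
    rw [this]
    exact Submodule.add_mem _ (hh _) (hg _)

theorem sec_nu_sub_mem {ρ : Representation K (FreeGroup α) M} {β : Basis (J × FreeGroup α) K M}
    (hβ : IsFree ρ β) (t : DD K α ⊗[K] M) : sec β (nu β t) - t ∈ LinearMap.range (bd ρ) := by
  have key : ∀ m : M, sec β (nu β (1 ⊗ₜ m)) - (1 : DD K α) ⊗ₜ m ∈ LinearMap.range (bd ρ) := by
    intro m
    refine basis_ind β (C := fun m => sec β (nu β (1 ⊗ₜ m)) - (1 : DD K α) ⊗ₜ m ∈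
      LinearMap.range (bd ρ)) ?_ ?_ ?_ ?_ m
    · rw [TensorProduct.tmul_zero, map_zero, map_zero, sub_self]
      exact Submodule.zero_mem _
    · rintro ⟨j, h⟩
      rw [nu_tmul, one_smul, nuB_basis, sec_single]
      have h1 := tw_sub_mem ρ h ((1 : DD K α) ⊗ₜ β (j, h))
      rw [tw_tmul, one_mul, hβ, inv_mul_cancel] at h1
      exact h1
    · intro x y hx hy
      have := Submodule.add_mem _ hx hy
      rw [TensorProduct.tmul_add, map_add, map_add]
      convert this using 1
      abel
    · intro r x hx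
      have h1 := Submodule.smul_mem _ (algebraMap K (DD K α) r) hx
      rw [TensorProduct.tmul_smul, ← algebraMap_smul (DD K α) r (_ ⊗ₜ[K] _), map_smul, map_smul,
        ← smul_sub]
      exact h1
  induction t using TensorProduct.induction_on with
  | zero => rw [map_zero, map_zero, sub_self]; exact Submodule.zero_mem _
  | tmul δ n =>
    have h1 := Submodule.smul_mem _ δ (key n)
    have h2 : δ ⊗ₜ[K] n = δ • ((1 : DD K α) ⊗ₜ[K] n) := by
      rw [TensorProduct.smul_tmul', smul_eq_mul, mul_one]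
    rw [h2, map_smul, map_smul, ← smul_sub]
    exact h1
  | add x y hx hy =>
    have := Submodule.add_mem _ hx hy
    rw [map_add, map_add]
    convert this using 1
    abel

theorem exists_bd {ρ : Representation K (FreeGroup α) M} {β : Basis (J × FreeGroup α) K M}
    (hβ : IsFree ρ β) {t : DD K α ⊗[K] M} (ht : nu β t = 0) : ∃ w, bd ρ w = t := by
  have h := sec_nu_sub_mem hβ t
  rw [ht, map_zero, zero_sub] at h
  obtain ⟨w, hw⟩ := h
  exact ⟨-w, by rw [map_neg, hw, neg_neg]⟩

end Pool.Agent.Helper166_HN
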