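import Pool.Agent.Helper166_HN.Chain
import Pool.Agent.Y433.SC.Flow

set_option autoImplicit false
set_option linter.unusedSectionVars false

namespace Pool.Agent.Helper166_HN

open Pool.Agent.Y125.MN Pool.Agent.Y125.MN.Ser Module
open scoped TensorProduct

variable {K : Type} [Field K] {α : Type}
variable [LinearOrder (FreeGroup α)] [MulLeftStrictMono (FreeGroup α)]
  [MulRightStrictMono (FreeGroup α)]

/-- There are no nonzero finite flows on the Cayley tree. -/
theorem finite_flow {N : Type} [AddCommGroup N] {m : FreeGroup α → α → N} (h : IsFlow m)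
    (hfin : {g | ∃ x, m g x ≠ 0}.Finite) : ∀ g x, m g x = 0 := by
  classical
  obtain ⟨S, hS, hflow⟩ := h
  intro g₀ b₀
  by_cases hb₀ : b₀ ∈ S
  swap
  · exact hS g₀ b₀ hb₀
  obtain ⟨Q, hQ1, hQ⟩ := Pool.Agent.Y433.SC.t_pot α ℤ (fun b f => if b = b₀ ∧ f = g₀ then 1 else 0)
  have hfin' : ∀ b, (Function.support fun g => m g b).Finite := fun b =>
    hfin.subset fun g hg => ⟨b, hg⟩
  have nz : ∀ (z : ℤ) (n : N), z • n ≠ 0 → n ≠ 0 := by
    intro z n hzn hn
    exact hzn (by rw [hn, smul_zero])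
  have f1 : ∀ b, (Function.support fun g => Q (g * FreeGroup.of b) • m g b).Finite := fun b =>
    (hfin' b).subset fun g hg => nz _ _ hg
  have f2 : ∀ b, (Function.support fun g => Q g • m g b).Finite := fun b =>
    (hfin' b).subset fun g hg => nz _ _ hg
  have hsh : ∀ b, (∑ᶠ g, Q (g * FreeGroup.of b) • m g b) =
      ∑ᶠ g, Q g • m (g * (FreeGroup.of b)⁻¹) b := by
    intro b
    have h := finsum_comp_equiv (Equiv.mulRight (FreeGroup.of b))
      (f := fun g => Q g • m (g * (FreeGroup.of b)⁻¹) b)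
    rw [← h]
    refine finsum_congr fun g => ?_
    simp
  have f3 : ∀ b, (Function.support fun g => Q g • m (g * (FreeGroup.of b)⁻¹) b).Finite := by
    intro b
    have := (f1 b).preimage (f := Equiv.mulRight (FreeGroup.of b)⁻¹)
      (Equiv.injective _).injOn
    refine this.subset fun g hg => ?_
    simp only [Function.mem_support, Set.mem_preimage, Equiv.coe_mulRight, inv_mul_cancel_right]
      at hg ⊢
    exact hg
  have h1 : ∀ b, (∑ᶠ g, (Q (g * FreeGroup.of b) - Q g) • m g b) =
      ∑ᶠ g, Q g • (m (g * (FreeGroup.of b)⁻¹) b - m g b) := by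
    intro b
    have e1 : (∑ᶠ g, (Q (g * FreeGroup.of b) - Q g) • m g b) =
        (∑ᶠ g, Q (g * FreeGroup.of b) • m g b) - ∑ᶠ g, Q g • m g b := by
      rw [← finsum_sub_distrib (f1 b) (f2 b)]
      refine finsum_congr fun g => ?_
      rw [sub_smul]
    have e2 : (∑ᶠ g, Q g • (m (g * (FreeGroup.of b)⁻¹) b - m g b)) =
        (∑ᶠ g, Q g • m (g * (FreeGroup.of b)⁻¹) b) - ∑ᶠ g, Q g • m g b := by
      rw [← finsum_sub_distrib (f3 b) (f2 b)]
      refine finsum_congr fun g => ?_
      rw [smul_sub]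
    rw [e1, e2, hsh]
  have h2 : ∑ b ∈ S, (∑ᶠ g, Q g • (m (g * (FreeGroup.of b)⁻¹) b - m g b)) = 0 := by
    rw [← finsum_sum_comm]
    · rw [finsum_eq_zero_of_forall_eq_zero]
      intro g
      rw [← Finset.smul_sum, hflow g, smul_zero]
    · intro b _
      refine ((f3 b).union (f2 b)).subset fun g hg => ?_
      by_contra hcon
      simp only [Set.mem_union, Function.mem_support, not_or, not_not] at hcon
      apply hg
      show Q g • (m (g * (FreeGroup.of b)⁻¹) b - m g b) = 0
      rw [smul_sub, hcon.1, hcon.2, sub_zero]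
  have h3 : ∑ b ∈ S, (∑ᶠ g, (Q (g * FreeGroup.of b) - Q g) • m g b) = m g₀ b₀ := by
    rw [Finset.sum_eq_single b₀]
    · rw [finsum_eq_single _ g₀]
      · rw [hQ]
        simp
      · intro g hg
        rw [hQ]
        simp [hg]
    · intro b _ hb
      rw [finsum_eq_zero_of_forall_eq_zero]
      intro g
      rw [hQ]
      simp [hb]
    · intro h
      exact absurd hb₀ h
  rw [← h3, ← h2]
  exact Finset.sum_congr rfl fun b _ => h1 b

/-- the least exponents of the nonzero elements of a finite-dimensional space are finitely many -/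
theorem zd_fin (V : Submodule K (DD K α)) [FiniteDimensional K V] :
    {l | ∃ f ∈ V, c f l ≠ 0 ∧ ∀ h < l, c f h = 0}.Finite := by
  classical
  set Lam : Set (FreeGroup α) := {l | ∃ f ∈ V, c f l ≠ 0 ∧ ∀ h < l, c f h = 0} with hLam
  let W : FreeGroup α → Submodule K (DD K α) := fun l =>
    V ⊓ ⨅ h : Set.Iio l, LinearMap.ker (coL K (h : FreeGroup α))
  have hW : ∀ l f, f ∈ W l ↔ f ∈ V ∧ ∀ h < l, c f h = 0 := by
    intro l f
    simp only [W, Submodule.mem_inf, Submodule.mem_iInf, LinearMap.mem_ker, coL_apply,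
      Subtype.forall, Set.mem_Iio]
  have hWV : ∀ l, W l ≤ V := fun l => inf_le_left
  have hfd : ∀ l, FiniteDimensional K (W l) := fun l =>
    Submodule.finiteDimensional_of_le (hWV l)
  have hlt : ∀ l ∈ Lam, ∀ l' ∈ Lam, l < l' → finrank K (W l') < finrank K (W l) := by
    intro l hl l' hl' hll
    have := hfd l
    apply Submodule.finrank_lt_finrank_of_lt
    refine lt_of_le_of_ne ?_ ?_
    · intro f hf
      rw [hW] at hf ⊢
      exact ⟨hf.1, fun h hh => hf.2 h (hh.trans hll)⟩
    · intro heq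
      obtain ⟨f, hf, hf1, hf2⟩ := hl
      have h1 : f ∈ W l := (hW l f).2 ⟨hf, hf2⟩
      rw [← heq, hW] at h1
      exact hf1 (h1.2 l hll)
  have hinj : Set.InjOn (fun l => finrank K (W l)) Lam := by
    intro l hl l' hl' he
    rcases lt_trichotomy l l' with h | h | h
    · exact absurd he (ne_of_gt (hlt l hl l' hl' h))
    · exact h
    · exact absurd he (ne_of_lt (hlt l' hl' l hl h))
  refine Set.Finite.of_finite_image ((Set.finite_Iic (finrank K V)).subset ?_) hinj
  rintro _ ⟨l, _, rfl⟩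
  exact Submodule.finrank_mono (hWV l)

/-- every nonzero series has a least exponent -/
theorem zd_least {f : DD K α} (hf : f ≠ 0) : ∃ l, c f l ≠ 0 ∧ ∀ h < l, c f h = 0 := by
  have hne : (Function.support (c f)).Nonempty := by
    by_contra hcon
    rw [Set.not_nonempty_iff_eq_empty, Function.support_eq_empty_iff] at hcon
    exact hf (ext hcon)
  have hwf : (Function.support (c f)).IsWF := (pwo f).isWF
  refine ⟨hwf.min hne, hwf.min_mem hne, fun h hh => ?_⟩
  by_contra hcon
  exact absurd hh (not_lt.2 (hwf.min_le hne hcon))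

/-- There are no nonzero admissible flows with values in the series. -/
theorem adm_regular (ρ : Representation K (FreeGroup α) (DD K α)) (hρ : ∀ g f, ρ g f = u K g * f)
    {m : FreeGroup α → α → DD K α} (hm : Adm ρ m) : ∀ g x, m g x = 0 := by
  classical
  by_contra hcon
  push Not at hcon
  obtain ⟨g₀, x₀, h0⟩ := hcon
  obtain ⟨V, hV, hmV⟩ := hm.fd
  have hLam := zd_fin V
  set Lam : Set (FreeGroup α) := {l | ∃ f ∈ V, c f l ≠ 0 ∧ ∀ h < l, c f h = 0} with hLamdef
  have key : ∀ g x e, c (m g x) e ≠ 0 → (∀ h < e, c (m g x) h = 0) → g⁻¹ * e ∈ Lam := by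
    intro g x e h1 h2
    refine ⟨u K g⁻¹ * m g x, ?_, ?_, ?_⟩
    · rw [← hρ]
      exact hmV g x
    · rw [c_u_mul]
      simpa using h1
    · intro h hh
      rw [c_u_mul]
      apply h2
      rw [inv_inv]
      have := mul_lt_mul_right hh g
      rwa [mul_inv_cancel_left] at this
  set E : Set (FreeGroup α) := {e | ∃ g x, c (m g x) e ≠ 0 ∧ ∀ h < e, c (m g x) h = 0} with hE
  have hEpwo : E.IsPWO := by
    refine (pwo_mul hm.pwo hLam.isPWO).mono ?_
    rintro e ⟨g, x, h1, h2⟩
    refine ⟨g, ⟨x, fun hz => h1 (by rw [hz]; rfl)⟩, g⁻¹ * e, key g x e h1 h2, by group⟩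
  have hEne : E.Nonempty := by
    obtain ⟨l, hl1, hl2⟩ := zd_least h0
    exact ⟨l, g₀, x₀, hl1, hl2⟩
  have hEwf : E.IsWF := hEpwo.isWF
  set μ := hEwf.min hEne with hμ
  have hμmem : μ ∈ E := hEwf.min_mem hEne
  have hμle : ∀ e ∈ E, μ ≤ e := fun e he => hEwf.min_le hEne he
  have hflow : IsFlow (fun g x => coL K μ (m g x)) := hm.flow.map (coL K μ)
  have hfin : {g | ∃ x, coL K μ (m g x) ≠ 0}.Finite := by
    refine (hLam.image (fun l => μ * l⁻¹)).subset ?_
    rintro g ⟨x, hx⟩
    rw [coL_apply] at hx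
    have hmne : m g x ≠ 0 := fun hz => hx (by rw [hz]; rfl)
    obtain ⟨e, he1, he2⟩ := zd_least hmne
    have h1 : μ ≤ e := hμle e ⟨g, x, he1, he2⟩
    have h2 : e ≤ μ := by
      by_contra hcon
      exact hx (he2 μ (not_le.1 hcon))
    have h3 : e = μ := le_antisymm h2 h1
    refine ⟨g⁻¹ * e, key g x e he1 he2, ?_⟩
    simp only
    rw [h3]
    group
  have hz := finite_flow hflow hfin
  obtain ⟨g, x, h1, _⟩ := hμmem
  exact h1 (hz g x)

end Pool.Agent.Helper166_HN
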